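import Pool.Agent.Lib.MP_ad5d82_an.h24.Rad.Defs

set_option autoImplicit false

namespace Pool.Agent.MPad5d82

open MeasureTheory Set Filter Topology

private theorem asymp_exp {ι : Type} (n : ι → ℕ) (hn : ∀ a, 1 ≤ n a) (α : ι → ℝ)
    (w : ℝ → ι → ℝ) (C : ℝ) (t : ℝ) (ht : t ≤ 0) (b : ι)
    (hw : |w t b - (2 * n b * t + α b)| ≤ C * Real.exp (2 * t)) :
    Real.exp (w t b) ≤ Real.exp (α b + C) * Real.exp (2 * t) := by
  rw [← Real.exp_add]
  apply Real.exp_le_exp.2
  have hC : 0 ≤ C := by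
    have h1 := (abs_nonneg _).trans hw
    by_contra h2
    have h3 : C * Real.exp (2 * t) < 0 := mul_neg_of_neg_of_pos (not_le.1 h2) (Real.exp_pos _)
    linarith
  have h1 : Real.exp (2 * t) ≤ 1 := Real.exp_le_one_iff.2 (by linarith)
  have h2 := (abs_le.1 hw).2
  have h3 : C * Real.exp (2 * t) ≤ C := by nlinarith
  have h4 : (1 : ℝ) ≤ n b := by exact_mod_cast hn b
  have h5 : (n b : ℝ) * t ≤ 1 * t := mul_le_mul_of_nonpos_right h4 ht
  nlinarith

/-- Bound of the right-hand side near `-∞`: since `n b ≥ 1`, `exp (w t b) ≤ exp(α b + C) exp(2 t)` for `t ≤ 0`. -/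
theorem rhs_bound {ι : Type} [Fintype ι] (M : Matrix ι ι ℝ) (lam : ℝ) (n : ι → ℕ) (hn : ∀ a, 1 ≤ n a)
    (α : ι → ℝ) (w : ℝ → ι → ℝ) (C : ℝ)
    (hw : ∀ t ≤ 0, ∀ a, |w t a - (2 * n a * t + α a)| ≤ C * Real.exp (2 * t)) (a : ι) :
    ∃ C' : ℝ, ∀ t ≤ 0, |rhs lam M t (w t) a| ≤ C' * Real.exp (2 * t) := by
  refine ⟨|lam| * (∑ b, |M a b| * Real.exp (α b + C) * ∑ c, |M b c| * Real.exp (α c + C) +
    ∑ b, |M a b| * Real.exp (α b + C)), fun t ht => ?_⟩
  have hE : ∀ b, Real.exp (w t b) ≤ Real.exp (α b + C) * Real.exp (2 * t) :=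
    fun b => asymp_exp n hn α w C t ht b (hw t ht b)
  have h1 : ∀ b, |∑ c, M b c * Real.exp (w t c)| ≤
      (∑ c, |M b c| * Real.exp (α c + C)) * Real.exp (2 * t) := by
    intro b
    rw [Finset.sum_mul]
    refine (Finset.abs_sum_le_sum_abs _ _).trans (Finset.sum_le_sum fun c _ => ?_)
    rw [abs_mul, abs_of_pos (Real.exp_pos _), mul_assoc]
    exact mul_le_mul_of_nonneg_left (hE c) (abs_nonneg _)
  have h2 : |∑ b, M a b * Real.exp (w t b) * ∑ c, M b c * Real.exp (w t c)| ≤
      (∑ b, |M a b| * Real.exp (α b + C) * ∑ c, |M b c| * Real.exp (α c + C)) *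
        (Real.exp (2 * t) * Real.exp (2 * t)) := by
    rw [Finset.sum_mul]
    refine (Finset.abs_sum_le_sum_abs _ _).trans (Finset.sum_le_sum fun b _ => ?_)
    rw [abs_mul, abs_mul, abs_of_pos (Real.exp_pos _)]
    have h3 : |M a b| * Real.exp (w t b) ≤ |M a b| * Real.exp (α b + C) * Real.exp (2 * t) := by
      rw [mul_assoc]
      exact mul_le_mul_of_nonneg_left (hE b) (abs_nonneg _)
    refine (mul_le_mul h3 (h1 b) (abs_nonneg _) (by positivity)).trans (le_of_eq ?_)
    ring
  unfold rhs rhsE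
  rw [abs_mul, mul_assoc]
  refine mul_le_mul_of_nonneg_left ?_ (abs_nonneg _)
  refine (abs_sub _ _).trans ?_
  rw [abs_mul, abs_of_pos (Real.exp_pos _), add_mul]
  refine add_le_add ?_ (h1 a)
  refine (mul_le_mul_of_nonneg_left h2 (Real.exp_pos _).le).trans (le_of_eq ?_)
  have h4 : Real.exp (-2 * t) * Real.exp (2 * t) = 1 := by
    rw [← Real.exp_add, show -2 * t + 2 * t = 0 by ring, Real.exp_zero]
  calc Real.exp (-2 * t) * ((∑ b, |M a b| * Real.exp (α b + C) *
        ∑ c, |M b c| * Real.exp (α c + C)) * (Real.exp (2 * t) * Real.exp (2 * t)))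
      = (Real.exp (-2 * t) * Real.exp (2 * t)) * ((∑ b, |M a b| * Real.exp (α b + C) *
        ∑ c, |M b c| * Real.exp (α c + C)) * Real.exp (2 * t)) := by ring
    _ = _ := by rw [h4, one_mul]

/-- `exp(-2t) * rhs` has a limit at `-∞` (each `exp (w t b - 2 t)` tends to `exp (α b)` if `n b = 1` and to `0` if
`n b ≥ 2`), hence so does `exp(-2t) * (w' t a - 2 n a)` (l'Hôpital, or integrate). -/
theorem deriv_limit {ι : Type} [Fintype ι] (M : Matrix ι ι ℝ) (lam : ℝ) (n : ι → ℕ) (hn : ∀ a, 1 ≤ n a)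
    (α : ι → ℝ) (w w' : ℝ → ι → ℝ) (C : ℝ)
    (h2 : ∀ t a, HasDerivAt (fun s => w' s a) (rhs lam M t (w t) a) t)
    (hw : ∀ t ≤ 0, ∀ a, |w t a - (2 * n a * t + α a)| ≤ C * Real.exp (2 * t) ∧
          |w' t a - 2 * n a| ≤ C * Real.exp (2 * t)) (a : ι) :
    ∃ l : ℝ, Tendsto (fun t => (w' t a - 2 * n a) * Real.exp (-2 * t)) atBot (𝓝 l) := by
  have hexp : Tendsto (fun t : ℝ => Real.exp (2 * t)) atBot (𝓝 0) :=
    Real.tendsto_exp_atBot.comp (tendsto_id.const_mul_atBot (by norm_num : (0 : ℝ) < 2))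
  have hCexp : Tendsto (fun t : ℝ => C * Real.exp (2 * t)) atBot (𝓝 0) := by
    have := hexp.const_mul C
    rwa [mul_zero] at this
  have hG : ∀ b, ∃ g : ℝ, Tendsto (fun t => Real.exp (w t b - 2 * t)) atBot (𝓝 g) := by
    intro b
    have hd : Tendsto (fun t => w t b - (2 * n b * t + α b)) atBot (𝓝 0) := by
      refine squeeze_zero_norm' ?_ hCexp
      filter_upwards [eventually_le_atBot 0] with t ht
      exact (hw t ht b).1
    by_cases hb : n b = 1
    · refine ⟨Real.exp (α b), ?_⟩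
      have h3 : Tendsto (fun t => (w t b - (2 * n b * t + α b)) + α b) atBot (𝓝 (α b)) := by
        have := hd.add_const (α b)
        rwa [zero_add] at this
      have h4 := (Real.continuous_exp.tendsto (α b)).comp h3
      refine h4.congr fun t => ?_
      simp only [Function.comp_apply, hb]
      congr 1
      push_cast
      ring
    · refine ⟨0, ?_⟩
      have hb2 : (2 : ℝ) ≤ n b := by
        have := hn b
        exact_mod_cast (by omega : 2 ≤ n b)
      refine Real.tendsto_exp_atBot.comp ?_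
      have h3 : Tendsto (fun t : ℝ => (2 * (n b : ℝ) - 2) * t) atBot atBot :=
        tendsto_id.const_mul_atBot (by linarith)
      have h4 : Tendsto (fun t => ((w t b - (2 * n b * t + α b)) + α b) +
          (2 * (n b : ℝ) - 2) * t) atBot atBot :=
        Tendsto.add_atBot (hd.add_const (α b)) h3
      refine h4.congr fun t => ?_
      ring
  choose g hg using hG
  have hL : Tendsto (fun t => rhs lam M t (w t) a / (2 * Real.exp (2 * t))) atBot
      (𝓝 (lam * (∑ b, M a b * g b * ∑ c, M b c * g c - ∑ b, M a b * g b) / 2)) := by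
    have h3 : Tendsto (fun t => lam * (∑ b, M a b * Real.exp (w t b - 2 * t) *
        ∑ c, M b c * Real.exp (w t c - 2 * t) - ∑ b, M a b * Real.exp (w t b - 2 * t)) / 2) atBot
        (𝓝 (lam * (∑ b, M a b * g b * ∑ c, M b c * g c - ∑ b, M a b * g b) / 2)) := by
      refine Tendsto.div_const (Tendsto.const_mul _ (Tendsto.sub ?_ ?_)) _
      · exact tendsto_finsetSum _ fun b _ => ((hg b).const_mul _).mul
          (tendsto_finsetSum _ fun c _ => (hg c).const_mul _)
      · exact tendsto_finsetSum _ fun b _ => (hg b).const_mul _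
    refine h3.congr fun t => ?_
    have hE : ∀ b, Real.exp (w t b - 2 * t) = Real.exp (w t b) * Real.exp (-2 * t) := by
      intro b
      rw [← Real.exp_add]
      congr 1
      ring
    have hinv : Real.exp (2 * t) = (Real.exp (-2 * t))⁻¹ := by
      rw [← Real.exp_neg]
      congr 1
      ring
    have hp := Real.exp_pos (-2 * t)
    unfold rhs rhsE
    rw [hinv]
    set X := Real.exp (-2 * t) with hX
    have s1 : ∑ b, M a b * Real.exp (w t b - 2 * t) * ∑ c, M b c * Real.exp (w t c - 2 * t) =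
        (∑ b, M a b * Real.exp (w t b) * ∑ c, M b c * Real.exp (w t c)) * X ^ 2 := by
      rw [Finset.sum_mul]
      refine Finset.sum_congr rfl fun b _ => ?_
      have : ∑ c, M b c * Real.exp (w t c - 2 * t) = (∑ c, M b c * Real.exp (w t c)) * X := by
        rw [Finset.sum_mul]
        exact Finset.sum_congr rfl fun c _ => by rw [hE]; ring
      rw [this, hE]
      ring
    have s2 : ∑ b, M a b * Real.exp (w t b - 2 * t) = (∑ b, M a b * Real.exp (w t b)) * X := by
      rw [Finset.sum_mul]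
      exact Finset.sum_congr rfl fun b _ => by rw [hE]; ring
    rw [s1, s2]
    field_simp
  have hN : Tendsto (fun t => w' t a - 2 * n a) atBot (𝓝 0) := by
    refine squeeze_zero_norm' ?_ hCexp
    filter_upwards [eventually_le_atBot 0] with t ht
    exact (hw t ht a).2
  have hf : ∀ t, HasDerivAt (fun s => w' s a - 2 * n a) (rhs lam M t (w t) a) t :=
    fun t => (h2 t a).sub_const _
  have hgd : ∀ t : ℝ, HasDerivAt (fun s => Real.exp (2 * s)) (2 * Real.exp (2 * t)) t := by
    intro t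
    have := ((hasDerivAt_id t).const_mul (2 : ℝ)).exp
    simp only [id, mul_one] at this
    rwa [mul_comm] at this
  have hfin := HasDerivAt.lhopital_zero_atBot (Eventually.of_forall hf)
    (Eventually.of_forall hgd) (Eventually.of_forall fun t => by positivity) hN hexp hL
  refine ⟨_, hfin.congr fun t => ?_⟩
  rw [div_eq_mul_inv, ← Real.exp_neg]
  congr 2
  ring

end Pool.Agent.MPad5d82
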