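import Pool.Agent.Lib.MP_ad5d82_an.h24.Rad.Defs

set_option autoImplicit false

namespace Pool.Agent.MPad5d82

open MeasureTheory Set Filter Topology

/-- The cap for `t ≤ T`. -/
private theorem kap_le_aux {ι : Type} (n : ι → ℕ) (hn : ∀ a, 1 ≤ n a) (α : ι → ℝ) (m V T η : ℝ)
    (hα : ∀ a, 2 * n a * T + α a ≤ Real.log η) (t : ℝ) (ht : t ≤ T) (a : ι) :
    kap n α m V T t a ≤ 1 + Real.log η + 2 * (t - T) := by
  unfold kap
  refine (min_le_right _ _).trans ?_
  rw [max_eq_right (by linarith)]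
  have h1 : (1 : ℝ) ≤ n a := by exact_mod_cast hn a
  have h2 : (n a : ℝ) * (t - T) ≤ 1 * (t - T) :=
    mul_le_mul_of_nonpos_right h1 (by linarith)
  have h3 := hα a
  nlinarith

/-- `exp κ ≤ e^m gw` for the cap `κ`.  For `t ≤ T`: `κ ≤ 2 n t + α + 1 = (2 n T + α) + 1 + 2 n (t - T) ≤ 1 + 2 (t-T)`
(since `log η ≤ 0`, `n ≥ 1`, `t ≤ T`) and `1 ≤ m`; for `t ≥ T`: `κ ≤ m` and `gw = 1`. -/
theorem exp_kap_le {ι : Type} (n : ι → ℕ) (hn : ∀ a, 1 ≤ n a) (α : ι → ℝ) (m V T η : ℝ)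
    (hm : 1 ≤ m) (hη0 : 0 < η) (hη1 : η ≤ 1)
    (hα : ∀ a, 2 * n a * T + α a ≤ Real.log η) (t : ℝ) (a : ι) :
    Real.exp (kap n α m V T t a) ≤ Real.exp m * gw T t := by
  unfold gw
  rcases le_total t T with h | h
  · have h1 := kap_le_aux n hn α m V T η hα t h a
    have h2 : Real.log η ≤ 0 := Real.log_nonpos hη0.le hη1
    rw [min_eq_right (by rw [Real.exp_le_one_iff]; linarith), ← Real.exp_add]
    exact Real.exp_le_exp.2 (by linarith)
  · rw [min_eq_left (Real.one_le_exp (by linarith)), mul_one]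
    exact Real.exp_le_exp.2 (min_le_left _ _)

/-- For `t ≤ T` the sharper bound `exp κ ≤ e η exp(2(t-T))`. -/
theorem exp_kap_le' {ι : Type} (n : ι → ℕ) (hn : ∀ a, 1 ≤ n a) (α : ι → ℝ) (m V T η : ℝ)
    (hη0 : 0 < η)
    (hα : ∀ a, 2 * n a * T + α a ≤ Real.log η) (t : ℝ) (ht : t ≤ T) (a : ι) :
    Real.exp (kap n α m V T t a) ≤ Real.exp 1 * η * Real.exp (2 * (t - T)) := by
  have h1 := kap_le_aux n hn α m V T η hα t ht a
  refine (Real.exp_le_exp.2 h1).trans (le_of_eq ?_)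
  rw [Real.exp_add, Real.exp_add, Real.exp_log hη0]

section sums
variable {ι : Type} [Fintype ι]

private theorem row_le (M : Matrix ι ι ℝ) (a : ι) : ∑ b, |M a b| ≤ absSum M := by
  unfold absSum
  exact Finset.single_le_sum (f := fun a => ∑ b, |M a b|)
    (fun i _ => Finset.sum_nonneg fun j _ => abs_nonneg _) (Finset.mem_univ a)

private theorem absSum_nonneg (M : Matrix ι ι ℝ) : 0 ≤ absSum M :=
  Finset.sum_nonneg fun _ _ => Finset.sum_nonneg fun _ _ => abs_nonneg _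

private theorem lin_le (M : Matrix ι ι ℝ) (B : ℝ) (hB : 0 ≤ B) (e : ι → ℝ)
    (he : ∀ b, |e b| ≤ B) (a : ι) : |∑ b, M a b * e b| ≤ absSum M * B := by
  calc |∑ b, M a b * e b| ≤ ∑ b, |M a b * e b| := Finset.abs_sum_le_sum_abs _ _
    _ ≤ ∑ b, |M a b| * B := Finset.sum_le_sum fun b _ => by
        rw [abs_mul]
        exact mul_le_mul_of_nonneg_left (he b) (abs_nonneg _)
    _ = (∑ b, |M a b|) * B := by rw [Finset.sum_mul]
    _ ≤ absSum M * B := mul_le_mul_of_nonneg_right (row_le M a) hB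

end sums

/-- `e ↦ rhsE` bound: if `0 ≤ e b ≤ B` for all `b` then
`|rhsE lam M t e a| ≤ lam * (exp (-2t) * μ² B² + μ B)` with `μ = absSum M`. -/
theorem rhsE_bound {ι : Type} [Fintype ι] (lam : ℝ) (hlam : 0 < lam) (M : Matrix ι ι ℝ) (t B : ℝ)
    (e : ι → ℝ) (he : ∀ b, 0 ≤ e b) (heB : ∀ b, e b ≤ B) (a : ι) :
    |rhsE lam M t e a| ≤ lam * (Real.exp (-2 * t) * (absSum M ^ 2 * B ^ 2) + absSum M * B) := by
  have hB : 0 ≤ B := (he a).trans (heB a)
  have habs : ∀ b, |e b| ≤ B := fun b => by rw [abs_of_nonneg (he b)]; exact heB b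
  have h1 := lin_le M B hB e habs
  have h2 : |∑ b, M a b * e b * ∑ c, M b c * e c| ≤ absSum M ^ 2 * B ^ 2 := by
    have h3 : ∀ b, |e b * ∑ c, M b c * e c| ≤ B * (absSum M * B) := fun b => by
      rw [abs_mul]
      exact mul_le_mul (habs b) (h1 b) (abs_nonneg _) hB
    have h4 := lin_le M (B * (absSum M * B))
      (mul_nonneg hB (mul_nonneg (absSum_nonneg M) hB)) (fun b => e b * ∑ c, M b c * e c) h3 a
    calc |∑ b, M a b * e b * ∑ c, M b c * e c|
        = |∑ b, M a b * (e b * ∑ c, M b c * e c)| := by simp only [mul_assoc]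
      _ ≤ _ := h4
      _ = absSum M ^ 2 * B ^ 2 := by ring
  unfold rhsE
  rw [abs_mul, abs_of_pos hlam]
  refine mul_le_mul_of_nonneg_left ?_ hlam.le
  refine (abs_sub _ _).trans ?_
  rw [abs_mul, abs_of_pos (Real.exp_pos _)]
  exact add_le_add (mul_le_mul_of_nonneg_left h2 (Real.exp_pos _).le) (h1 a)

/-- Lipschitz bound for `rhsE`: if `0 ≤ e b, e' b ≤ B` and `|e b - e' b| ≤ δ` for all `b` then
`|rhsE e a - rhsE e' a| ≤ lam * (exp (-2t) * 2 μ² B δ + μ δ)`. -/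
theorem rhsE_lip {ι : Type} [Fintype ι] (lam : ℝ) (hlam : 0 < lam) (M : Matrix ι ι ℝ) (t B δ : ℝ)
    (e e' : ι → ℝ) (he : ∀ b, 0 ≤ e b) (heB : ∀ b, e b ≤ B) (he' : ∀ b, 0 ≤ e' b) (heB' : ∀ b, e' b ≤ B)
    (hd : ∀ b, |e b - e' b| ≤ δ) (a : ι) :
    |rhsE lam M t e a - rhsE lam M t e' a| ≤
      lam * (Real.exp (-2 * t) * (2 * absSum M ^ 2 * B * δ) + absSum M * δ) := by
  have hB : 0 ≤ B := (he a).trans (heB a)
  have hδ : 0 ≤ δ := (abs_nonneg _).trans (hd a)
  have habs : ∀ b, |e b| ≤ B := fun b => by rw [abs_of_nonneg (he b)]; exact heB b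
  have habs' : ∀ b, |e' b| ≤ B := fun b => by rw [abs_of_nonneg (he' b)]; exact heB' b
  have h1 := lin_le M B hB e habs
  have h2 : ∀ b, |∑ c, M b c * e c - ∑ c, M b c * e' c| ≤ absSum M * δ := fun b => by
    rw [← Finset.sum_sub_distrib]
    have := lin_le M δ hδ (fun c => e c - e' c) hd b
    calc |∑ c, (M b c * e c - M b c * e' c)| = |∑ c, M b c * (e c - e' c)| := by
          simp only [mul_sub]
      _ ≤ _ := this
  have h3 : |(∑ b, M a b * e b * ∑ c, M b c * e c) - ∑ b, M a b * e' b * ∑ c, M b c * e' c| ≤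
      2 * absSum M ^ 2 * B * δ := by
    rw [← Finset.sum_sub_distrib]
    have h5 : ∀ b, |e b * (∑ c, M b c * e c) - e' b * ∑ c, M b c * e' c| ≤
        δ * (absSum M * B) + B * (absSum M * δ) := fun b => by
      have h6 : e b * (∑ c, M b c * e c) - e' b * ∑ c, M b c * e' c =
          (e b - e' b) * (∑ c, M b c * e c) +
            e' b * (∑ c, M b c * e c - ∑ c, M b c * e' c) := by ring
      rw [h6]
      refine (abs_add_le _ _).trans ?_
      rw [abs_mul, abs_mul]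
      exact add_le_add (mul_le_mul (hd b) (h1 b) (abs_nonneg _) hδ)
        (mul_le_mul (habs' b) (h2 b) (abs_nonneg _) hB)
    have hμ := absSum_nonneg M
    have h7 := lin_le M (δ * (absSum M * B) + B * (absSum M * δ)) (by positivity)
      (fun b => e b * (∑ c, M b c * e c) - e' b * ∑ c, M b c * e' c) h5 a
    calc |∑ b, (M a b * e b * (∑ c, M b c * e c) - M a b * e' b * ∑ c, M b c * e' c)|
        = |∑ b, M a b * (e b * (∑ c, M b c * e c) - e' b * ∑ c, M b c * e' c)| := by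
          simp only [mul_sub, mul_assoc]
      _ ≤ _ := h7
      _ = 2 * absSum M ^ 2 * B * δ := by ring
  have h8 : rhsE lam M t e a - rhsE lam M t e' a =
      lam * (Real.exp (-2 * t) * ((∑ b, M a b * e b * ∑ c, M b c * e c) -
        ∑ b, M a b * e' b * ∑ c, M b c * e' c) -
          (∑ b, M a b * e b - ∑ b, M a b * e' b)) := by
    unfold rhsE
    ring
  rw [h8, abs_mul, abs_of_pos hlam]
  refine mul_le_mul_of_nonneg_left ?_ hlam.le
  refine (abs_sub _ _).trans ?_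
  rw [abs_mul, abs_of_pos (Real.exp_pos _)]
  exact add_le_add (mul_le_mul_of_nonneg_left h3 (Real.exp_pos _).le) (h2 a)

end Pool.Agent.MPad5d82
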