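import Pool.Agent.Lib.MP_ad5d82_an.h24.Rad.Defs

set_option autoImplicit false

namespace Pool.Agent.MPad5d82

open MeasureTheory Set Filter Topology

theorem vd_integrable_exp (a T t : ℝ) (ha : 0 < a) :
    IntegrableOn (fun s : ℝ => Real.exp (a * (s - T))) (Iic t) := by
  have h : IntegrableOn (fun s : ℝ => Real.exp (a * s) * Real.exp (-(a * T))) (Iic t) :=
    Integrable.mul_const (integrableOn_exp_mul_Iic ha t) (Real.exp (-(a * T)))
  refine (integrableOn_congr_fun (fun s _ => ?_) measurableSet_Iic).mp h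
  simp only [← Real.exp_add]
  congr 1
  ring

theorem vd_integral_exp (T t : ℝ) :
    ∫ s in Iic t, Real.exp (2 * (s - T)) = Real.exp (2 * (t - T)) / 2 := by
  have h1 : ∀ s : ℝ, Real.exp (2 * (s - T)) = Real.exp (2 * s) * Real.exp (-(2 * T)) := by
    intro s; rw [← Real.exp_add]; congr 1; ring
  simp_rw [h1]
  rw [integral_mul_const, integral_exp_mul_Iic (by norm_num : (0:ℝ) < 2)]
  ring

theorem vd_abs_mul_exp_le (T s : ℝ) :
    |s| * Real.exp (2 * (s - T)) ≤
      (Real.exp (2 * T))⁻¹ * (Real.exp (3 * (s - 0)) + Real.exp (1 * (s - 0))) := by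
  have h1 : |s| ≤ Real.exp s + Real.exp (-s) := by
    rcases le_total 0 s with h | h
    · rw [abs_of_nonneg h]
      have := Real.add_one_le_exp s
      have := Real.exp_pos (-s)
      linarith
    · rw [abs_of_nonpos h]
      have := Real.add_one_le_exp (-s)
      have := Real.exp_pos s
      linarith
  have h2 : Real.exp (2 * (s - T)) = (Real.exp (2 * T))⁻¹ * Real.exp (2 * s) := by
    rw [← Real.exp_neg, ← Real.exp_add]; congr 1; ring
  rw [h2]
  have h3 : (Real.exp s + Real.exp (-s)) * Real.exp (2 * s) =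
      Real.exp (3 * (s - 0)) + Real.exp (1 * (s - 0)) := by
    rw [add_mul, ← Real.exp_add, ← Real.exp_add]
    congr 2 <;> ring
  rw [← h3]
  have h4 := mul_le_mul_of_nonneg_right h1 (Real.exp_pos (2 * s)).le
  have h5 : 0 ≤ (Real.exp (2 * T))⁻¹ := inv_nonneg.mpr (Real.exp_pos _).le
  calc |s| * ((Real.exp (2 * T))⁻¹ * Real.exp (2 * s))
      = (Real.exp (2 * T))⁻¹ * (|s| * Real.exp (2 * s)) := by ring
    _ ≤ _ := mul_le_mul_of_nonneg_left h4 h5

theorem vd_tendsto (T t : ℝ) :
    Tendsto (fun s : ℝ => ((t - s) / 2 + 1 / 4) * Real.exp (2 * (s - T))) atBot (𝓝 0) := by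
  have h1 : Tendsto (fun x : ℝ => x ^ 1 * Real.exp (-x)) atTop (𝓝 0) :=
    Real.tendsto_pow_mul_exp_neg_atTop_nhds_zero 1
  have h0 : Tendsto (fun x : ℝ => Real.exp (-x)) atTop (𝓝 0) :=
    Real.tendsto_exp_neg_atTop_nhds_zero
  -- substitute x = -2 s
  have h2 : Tendsto (fun s : ℝ => -(2 * s)) atBot atTop := by
    have : Tendsto (fun s : ℝ => 2 * s) atBot atBot := tendsto_id.const_mul_atBot (by norm_num)
    exact tendsto_neg_atBot_atTop.comp this
  have h3 := (h1.comp h2).const_mul (Real.exp (-(2 * T)) / 4)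
  have h4 := (h0.comp h2).const_mul (Real.exp (-(2 * T)) * (t / 2 + 1 / 4))
  have h5 := h3.add h4
  simp only [mul_zero, add_zero] at h5
  refine h5.congr (fun s => ?_)
  simp only [Function.comp, pow_one, neg_neg]
  have h6 : Real.exp (2 * (s - T)) = Real.exp (-(2 * T)) * Real.exp (2 * s) := by
    rw [← Real.exp_add]; congr 1; ring
  rw [h6]
  ring

theorem vd_integrable_lin (T t : ℝ) :
    IntegrableOn (fun s : ℝ => (t - s) * Real.exp (2 * (s - T))) (Iic t) := by
  have h1 : IntegrableOn (fun s : ℝ => (Real.exp (2 * T))⁻¹ *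
      (Real.exp (3 * (s - 0)) + Real.exp (1 * (s - 0)))) (Iic t) :=
    ((vd_integrable_exp 3 0 t (by norm_num)).add (vd_integrable_exp 1 0 t (by norm_num))).const_mul _
  have h2 : IntegrableOn (fun s : ℝ => s * Real.exp (2 * (s - T))) (Iic t) := by
    refine Integrable.mono' h1 ?_ ?_
    · exact (by fun_prop : Continuous fun s : ℝ => s * Real.exp (2 * (s - T))).aestronglyMeasurable
    · refine Eventually.of_forall (fun s => ?_)
      rw [norm_mul, Real.norm_eq_abs, Real.norm_eq_abs, abs_of_pos (Real.exp_pos _)]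
      exact vd_abs_mul_exp_le T s
  have h3 : IntegrableOn (fun s : ℝ => t * Real.exp (2 * (s - T)) - s * Real.exp (2 * (s - T)))
      (Iic t) := Integrable.sub (Integrable.const_mul (vd_integrable_exp 2 T t (by norm_num)) t) h2
  refine (integrableOn_congr_fun (fun s _ => ?_) measurableSet_Iic).mp h3
  ring

theorem vd_integral_lin (T t : ℝ) :
    ∫ s in Iic t, (t - s) * Real.exp (2 * (s - T)) = Real.exp (2 * (t - T)) / 4 := by
  rw [integral_Iic_of_hasDerivAt_of_tendsto'
    (f := fun s : ℝ => ((t - s) / 2 + 1 / 4) * Real.exp (2 * (s - T))) (m := 0)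
    ?_ (vd_integrable_lin T t) (vd_tendsto T t)]
  · ring
  · intro s _
    have h1 : HasDerivAt (fun s : ℝ => (t - s) / 2 + 1 / 4) (-1 / 2) s := by
      have := (((hasDerivAt_id s).const_sub t).div_const 2).add_const (1 / 4)
      simpa using this
    have h2 : HasDerivAt (fun s : ℝ => Real.exp (2 * (s - T)))
        (Real.exp (2 * (s - T)) * (2 * 1)) s := by
      exact (((hasDerivAt_id s).sub_const T).const_mul 2).exp
    refine (h1.mul h2).congr_deriv ?_
    ring

/-- If `f` is continuous with `‖f t‖ ≤ L gw t` and `z t = ∫_{-∞}^t (t-s) f(s) ds`, then `z` is twice differentiable,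
`z'' = f`, and `z`, `z'` inherit exponential bounds near `-∞`.

Proof.  `z' t := ∫ s in Iic t, f s`.  Integrability on `Iic t` from `gw s ≤ exp(2(s-T))`; write
`∫ Iic t (t-s) f = t • ∫ Iic t f - ∫ Iic t s • f s` and differentiate both terms
(`∫ Iic t = ∫ Iic 0 + ∫ 0..t`, fundamental theorem of calculus).  Bounds: `∫_{-∞}^t exp(2(s-T)) ds = exp(2(t-T))/2`,
`∫_{-∞}^t (t-s) exp(2(s-T)) ds = exp(2(t-T))/4`. -/
theorem volterra_deriv {ι : Type} [Fintype ι] (f : ℝ → (ι → ℝ)) (hf : Continuous f)
    (T L : ℝ) (hb : ∀ t, ‖f t‖ ≤ L * gw T t)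
    (z : ℝ → (ι → ℝ)) (hz : ∀ t, z t = ∫ s in Iic t, (t - s) • f s) :
    ∃ z' : ℝ → (ι → ℝ), (∀ t, HasDerivAt z (z' t) t) ∧ (∀ t, HasDerivAt z' (f t) t) ∧
      ∀ c K : ℝ, (∀ s ≤ c, ‖f s‖ ≤ K * Real.exp (2 * (s - T))) →
        ∀ t ≤ c, ‖z' t‖ ≤ K / 2 * Real.exp (2 * (t - T)) ∧ ‖z t‖ ≤ K / 4 * Real.exp (2 * (t - T)) := by
  have hgpos : ∀ t, 0 < gw T t := fun t => lt_min one_pos (Real.exp_pos _)
  have hL : 0 ≤ L := by
    have h := (norm_nonneg (f 0)).trans (hb 0)
    exact nonneg_of_mul_nonneg_left h (hgpos 0)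
  have hb' : ∀ t, ‖f t‖ ≤ L * Real.exp (2 * (t - T)) := fun t =>
    (hb t).trans (mul_le_mul_of_nonneg_left (min_le_right _ _) hL)
  have hint : ∀ t, IntegrableOn f (Iic t) := by
    intro t
    refine Integrable.mono' ((vd_integrable_exp 2 T t (by norm_num)).const_mul L)
      hf.aestronglyMeasurable (Eventually.of_forall (fun s => hb' s))
  have hcs : Continuous (fun s : ℝ => s • f s) := continuous_id.smul hf
  have hint' : ∀ t, IntegrableOn (fun s => s • f s) (Iic t) := by
    intro t
    have h1 : IntegrableOn (fun s : ℝ => L * ((Real.exp (2 * T))⁻¹ *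
        (Real.exp (3 * (s - 0)) + Real.exp (1 * (s - 0))))) (Iic t) :=
      (((vd_integrable_exp 3 0 t (by norm_num)).add
        (vd_integrable_exp 1 0 t (by norm_num))).const_mul _).const_mul L
    refine Integrable.mono' h1 hcs.aestronglyMeasurable (Eventually.of_forall (fun s => ?_))
    rw [norm_smul, Real.norm_eq_abs]
    calc |s| * ‖f s‖ ≤ |s| * (L * Real.exp (2 * (s - T))) :=
          mul_le_mul_of_nonneg_left (hb' s) (abs_nonneg s)
      _ = L * (|s| * Real.exp (2 * (s - T))) := by ring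
      _ ≤ _ := mul_le_mul_of_nonneg_left (vd_abs_mul_exp_le T s) hL
  have key : ∀ (g : ℝ → (ι → ℝ)), Continuous g → (∀ t, IntegrableOn g (Iic t)) →
      ∀ t, HasDerivAt (fun t => ∫ s in Iic t, g s) (g t) t := by
    intro g hg hgi t
    have h1 : (fun t => ∫ s in Iic t, g s) =
        fun t => (∫ s in (0:ℝ)..t, g s) + ∫ s in Iic (0:ℝ), g s := by
      funext t
      rw [← intervalIntegral.integral_Iic_sub_Iic (hgi 0) (hgi t), sub_add_cancel]
    rw [h1]
    exact (intervalIntegral.integral_hasDerivAt_right (hg.intervalIntegrable _ _)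
      hg.aestronglyMeasurable.stronglyMeasurableAtFilter hg.continuousAt).add_const _
  have hz1 : z = fun t => t • (∫ s in Iic t, f s) - ∫ s in Iic t, s • f s := by
    funext t
    rw [hz t]
    have h1 : (fun s : ℝ => (t - s) • f s) = fun s => t • f s - s • f s := by
      funext s; rw [sub_smul]
    have h2 : IntegrableOn (fun s : ℝ => t • f s) (Iic t) := Integrable.smul t (hint t)
    rw [h1, integral_sub h2 (hint' t), integral_smul]
  refine ⟨fun t => ∫ s in Iic t, f s, ?_, key f hf hint, ?_⟩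
  · intro t
    rw [hz1]
    have h1 := ((hasDerivAt_id t).smul (key f hf hint t)).sub (key _ hcs hint' t)
    refine h1.congr_deriv ?_
    simp
  · intro c K hK t ht
    constructor
    · have h1 : ‖∫ s in Iic t, f s‖ ≤ ∫ s in Iic t, K * Real.exp (2 * (s - T)) := by
        refine norm_integral_le_of_norm_le ((vd_integrable_exp 2 T t (by norm_num)).const_mul K) ?_
        refine (ae_restrict_iff' measurableSet_Iic).mpr (Eventually.of_forall (fun s hs => ?_))
        exact hK s (le_trans hs ht)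
      rw [integral_const_mul, vd_integral_exp] at h1
      calc ‖∫ s in Iic t, f s‖ ≤ _ := h1
        _ = _ := by ring
    · have h1 : ‖∫ s in Iic t, (t - s) • f s‖ ≤
          ∫ s in Iic t, K * ((t - s) * Real.exp (2 * (s - T))) := by
        refine norm_integral_le_of_norm_le ((vd_integrable_lin T t).const_mul K) ?_
        refine (ae_restrict_iff' measurableSet_Iic).mpr (Eventually.of_forall (fun s hs => ?_))
        have hs' : 0 ≤ t - s := sub_nonneg.mpr hs
        rw [norm_smul, Real.norm_eq_abs, abs_of_nonneg hs']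
        calc (t - s) * ‖f s‖ ≤ (t - s) * (K * Real.exp (2 * (s - T))) :=
              mul_le_mul_of_nonneg_left (hK s (le_trans hs ht)) hs'
          _ = _ := by ring
      rw [integral_const_mul, vd_integral_lin, ← hz t] at h1
      calc ‖z t‖ ≤ _ := h1
        _ = _ := by ring

end Pool.Agent.MPad5d82
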