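import Pool.Agent.Lib.MP_ad5d82_an.h24.Rad.Defs

set_option autoImplicit false

namespace Pool.Agent.MPad5d82

open MeasureTheory Set Filter Topology

lemma volterra_maj_integrable (c a t : ℝ) (hc : 0 < c) :
    IntegrableOn (fun s => 2 / c * Real.exp (c / 2 * t - c * a) * Real.exp (c / 2 * s)) (Iic t) :=
  (integrableOn_exp_mul_Iic (half_pos hc) t).const_mul _

lemma volterra_maj_integral (c a t : ℝ) (hc : 0 < c) :
    ∫ s in Iic t, 2 / c * Real.exp (c / 2 * t - c * a) * Real.exp (c / 2 * s) =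
      4 / c ^ 2 * Real.exp (c * (t - a)) := by
  rw [integral_const_mul, integral_exp_mul_Iic (half_pos hc) t]
  have h : Real.exp (c * (t - a)) = Real.exp (c / 2 * t - c * a) * Real.exp (c / 2 * t) := by
    rw [← Real.exp_add]
    congr 1
    ring
  rw [h]
  field_simp
  ring

lemma volterra_maj_le (c a t s : ℝ) (hc : 0 < c) :
    (t - s) * Real.exp (c * (s - a)) ≤
      2 / c * Real.exp (c / 2 * t - c * a) * Real.exp (c / 2 * s) := by
  have h1 : c / 2 * (t - s) ≤ Real.exp (c / 2 * (t - s)) := by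
    have := Real.add_one_le_exp (c / 2 * (t - s))
    linarith
  have h2 : t - s ≤ 2 / c * Real.exp (c / 2 * (t - s)) := by
    calc t - s = 2 / c * (c / 2 * (t - s)) := by field_simp
      _ ≤ _ := mul_le_mul_of_nonneg_left h1 (by positivity)
  calc (t - s) * Real.exp (c * (s - a))
      ≤ 2 / c * Real.exp (c / 2 * (t - s)) * Real.exp (c * (s - a)) :=
        mul_le_mul_of_nonneg_right h2 (Real.exp_pos _).le
    _ = 2 / c * Real.exp (c / 2 * t - c * a) * Real.exp (c / 2 * s) := by
        rw [mul_assoc, mul_assoc, ← Real.exp_add, ← Real.exp_add]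
        congr 2
        ring

section cont

variable {E : Type*} [NormedAddCommGroup E] [NormedSpace ℝ E]

lemma volterra_int (g : ℝ → E) (hg : Continuous g) (T L : ℝ)
    (hb : ∀ s, ‖g s‖ ≤ L * Real.exp (2 * (s - T))) (t : ℝ) :
    IntegrableOn (fun s => (t - s) • g s) (Iic t) := by
  have h := (volterra_maj_integrable 2 T t two_pos).const_mul L
  refine Integrable.mono' h ?_ ?_
  · exact ((continuous_const.sub continuous_id).smul hg).aestronglyMeasurable
  · refine (ae_restrict_iff' measurableSet_Iic).2 (Eventually.of_forall fun s hs => ?_)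
    have hs' : 0 ≤ t - s := sub_nonneg.2 hs
    have hL : 0 ≤ L := by
      have h1 := (norm_nonneg _).trans (hb s)
      exact nonneg_of_mul_nonneg_left h1 (Real.exp_pos _)
    rw [norm_smul, Real.norm_eq_abs, abs_of_nonneg hs']
    calc (t - s) * ‖g s‖ ≤ (t - s) * (L * Real.exp (2 * (s - T))) :=
          mul_le_mul_of_nonneg_left (hb s) hs'
      _ = L * ((t - s) * Real.exp (2 * (s - T))) := by ring
      _ ≤ _ := mul_le_mul_of_nonneg_left (volterra_maj_le 2 T t s two_pos) hL

omit [NormedSpace ℝ E] in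
lemma volterra_int0 (g : ℝ → E) (hg : Continuous g) (T L : ℝ)
    (hb : ∀ s, ‖g s‖ ≤ L * Real.exp (2 * (s - T))) (t : ℝ) :
    IntegrableOn g (Iic t) := by
  have h := ((integrableOn_exp_mul_Iic two_pos t).const_mul (L * Real.exp (-2 * T)))
  refine Integrable.mono' h hg.aestronglyMeasurable ?_
  refine Eventually.of_forall fun s => ?_
  refine (hb s).trans (le_of_eq ?_)
  rw [mul_assoc, ← Real.exp_add]
  congr 2
  ring

lemma volterra_cont_Iic (h : ℝ → E) (hc : Continuous h) (hi : ∀ t, IntegrableOn h (Iic t)) :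
    Continuous fun t => ∫ s in Iic t, h s := by
  have e : (fun t => ∫ s in Iic t, h s) =
      fun t => (∫ s in Iic (0 : ℝ), h s) + ∫ s in (0 : ℝ)..t, h s := by
    funext t
    rw [← intervalIntegral.integral_Iic_sub_Iic (hi 0) (hi t)]
    abel
  rw [e]
  exact continuous_const.add
    (intervalIntegral.continuous_primitive (fun a b => hc.intervalIntegrable a b) 0)

lemma volterra_cont (g : ℝ → E) (hg : Continuous g) (T L : ℝ)
    (hb : ∀ s, ‖g s‖ ≤ L * Real.exp (2 * (s - T))) :
    Continuous fun t => ∫ s in Iic t, (t - s) • g s := by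
  have i0 := volterra_int0 g hg T L hb
  have i1 : ∀ t, IntegrableOn (fun s => s • g s) (Iic t) := fun t => by
    have h := ((i0 t).smul t).sub (volterra_int g hg T L hb t)
    refine h.congr (Eventually.of_forall fun s => ?_)
    simp only [Pi.sub_apply, Pi.smul_apply, sub_smul]
    abel
  have e : (fun t => ∫ s in Iic t, (t - s) • g s) =
      fun t => t • (∫ s in Iic t, g s) - ∫ s in Iic t, s • g s := by
    funext t
    have i2 : IntegrableOn (fun s => t • g s) (Iic t) := (i0 t).smul t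
    rw [← integral_smul, ← integral_sub i2 (i1 t)]
    congr 1
    funext s
    rw [sub_smul]
  rw [e]
  exact (continuous_id.smul (volterra_cont_Iic g hg i0)).sub
    (volterra_cont_Iic _ (continuous_id.smul hg) i1)

end cont

/-- The bound for the size of the operator. -/
lemma volterra_bd {E : Type*} [NormedAddCommGroup E] [NormedSpace ℝ E] (g : ℝ → E)
    (T L : ℝ) (hL : 0 ≤ L) (hb : ∀ s, ‖g s‖ ≤ L * Real.exp (2 * (s - T))) (t : ℝ) :
    ‖∫ s in Iic t, (t - s) • g s‖ ≤ L * Real.exp (2 * (t - T)) := by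
  have h1 : ‖∫ s in Iic t, (t - s) • g s‖ ≤
      ∫ s in Iic t, L * (2 / 2 * Real.exp (2 / 2 * t - 2 * T) * Real.exp (2 / 2 * s)) := by
    refine norm_integral_le_of_norm_le ((volterra_maj_integrable 2 T t two_pos).const_mul L) ?_
    refine (ae_restrict_iff' measurableSet_Iic).2 (Eventually.of_forall fun s hs => ?_)
    have hs' : 0 ≤ t - s := sub_nonneg.2 hs
    rw [norm_smul, Real.norm_eq_abs, abs_of_nonneg hs']
    calc (t - s) * ‖g s‖ ≤ (t - s) * (L * Real.exp (2 * (s - T))) :=
          mul_le_mul_of_nonneg_left (hb s) hs'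
      _ = L * ((t - s) * Real.exp (2 * (s - T))) := by ring
      _ ≤ _ := mul_le_mul_of_nonneg_left (volterra_maj_le 2 T t s two_pos) hL
  rw [integral_const_mul L, volterra_maj_integral 2 T t two_pos] at h1
  refine h1.trans (le_of_eq ?_)
  norm_num

/-- The bound for the differences. -/
lemma volterra_bd2 {E : Type*} [NormedAddCommGroup E] [NormedSpace ℝ E] (g g' : ℝ → E)
    (T T' lam L K : ℝ) (hlam0 : 0 < lam) (hL : 0 ≤ L)
    (hg : Continuous g) (hg' : Continuous g')
    (hb : ∀ s, ‖g s‖ ≤ K * Real.exp (2 * (s - T)))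
    (hb' : ∀ s, ‖g' s‖ ≤ K * Real.exp (2 * (s - T)))
    (h : ∀ s, ‖g s - g' s‖ ≤ L * (Real.exp (2 * (s - T)) + Real.exp (lam * (s - T')))) (t : ℝ) :
    ‖(∫ s in Iic t, (t - s) • g s) - ∫ s in Iic t, (t - s) • g' s‖ ≤
      L * Real.exp (2 * (t - T)) + L * (4 / lam ^ 2 * Real.exp (lam * (t - T'))) := by
  have hi := volterra_int g hg T K hb t
  have hi' := volterra_int g' hg' T K hb' t
  rw [← integral_sub hi hi']
  have h1 : ‖∫ s in Iic t, ((t - s) • g s - (t - s) • g' s)‖ ≤
      ∫ s in Iic t, (L *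
        (2 / 2 * Real.exp (2 / 2 * t - 2 * T) * Real.exp (2 / 2 * s)) + L *
        (2 / lam * Real.exp (lam / 2 * t - lam * T') * Real.exp (lam / 2 * s))) := by
    refine norm_integral_le_of_norm_le
      (((volterra_maj_integrable 2 T t two_pos).const_mul _).add
        ((volterra_maj_integrable lam T' t hlam0).const_mul _)) ?_
    refine (ae_restrict_iff' measurableSet_Iic).2 (Eventually.of_forall fun s hs => ?_)
    have hs' : 0 ≤ t - s := sub_nonneg.2 hs
    rw [← smul_sub, norm_smul, Real.norm_eq_abs, abs_of_nonneg hs']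
    calc (t - s) * ‖g s - g' s‖
        ≤ (t - s) * (L * (Real.exp (2 * (s - T)) + Real.exp (lam * (s - T')))) :=
          mul_le_mul_of_nonneg_left (h s) hs'
      _ = L * ((t - s) * Real.exp (2 * (s - T))) +
          L * ((t - s) * Real.exp (lam * (s - T'))) := by ring
      _ ≤ _ := add_le_add
          (mul_le_mul_of_nonneg_left (volterra_maj_le 2 T t s two_pos) hL)
          (mul_le_mul_of_nonneg_left (volterra_maj_le lam T' t s hlam0) hL)
  rw [integral_add ((volterra_maj_integrable 2 T t two_pos).const_mul _)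
    ((volterra_maj_integrable lam T' t hlam0).const_mul _), integral_const_mul L,
    integral_const_mul L, volterra_maj_integral 2 T t two_pos,
    volterra_maj_integral lam T' t hlam0] at h1
  refine h1.trans (le_of_eq ?_)
  norm_num

/-- The contraction. -/
lemma volterra_fix {E : Type*} [NormedAddCommGroup E] [NormedSpace ℝ E] [CompleteSpace E]
    (Φ : (ℝ → E) → ℝ → E) (hc : ∀ ζ : BoundedContinuousFunction ℝ E, Continuous (Φ ζ))
    (hb : ∀ (ζ : BoundedContinuousFunction ℝ E) t, ‖Φ ζ t‖ ≤ 1)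
    (hd : ∀ (ζ ζ' : BoundedContinuousFunction ℝ E) t, dist (Φ ζ t) (Φ ζ' t) ≤ 1 / 2 * dist ζ ζ') :
    ∃ ζ : BoundedContinuousFunction ℝ E, ∀ t, Φ ζ t = ζ t := by
  let Op : BoundedContinuousFunction ℝ E → BoundedContinuousFunction ℝ E := fun ζ =>
    BoundedContinuousFunction.ofNormedAddCommGroup (Φ ζ) (hc ζ) 1 (hb ζ)
  have hOp : ContractingWith (1 / 2 : NNReal) Op := by
    refine ⟨by rw [← NNReal.coe_lt_coe]; norm_num, ?_⟩
    refine LipschitzWith.of_dist_le_mul fun ζ ζ' => ?_
    have hC : (0 : ℝ) ≤ ((1 / 2 : NNReal) : ℝ) * dist ζ ζ' := by positivity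
    rw [BoundedContinuousFunction.dist_le hC]
    intro t
    have hd' : ((1 / 2 : NNReal) : ℝ) = 1 / 2 := by norm_num
    rw [hd']
    exact hd ζ ζ' t
  refine ⟨ContractingWith.fixedPoint Op hOp, fun t => ?_⟩
  have hfix : Op (ContractingWith.fixedPoint Op hOp) = ContractingWith.fixedPoint Op hOp :=
    ContractingWith.fixedPoint_isFixedPt hOp
  exact congrArg (fun f : BoundedContinuousFunction ℝ E => f t) hfix

/-- Volterra equation `z(t) = ∫_{-∞}^t (t-s) F(s, z s) ds` for a capped nonlinearity.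

Proof: Banach's fixed point theorem for `ζ = W⁻¹ z` with the weight `W t = 1 + exp (lam * (t - T'))`. -/
theorem volterra {ι : Type} [Fintype ι] (F : ℝ → (ι → ℝ) → (ι → ℝ))
    (hF : Continuous (fun p : ℝ × (ι → ℝ) => F p.1 p.2))
    (T L : ℝ) (hL : 0 ≤ L) (hb : ∀ t z, ‖F t z‖ ≤ L * gw T t)
    (hlip : ∀ t z z', ‖F t z - F t z'‖ ≤ L * gw T t * ‖z - z'‖) :
    ∃ z : ℝ → (ι → ℝ), Continuous z ∧ ∀ t, z t = ∫ s in Iic t, (t - s) • F s (z s) := by
  -- the constants
  obtain ⟨lam, hlam⟩ : ∃ lam, lam = 4 * (L + 1) := ⟨_, rfl⟩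
  obtain ⟨T', hT'⟩ : ∃ T', T' = T + Real.log (1 / (4 * (L + 1))) / 2 := ⟨_, rfl⟩
  have hlam2 : 2 ≤ lam := by rw [hlam]; linarith
  have hlam0 : 0 < lam := by linarith
  have hTT : Real.exp (2 * (T' - T)) = 1 / (4 * (L + 1)) := by
    rw [hT']
    have : 2 * (T + Real.log (1 / (4 * (L + 1))) / 2 - T) = Real.log (1 / (4 * (L + 1))) := by ring
    rw [this, Real.exp_log (by positivity)]
  have hc1 : L * Real.exp (2 * (T' - T)) ≤ 1 / 4 := by
    rw [hTT, mul_one_div, div_le_div_iff₀ (by positivity) (by norm_num)]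
    linarith
  have hc2 : L * (4 / lam ^ 2) ≤ 1 / 4 := by
    rw [mul_div_assoc', div_le_div_iff₀ (by positivity) (by norm_num), hlam]
    nlinarith [sq_nonneg L]
  -- the weight
  obtain ⟨W, hWdef⟩ : ∃ W : ℝ → ℝ, W = fun t => 1 + Real.exp (lam * (t - T')) := ⟨_, rfl⟩
  have hWc : Continuous W := by
    rw [hWdef]
    fun_prop
  have hWt : ∀ t, W t = 1 + Real.exp (lam * (t - T')) := fun t => by rw [hWdef]
  clear hWdef
  have hW1 : ∀ t, 1 ≤ W t := fun t => by
    have := (Real.exp_pos (lam * (t - T'))).le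
    rw [hWt]
    linarith
  have hW0 : ∀ t, 0 < W t := fun t => lt_of_lt_of_le one_pos (hW1 t)
  have hWe : ∀ t, Real.exp (lam * (t - T')) ≤ W t := fun t => by
    rw [hWt]
    linarith
  have hW2 : ∀ t, L * Real.exp (2 * (t - T)) ≤ 1 / 4 * W t := fun t => by
    have h1 : Real.exp (2 * (t - T')) ≤ W t := by
      rcases le_total t T' with h | h
      · refine le_trans ?_ (hW1 t)
        rw [← Real.exp_zero]
        exact Real.exp_le_exp.2 (by nlinarith)
      · refine le_trans ?_ (hWe t)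
        exact Real.exp_le_exp.2 (by nlinarith)
    calc L * Real.exp (2 * (t - T)) = L * Real.exp (2 * (T' - T)) * Real.exp (2 * (t - T')) := by
          rw [mul_assoc, ← Real.exp_add]
          congr 2
          ring
      _ ≤ 1 / 4 * W t := mul_le_mul hc1 h1 (Real.exp_pos _).le (by norm_num)
  have hg1 : ∀ t, gw T t ≤ Real.exp (2 * (t - T)) := fun t => min_le_right _ _
  have hg2 : ∀ t, gw T t ≤ 1 := fun t => min_le_left _ _
  have hg0 : ∀ t, 0 ≤ gw T t := fun t => le_min zero_le_one (Real.exp_pos _).le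
  -- the integrand
  have hGc : ∀ ζ : BoundedContinuousFunction ℝ (ι → ℝ), Continuous fun s => F s (W s • ζ s) :=
    fun ζ => hF.comp (continuous_id.prodMk (hWc.smul ζ.continuous))
  have hGb : ∀ (ζ : BoundedContinuousFunction ℝ (ι → ℝ)) (s : ℝ),
      ‖F s (W s • ζ s)‖ ≤ L * Real.exp (2 * (s - T)) := fun ζ s =>
    (hb s _).trans (mul_le_mul_of_nonneg_left (hg1 s) hL)
  obtain ⟨ζ, hζ⟩ := volterra_fix (E := ι → ℝ)
    (fun ζ t => (W t)⁻¹ • ∫ s in Iic t, (t - s) • F s (W s • ζ s))
    (fun ζ => (hWc.inv₀ fun t => (hW0 t).ne').smul (volterra_cont _ (hGc ζ) T L (hGb ζ)))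
    (fun ζ t => by
      rw [norm_smul, norm_inv, Real.norm_eq_abs, abs_of_pos (hW0 t), inv_mul_le_iff₀ (hW0 t),
        mul_one]
      refine (volterra_bd _ T L hL (hGb ζ) t).trans ?_
      have := hW2 t
      have := hW0 t
      linarith)
    (fun ζ ζ' t => by
      rw [dist_eq_norm, ← smul_sub, norm_smul, norm_inv, Real.norm_eq_abs,
        abs_of_pos (hW0 t), inv_mul_le_iff₀ (hW0 t)]
      have hdist : 0 ≤ dist ζ ζ' := dist_nonneg
      refine (volterra_bd2 _ _ T T' lam (L * dist ζ ζ') L hlam0 (mul_nonneg hL hdist) (hGc ζ)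
        (hGc ζ') (hGb ζ) (hGb ζ') (fun s => ?_) t).trans ?_
      · have h4 : ‖W s • ζ s - W s • ζ' s‖ ≤ W s * dist ζ ζ' := by
          rw [← smul_sub, norm_smul, Real.norm_eq_abs, abs_of_pos (hW0 s), ← dist_eq_norm]
          exact mul_le_mul_of_nonneg_left (BoundedContinuousFunction.dist_coe_le_dist s) (hW0 s).le
        have h5 : gw T s * W s ≤ Real.exp (2 * (s - T)) + Real.exp (lam * (s - T')) := by
          rw [hWt, mul_add, mul_one]
          refine add_le_add (hg1 s) ?_
          exact mul_le_of_le_one_left (Real.exp_pos _).le (hg2 s)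
        calc ‖F s (W s • ζ s) - F s (W s • ζ' s)‖
            ≤ L * gw T s * ‖W s • ζ s - W s • ζ' s‖ := hlip s _ _
          _ ≤ L * gw T s * (W s * dist ζ ζ') :=
              mul_le_mul_of_nonneg_left h4 (mul_nonneg hL (hg0 s))
          _ = L * dist ζ ζ' * (gw T s * W s) := by ring
          _ ≤ _ := mul_le_mul_of_nonneg_left h5 (mul_nonneg hL hdist)
      · have h7 : L * (4 / lam ^ 2 * Real.exp (lam * (t - T'))) ≤ 1 / 4 * W t := by
          rw [← mul_assoc]
          exact mul_le_mul hc2 (hWe t) (Real.exp_pos _).le (by norm_num)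
        have h8 := mul_le_mul_of_nonneg_right (hW2 t) hdist
        have h9 := mul_le_mul_of_nonneg_right h7 hdist
        linarith)
  refine ⟨fun t => W t • ζ t, hWc.smul ζ.continuous, fun t => ?_⟩
  have h := hζ t
  beta_reduce at h ⊢
  rw [← h, smul_smul, mul_inv_cancel₀ (hW0 t).ne', one_smul]

end Pool.Agent.MPad5d82
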