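import Pool.Agent.Lib.MP_ad5d82_an.h24.Rad.Defs
import Pool.Agent.Lib.MP_ad5d82_an.h24.Rad.Volterra
import Pool.Agent.Lib.MP_ad5d82_an.h24.Rad.VDeriv
import Pool.Agent.Lib.MP_ad5d82_an.h24.Rad.CapBound

set_option autoImplicit false

namespace Pool.Agent.MPad5d82

open MeasureTheory Set Filter Topology

/-- `exp` is Lipschitz with constant `exp κ` on `(-∞, κ]`. -/
theorem capped_exp_lip (κ u v : ℝ) (hu : u ≤ κ) (hv : v ≤ κ) :
    |Real.exp u - Real.exp v| ≤ Real.exp κ * |u - v| := by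
  have key : ∀ u v : ℝ, v ≤ κ → u ≤ v → Real.exp v - Real.exp u ≤ Real.exp κ * (v - u) := by
    intro u v hv huv
    have h1 : u - v + 1 ≤ Real.exp (u - v) := Real.add_one_le_exp _
    have h2 : Real.exp u = Real.exp v * Real.exp (u - v) := by
      rw [← Real.exp_add]; congr 1; ring
    have h3 : 0 < Real.exp v := Real.exp_pos _
    have h4 : Real.exp v ≤ Real.exp κ := Real.exp_le_exp.mpr hv
    calc Real.exp v - Real.exp u = Real.exp v * (1 - Real.exp (u - v)) := by rw [h2]; ring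
      _ ≤ Real.exp v * (v - u) := mul_le_mul_of_nonneg_left (by linarith) h3.le
      _ ≤ Real.exp κ * (v - u) := mul_le_mul_of_nonneg_right h4 (by linarith)
  rcases le_total u v with h | h
  · have h5 := key u v hv h
    rw [abs_sub_comm (Real.exp u), abs_sub_comm u, abs_of_nonneg, abs_of_nonneg]
    · exact h5
    · linarith
    · linarith [Real.exp_le_exp.mpr h]
  · have h5 := key v u hu h
    rw [abs_of_nonneg, abs_of_nonneg]
    · exact h5
    · linarith
    · linarith [Real.exp_le_exp.mpr h]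

/-- Solution of the capped system on all of `ℝ`.

Proof.  `F t z a := rhsE lam M t (capE n α m V T t (fun b => 2 * n b * t + α b + z b)) a`.  With `μ = absSum M`:
* `exp κ ≤ e^m gw` (`exp_kap_le`), hence `capE ≤ e^m gw ≤ ...` and `|capE z b - capE z' b| ≤ e^m gw ‖z - z'‖`
  (the map `x ↦ exp (min (A + x) κ)` is Lipschitz with constant `exp κ`);
* `exp(-2t) gw² ≤ gw` because `gw ≤ exp(2(t-T))` and `T ≥ 0`;
* so `rhsE_bound`, `rhsE_lip` give the hypotheses of `volterra` with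
  `L = lam * (2 * μ² * e^{2m} + μ * e^m)`.
For `t ≤ T`, `exp_kap_le'` gives `‖F t z‖ ≤ lam (μ² e² η² + μ e η) exp(2(t-T)) ≤ K exp(2(t-T))`,
`K = lam (μ² e² + μ e) η ≤ 1`; conclude by `volterra_deriv` with `f s = F s (z s)`, `c = T`.  `w = 2 n t + α + z`. -/
theorem capped {ι : Type} [Fintype ι] (M : Matrix ι ι ℝ) (lam : ℝ) (hlam : 0 < lam)
    (n : ι → ℕ) (hn : ∀ a, 1 ≤ n a) (α : ι → ℝ) (m V T η : ℝ) (hT : 0 ≤ T)
    (hη0 : 0 < η) (hη1 : η ≤ 1) (hm : 1 ≤ m)
    (hα : ∀ a, 2 * n a * T + α a ≤ Real.log η)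
    (hK : lam * (absSum M ^ 2 * Real.exp 1 ^ 2 + absSum M * Real.exp 1) * η ≤ 1) :
    ∃ w w' : ℝ → ι → ℝ,
      (∀ t a, HasDerivAt (fun s => w s a) (w' t a) t) ∧
      (∀ t a, HasDerivAt (fun s => w' s a) (rhsE lam M t (capE n α m V T t (w t)) a) t) ∧
      (∀ t ≤ T, ∀ a, |w t a - (2 * n a * t + α a)| ≤ 1 / 4 * Real.exp (2 * (t - T)) ∧
        |w' t a - 2 * n a| ≤ 1 / 2 * Real.exp (2 * (t - T))) := by
  classical
  obtain ⟨μ, hμ⟩ : ∃ μ, μ = absSum M := ⟨_, rfl⟩
  have hμ0 : 0 ≤ μ := by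
    rw [hμ]
    exact Finset.sum_nonneg (fun a _ => Finset.sum_nonneg (fun b _ => abs_nonneg _))
  obtain ⟨E, hE⟩ : ∃ E : ℝ → (ι → ℝ) → (ι → ℝ), E = fun t z =>
    capE n α m V T t (fun b => 2 * n b * t + α b + z b) := ⟨_, rfl⟩
  obtain ⟨F, hF⟩ : ∃ F : ℝ → (ι → ℝ) → (ι → ℝ), F = fun t z a => rhsE lam M t (E t z) a := ⟨_, rfl⟩
  have hEpos : ∀ t z b, 0 ≤ E t z b := by
    intro t z b
    rw [hE]
    exact (Real.exp_pos _).le
  have hEle : ∀ t z b, E t z b ≤ Real.exp (kap n α m V T t b) := by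
    intro t z b
    rw [hE]
    exact Real.exp_le_exp.mpr (min_le_right _ _)
  have hgw0 : ∀ t, 0 ≤ gw T t := fun t => le_min zero_le_one (Real.exp_pos _).le
  have hgwle : ∀ t, gw T t ≤ Real.exp (2 * (t - T)) := fun t => min_le_right _ _
  have hgw2 : ∀ t, Real.exp (-2 * t) * gw T t ^ 2 ≤ gw T t := by
    intro t
    have h1 : Real.exp (-2 * t) * gw T t ≤ 1 := by
      calc Real.exp (-2 * t) * gw T t ≤ Real.exp (-2 * t) * Real.exp (2 * (t - T)) :=
            mul_le_mul_of_nonneg_left (hgwle t) (Real.exp_pos _).le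
        _ = Real.exp (-2 * T) := by rw [← Real.exp_add]; congr 1; ring
        _ ≤ 1 := by
          rw [← Real.exp_zero]
          exact Real.exp_le_exp.mpr (by linarith)
    calc Real.exp (-2 * t) * gw T t ^ 2 = (Real.exp (-2 * t) * gw T t) * gw T t := by ring
      _ ≤ 1 * gw T t := mul_le_mul_of_nonneg_right h1 (hgw0 t)
      _ = gw T t := one_mul _
  have hEB : ∀ t z b, E t z b ≤ Real.exp m * gw T t := fun t z b =>
    (hEle t z b).trans (exp_kap_le n hn α m V T η hm hη0 hη1 hα t b)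
  have hElip : ∀ t z z' b, |E t z b - E t z' b| ≤ Real.exp m * gw T t * ‖z - z'‖ := by
    intro t z z' b
    have h1 : |E t z b - E t z' b| ≤ Real.exp (kap n α m V T t b) *
        |min (2 * n b * t + α b + z b) (kap n α m V T t b) -
          min (2 * n b * t + α b + z' b) (kap n α m V T t b)| := by
      rw [hE]
      exact capped_exp_lip _ _ _ (min_le_right _ _) (min_le_right _ _)
    have h2 : |min (2 * n b * t + α b + z b) (kap n α m V T t b) -
          min (2 * n b * t + α b + z' b) (kap n α m V T t b)| ≤ ‖z - z'‖ := by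
      refine (abs_min_sub_min_le_max _ _ _ _).trans ?_
      rw [sub_self, abs_zero]
      refine max_le ?_ (norm_nonneg _)
      have h3 : 2 * (n b : ℝ) * t + α b + z b - (2 * n b * t + α b + z' b) = (z - z') b := by
        simp only [Pi.sub_apply]; ring
      rw [h3]
      exact norm_le_pi_norm (z - z') b
    refine h1.trans ?_
    exact mul_le_mul (exp_kap_le n hn α m V T η hm hη0 hη1 hα t b) h2 (abs_nonneg _)
      (mul_nonneg (Real.exp_pos _).le (hgw0 t))
  obtain ⟨L, hL⟩ : ∃ L : ℝ, L = lam * (2 * μ ^ 2 * Real.exp m ^ 2 + μ * Real.exp m) := ⟨_, rfl⟩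
  have hem : 0 < Real.exp m := Real.exp_pos _
  have hL0 : 0 ≤ L := by rw [hL]; positivity
  have hcont : Continuous (fun p : ℝ × (ι → ℝ) => F p.1 p.2) := by
    rw [hF, hE]
    simp only [rhsE, capE, kap]
    fun_prop
  have hb : ∀ t z, ‖F t z‖ ≤ L * gw T t := by
    intro t z
    rw [pi_norm_le_iff_of_nonneg (mul_nonneg hL0 (hgw0 t))]
    intro a
    have h1 := rhsE_bound lam hlam M t (Real.exp m * gw T t) (E t z) (hEpos t z) (hEB t z) a
    rw [← hμ] at h1
    have h2 : F t z a = rhsE lam M t (E t z) a := by rw [hF]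
    rw [Real.norm_eq_abs, h2]
    refine h1.trans ?_
    have h3 : Real.exp (-2 * t) * (μ ^ 2 * (Real.exp m * gw T t) ^ 2) ≤
        2 * μ ^ 2 * Real.exp m ^ 2 * gw T t := by
      calc Real.exp (-2 * t) * (μ ^ 2 * (Real.exp m * gw T t) ^ 2) =
            (μ ^ 2 * Real.exp m ^ 2) * (Real.exp (-2 * t) * gw T t ^ 2) := by ring
        _ ≤ (μ ^ 2 * Real.exp m ^ 2) * gw T t := mul_le_mul_of_nonneg_left (hgw2 t) (by positivity)
        _ ≤ 2 * μ ^ 2 * Real.exp m ^ 2 * gw T t := by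
          have : 0 ≤ (μ ^ 2 * Real.exp m ^ 2) * gw T t := mul_nonneg (by positivity) (hgw0 t)
          nlinarith
    calc lam * (Real.exp (-2 * t) * (μ ^ 2 * (Real.exp m * gw T t) ^ 2) + μ * (Real.exp m * gw T t))
        ≤ lam * (2 * μ ^ 2 * Real.exp m ^ 2 * gw T t + μ * (Real.exp m * gw T t)) := by
          apply mul_le_mul_of_nonneg_left _ hlam.le
          linarith
      _ = L * gw T t := by rw [hL]; ring
  have hlip : ∀ t z z', ‖F t z - F t z'‖ ≤ L * gw T t * ‖z - z'‖ := by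
    intro t z z'
    rw [pi_norm_le_iff_of_nonneg (mul_nonneg (mul_nonneg hL0 (hgw0 t)) (norm_nonneg _))]
    intro a
    have h1 := rhsE_lip lam hlam M t (Real.exp m * gw T t) (Real.exp m * gw T t * ‖z - z'‖)
      (E t z) (E t z') (hEpos t z) (hEB t z) (hEpos t z') (hEB t z') (hElip t z z') a
    rw [← hμ] at h1
    have h2 : (F t z - F t z') a = rhsE lam M t (E t z) a - rhsE lam M t (E t z') a := by
      rw [Pi.sub_apply, hF]
    rw [Real.norm_eq_abs, h2]
    refine h1.trans ?_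
    have hD : 0 ≤ ‖z - z'‖ := norm_nonneg _
    have h3 : Real.exp (-2 * t) * (2 * μ ^ 2 * (Real.exp m * gw T t) *
        (Real.exp m * gw T t * ‖z - z'‖)) ≤
        2 * μ ^ 2 * Real.exp m ^ 2 * gw T t * ‖z - z'‖ := by
      calc Real.exp (-2 * t) * (2 * μ ^ 2 * (Real.exp m * gw T t) *
            (Real.exp m * gw T t * ‖z - z'‖)) =
            (2 * μ ^ 2 * Real.exp m ^ 2 * ‖z - z'‖) * (Real.exp (-2 * t) * gw T t ^ 2) := by ring
        _ ≤ (2 * μ ^ 2 * Real.exp m ^ 2 * ‖z - z'‖) * gw T t :=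
          mul_le_mul_of_nonneg_left (hgw2 t) (by positivity)
        _ = 2 * μ ^ 2 * Real.exp m ^ 2 * gw T t * ‖z - z'‖ := by ring
    calc lam * (Real.exp (-2 * t) * (2 * μ ^ 2 * (Real.exp m * gw T t) *
        (Real.exp m * gw T t * ‖z - z'‖)) + μ * (Real.exp m * gw T t * ‖z - z'‖))
        ≤ lam * (2 * μ ^ 2 * Real.exp m ^ 2 * gw T t * ‖z - z'‖ +
            μ * (Real.exp m * gw T t * ‖z - z'‖)) := by
          apply mul_le_mul_of_nonneg_left _ hlam.le
          linarith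
      _ = L * gw T t * ‖z - z'‖ := by rw [hL]; ring
  obtain ⟨z, hzc, hz⟩ := volterra F hcont T L hL0 hb hlip
  have hfc : Continuous (fun s => F s (z s)) := hcont.comp (continuous_id.prodMk hzc)
  obtain ⟨z', hz1, hz2, hz3⟩ := volterra_deriv (fun s => F s (z s)) hfc T L (fun t => hb t (z t)) z hz
  have hsmall : ∀ s ≤ T, ‖F s (z s)‖ ≤ 1 * Real.exp (2 * (s - T)) := by
    intro s hs
    rw [pi_norm_le_iff_of_nonneg (by positivity)]
    intro a
    have h1 := rhsE_bound lam hlam M s (Real.exp 1 * η * Real.exp (2 * (s - T))) (E s (z s))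
      (hEpos s (z s))
      (fun b => (hEle s (z s) b).trans (exp_kap_le' n hn α m V T η hη0 hα s hs b)) a
    rw [← hμ] at h1
    have h2 : F s (z s) a = rhsE lam M s (E s (z s)) a := by rw [hF]
    rw [Real.norm_eq_abs, h2]
    refine h1.trans ?_
    have hX : 0 < Real.exp (2 * (s - T)) := Real.exp_pos _
    have he1 : 0 < Real.exp 1 := Real.exp_pos _
    have h4 : Real.exp (-2 * s) * Real.exp (2 * (s - T)) ^ 2 ≤ Real.exp (2 * (s - T)) := by
      have : Real.exp (-2 * s) * Real.exp (2 * (s - T)) ≤ 1 := by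
        rw [← Real.exp_add, ← Real.exp_zero]
        exact Real.exp_le_exp.mpr (by linarith)
      calc Real.exp (-2 * s) * Real.exp (2 * (s - T)) ^ 2 =
            (Real.exp (-2 * s) * Real.exp (2 * (s - T))) * Real.exp (2 * (s - T)) := by ring
        _ ≤ 1 * Real.exp (2 * (s - T)) := mul_le_mul_of_nonneg_right this hX.le
        _ = _ := one_mul _
    have hη2 : η ^ 2 ≤ η := by nlinarith
    have h5 : Real.exp (-2 * s) * (μ ^ 2 * (Real.exp 1 * η * Real.exp (2 * (s - T))) ^ 2) ≤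
        μ ^ 2 * Real.exp 1 ^ 2 * η * Real.exp (2 * (s - T)) := by
      calc Real.exp (-2 * s) * (μ ^ 2 * (Real.exp 1 * η * Real.exp (2 * (s - T))) ^ 2) =
            (μ ^ 2 * Real.exp 1 ^ 2) * (η ^ 2 * (Real.exp (-2 * s) * Real.exp (2 * (s - T)) ^ 2)) := by
              ring
        _ ≤ (μ ^ 2 * Real.exp 1 ^ 2) * (η * Real.exp (2 * (s - T))) := by
          apply mul_le_mul_of_nonneg_left _ (by positivity)
          exact mul_le_mul hη2 h4 (by positivity) hη0.le
        _ = _ := by ring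
    have hK' : lam * (μ ^ 2 * Real.exp 1 ^ 2 + μ * Real.exp 1) * η ≤ 1 := by rw [hμ]; exact hK
    calc lam * (Real.exp (-2 * s) * (μ ^ 2 * (Real.exp 1 * η * Real.exp (2 * (s - T))) ^ 2) +
          μ * (Real.exp 1 * η * Real.exp (2 * (s - T))))
        ≤ lam * (μ ^ 2 * Real.exp 1 ^ 2 * η * Real.exp (2 * (s - T)) +
          μ * (Real.exp 1 * η * Real.exp (2 * (s - T)))) := by
          apply mul_le_mul_of_nonneg_left _ hlam.le
          linarith
      _ = (lam * (μ ^ 2 * Real.exp 1 ^ 2 + μ * Real.exp 1) * η) * Real.exp (2 * (s - T)) := by ring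
      _ ≤ 1 * Real.exp (2 * (s - T)) := mul_le_mul_of_nonneg_right hK' hX.le
  have hfin := hz3 T 1 hsmall
  refine ⟨fun t a => 2 * n a * t + α a + z t a, fun t a => 2 * n a + z' t a, ?_, ?_, ?_⟩
  · intro t a
    have h1 : HasDerivAt (fun s => z s a) (z' t a) t := (hasDerivAt_pi.mp (hz1 t)) a
    have h2 : HasDerivAt (fun s : ℝ => 2 * (n a : ℝ) * s + α a) (2 * (n a : ℝ)) t := by
      have := ((hasDerivAt_id t).const_mul (2 * (n a : ℝ))).add_const (α a)
      simpa using this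
    exact h2.add h1
  · intro t a
    have h1 : HasDerivAt (fun s => z' s a) (F t (z t) a) t := (hasDerivAt_pi.mp (hz2 t)) a
    have h2 : HasDerivAt (fun s : ℝ => 2 * (n a : ℝ) + z' s a) (F t (z t) a) t :=
      h1.const_add _
    have h3 : F t (z t) a = rhsE lam M t (capE n α m V T t (fun b => 2 * n b * t + α b + z t b)) a := by
      rw [hF, hE]
    rw [h3] at h2
    exact h2
  · intro t ht a
    obtain ⟨h1, h2⟩ := hfin t ht
    constructor
    · have h3 : 2 * (n a : ℝ) * t + α a + z t a - (2 * n a * t + α a) = z t a := by ring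
      simp only [h3]
      exact (norm_le_pi_norm (z t) a).trans h2
    · have h3 : 2 * (n a : ℝ) + z' t a - 2 * n a = z' t a := by ring
      simp only [h3]
      exact (norm_le_pi_norm (z' t) a).trans h1

end Pool.Agent.MPad5d82
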