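import Pool.Agent.Lib.MP_ad5d82_an.h24.Rad.Defs

set_option autoImplicit false

namespace Pool.Agent.MPad5d82

/-- If `D M` is positive definite then so is `D⁻¹ Mᵀ = D⁻¹ (D M) D⁻¹`. -/
theorem posDef_transpose {ι : Type} [Fintype ι] [DecidableEq ι] (M : Matrix ι ι ℝ) (d : ι → ℝ) (hd : ∀ a, 0 < d a)
    (hS : (Matrix.of fun a b => d a * M a b).PosDef) :
    (Matrix.of fun a b => (d a)⁻¹ * M.transpose a b).PosDef := by
  have hsym : ∀ a b, d a * M a b = d b * M b a := by
    intro a b
    have := hS.1.apply a b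
    simp only [Matrix.of_apply, star_trivial] at this
    exact this.symm
  have e1 : (Matrix.of fun a b => (d a)⁻¹ * M.transpose a b) =
      (Matrix.diagonal fun a => (d a)⁻¹).conjTranspose * (Matrix.of fun a b => d a * M a b) *
        (Matrix.diagonal fun a => (d a)⁻¹) := by
    ext a b
    rw [Matrix.diagonal_conjTranspose, Matrix.mul_diagonal, Matrix.diagonal_mul]
    simp only [Matrix.of_apply, Matrix.transpose_apply, star_trivial, Pi.star_apply]
    have h1 := hsym a b
    have h2 := (hd a).ne'
    have h3 := (hd b).ne'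
    rw [h1]
    field_simp
  rw [e1]
  refine hS.conjTranspose_mul_mul_same ?_
  rw [Matrix.mulVec_injective_iff_isUnit, Matrix.isUnit_iff_isUnit_det, Matrix.det_diagonal]
  exact (Finset.prod_ne_zero_iff.mpr fun a _ => inv_ne_zero (hd a).ne').isUnit

end Pool.Agent.MPad5d82
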