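import Pool.Agent.Lib.MP_ad5d82_an.h24.Rad.Defs

set_option autoImplicit false

namespace Pool.Agent.MPad5d82

open MeasureTheory Set Filter Topology

/-- Finite charge.  `y' := M⁻¹ w'` is bounded and
`y'_a' = lam (exp(-2t) e^{w_a} (M e^w)_a - e^{w_a}) = - lam e^{w_a} (1 - exp(-2t) (M e^w)_a) ≤ -(lam/2) e^{w_a}` for
`t ≥ t₁` (where `exp(-2 t₁) * absSum M * C ≤ 1/2`).  So `∫_{t₁}^X e^{w_a} ≤ (2/lam) (y'_a t₁ - y'_a X)` is bounded.
On `(-∞, t₁]` integrability from `e^{w_a} ≤ e^{α_a + C} e^{2t}` for `t ≤ 0` and continuity. -/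
theorem exp_w_integrable {ι : Type} [Fintype ι] [DecidableEq ι] (M : Matrix ι ι ℝ) (hM : IsUnit M.det)
    (lam : ℝ) (hlam : 0 < lam) (n : ι → ℕ) (hn : ∀ a, 1 ≤ n a) (α : ι → ℝ)
    (w w' : ℝ → ι → ℝ) (C : ℝ)
    (h1 : ∀ t a, HasDerivAt (fun s => w s a) (w' t a) t)
    (h2 : ∀ t a, HasDerivAt (fun s => w' s a) (rhs lam M t (w t) a) t)
    (hw : ∀ t ≤ 0, ∀ a, |w t a - (2 * n a * t + α a)| ≤ C * Real.exp (2 * t))
    (hw' : ∀ t a, |w' t a| ≤ C) (he : ∀ t a, Real.exp (w t a) ≤ C) (a : ι) :
    Integrable (fun t => Real.exp (w t a)) volume := by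
  have hC : 0 ≤ C := le_trans (Real.exp_pos _).le (he 0 a)
  have hcw : ∀ b, Continuous (fun t => w t b) := fun b =>
    continuous_iff_continuousAt.2 (fun t => (h1 t b).continuousAt)
  have hcE : ∀ b, Continuous (fun t => Real.exp (w t b)) := fun b => (hcw b).rexp
  -- the part near minus infinity
  have hL : IntegrableOn (fun t => Real.exp (w t a)) (Iic 0) volume := by
    have hI : IntegrableOn (fun t : ℝ => Real.exp (α a + C) * Real.exp (2 * t)) (Iic 0) volume :=
      (integrableOn_exp_mul_Iic (by norm_num : (0 : ℝ) < 2) 0).const_mul _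
    refine Integrable.mono' hI (hcE a).aestronglyMeasurable ?_
    refine (ae_restrict_iff' measurableSet_Iic).2 (Eventually.of_forall ?_)
    intro t ht
    have ht' : t ≤ 0 := ht
    rw [Real.norm_eq_abs, abs_of_pos (Real.exp_pos _), ← Real.exp_add]
    apply Real.exp_le_exp.2
    have h3 := (abs_le.1 (hw t ht' a)).2
    have h4 : Real.exp (2 * t) ≤ 1 := Real.exp_le_one_iff.2 (by linarith)
    have h5 : C * Real.exp (2 * t) ≤ C := by nlinarith
    have h6 : (1 : ℝ) ≤ (n a : ℝ) := by exact_mod_cast hn a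
    nlinarith
  -- the charge function
  set y : ℝ → ℝ := fun t => ∑ b, M⁻¹ a b * w' t b with hy
  have hyd : ∀ t, HasDerivAt y (∑ b, M⁻¹ a b * rhs lam M t (w t) b) t := by
    intro t
    have := HasDerivAt.fun_sum (u := (Finset.univ : Finset ι)) (x := t)
      (A := fun b s => M⁻¹ a b * w' s b) (A' := fun b => M⁻¹ a b * rhs lam M t (w t) b)
      (fun b _ => (h2 t b).const_mul (M⁻¹ a b))
    exact this
  have hinv : ∀ v : ι → ℝ, ∑ b, M⁻¹ a b * ∑ c, M b c * v c = v a := by
    intro v
    have h3 : (M⁻¹ * M) = 1 := Matrix.nonsing_inv_mul M hM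
    have h4 : (M⁻¹).mulVec (M.mulVec v) = v := by
      rw [Matrix.mulVec_mulVec, h3, Matrix.one_mulVec]
    have h5 := congrFun h4 a
    simpa [Matrix.mulVec, dotProduct] using h5
  have hval : ∀ t, (∑ b, M⁻¹ a b * rhs lam M t (w t) b)
      = -(lam * Real.exp (w t a) * (1 - Real.exp (-2 * t) * ∑ c, M a c * Real.exp (w t c))) := by
    intro t
    have e1 : ∀ b, M⁻¹ a b * rhs lam M t (w t) b
        = lam * Real.exp (-2 * t) * (M⁻¹ a b * ∑ c, M b c *
            (Real.exp (w t c) * ∑ d, M c d * Real.exp (w t d)))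
          - lam * (M⁻¹ a b * ∑ c, M b c * Real.exp (w t c)) := by
      intro b
      unfold rhs rhsE
      have : (∑ c, M b c * Real.exp (w t c) * ∑ d, M c d * Real.exp (w t d))
          = ∑ c, M b c * (Real.exp (w t c) * ∑ d, M c d * Real.exp (w t d)) :=
        Finset.sum_congr rfl (fun c _ => by ring)
      rw [this]
      ring
    rw [Finset.sum_congr rfl (fun b _ => e1 b), Finset.sum_sub_distrib, ← Finset.mul_sum,
      ← Finset.mul_sum, hinv (fun c => Real.exp (w t c) * ∑ d, M c d * Real.exp (w t d)),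
      hinv (fun c => Real.exp (w t c))]
    ring
  -- bound of y
  set K : ℝ := ∑ b, |M⁻¹ a b| * C with hK
  have hyb : ∀ t, |y t| ≤ K := by
    intro t
    calc |y t| ≤ ∑ b, |M⁻¹ a b * w' t b| := Finset.abs_sum_le_sum_abs _ _
      _ ≤ K := by
        apply Finset.sum_le_sum
        intro b _
        rw [abs_mul]
        exact mul_le_mul_of_nonneg_left (hw' t b) (abs_nonneg _)
  -- choose t₁
  set A : ℝ := ∑ c, |M a c| * C with hA
  have hA0 : 0 ≤ A := Finset.sum_nonneg (fun c _ => mul_nonneg (abs_nonneg _) hC)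
  obtain ⟨t₁, ht₁0, ht₁⟩ : ∃ t₁ : ℝ, 0 ≤ t₁ ∧ ∀ t, t₁ ≤ t → Real.exp (-2 * t) * A ≤ 1 / 2 := by
    refine ⟨A, hA0, ?_⟩
    intro t ht
    have h3 : 2 * t + 1 ≤ Real.exp (2 * t) := Real.add_one_le_exp _
    have h4 : Real.exp (-2 * t) * Real.exp (2 * t) = 1 := by
      rw [← Real.exp_add]
      simp
    have h5 : 0 < Real.exp (-2 * t) := Real.exp_pos _
    nlinarith
  have hR : IntegrableOn (fun t => Real.exp (w t a)) (Ioi t₁) volume := by
    refine integrableOn_Ioi_of_intervalIntegral_norm_bounded (l := atTop) (b := fun x : ℝ => x)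
      (2 / lam * (2 * K)) t₁ ?_ tendsto_id ?_
    · intro X
      exact ((hcE a).integrableOn_Icc (a := t₁) (b := X)).mono_set Ioc_subset_Icc_self
    · filter_upwards [eventually_ge_atTop t₁] with X hX
      have hcont' : Continuous (fun t => ∑ b, M⁻¹ a b * rhs lam M t (w t) b) := by
        have : (fun t => ∑ b, M⁻¹ a b * rhs lam M t (w t) b)
            = fun t => -(lam * Real.exp (w t a) *
              (1 - Real.exp (-2 * t) * ∑ c, M a c * Real.exp (w t c))) := funext hval
        rw [this]
        have h7 : Continuous (fun t => ∑ c, M a c * Real.exp (w t c)) :=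
          continuous_finsetSum _ (fun c _ => continuous_const.mul (hcE c))
        exact ((continuous_const.mul (hcE a)).mul (continuous_const.sub
          ((Real.continuous_exp.comp (continuous_const.mul continuous_id)).mul h7))).neg
      have hint : ∫ t in t₁..X, (∑ b, M⁻¹ a b * rhs lam M t (w t) b) = y X - y t₁ :=
        intervalIntegral.integral_eq_sub_of_hasDerivAt (fun t _ => hyd t)
          (hcont'.intervalIntegrable _ _)
      have hmono : ∫ t in t₁..X, ‖Real.exp (w t a)‖
          ≤ ∫ t in t₁..X, (-(2 / lam)) * (∑ b, M⁻¹ a b * rhs lam M t (w t) b) := by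
        apply intervalIntegral.integral_mono_on hX
        · exact (hcE a).norm.intervalIntegrable _ _
        · exact (continuous_const.mul hcont').intervalIntegrable _ _
        · intro t ht
          rw [Real.norm_eq_abs, abs_of_pos (Real.exp_pos _), hval t]
          have h8 : Real.exp (-2 * t) * ∑ c, M a c * Real.exp (w t c) ≤ 1 / 2 := by
            refine le_trans ?_ (ht₁ t ht.1)
            apply mul_le_mul_of_nonneg_left _ (Real.exp_pos _).le
            apply Finset.sum_le_sum
            intro c _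
            have h9 : M a c * Real.exp (w t c) ≤ |M a c| * Real.exp (w t c) :=
              mul_le_mul_of_nonneg_right (le_abs_self _) (Real.exp_pos _).le
            exact le_trans h9 (mul_le_mul_of_nonneg_left (he t c) (abs_nonneg _))
          have h10 : 0 < Real.exp (w t a) := Real.exp_pos _
          have h11 : -(2 / lam) * -(lam * Real.exp (w t a) *
              (1 - Real.exp (-2 * t) * ∑ c, M a c * Real.exp (w t c)))
              = 2 * Real.exp (w t a) * (1 - Real.exp (-2 * t) * ∑ c, M a c * Real.exp (w t c)) := by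
            field_simp
          rw [h11]
          nlinarith
      refine le_trans hmono ?_
      rw [intervalIntegral.integral_const_mul, hint]
      have h12 := abs_le.1 (hyb X)
      have h13 := abs_le.1 (hyb t₁)
      have h14 : 0 < 2 / lam := by positivity
      nlinarith [h12.1, h13.2]
  have hM' : IntegrableOn (fun t => Real.exp (w t a)) (Icc 0 t₁) volume :=
    (hcE a).integrableOn_Icc
  have hU : IntegrableOn (fun t => Real.exp (w t a)) (Iic 0 ∪ Icc 0 t₁ ∪ Ioi t₁) volume :=
    (hL.union hM').union hR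
  have hun : (Iic 0 ∪ Icc 0 t₁ ∪ Ioi t₁ : Set ℝ) = univ := by
    ext x
    simp only [mem_union, mem_Iic, mem_Icc, mem_Ioi, mem_univ, iff_true]
    rcases le_total x 0 with h | h
    · exact Or.inl (Or.inl h)
    · rcases le_or_gt x t₁ with h' | h'
      · exact Or.inl (Or.inr ⟨h, h'⟩)
      · exact Or.inr h'
  rw [hun] at hU
  exact integrableOn_univ.1 hU

end Pool.Agent.MPad5d82
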