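import Pool.Agent.Lib.MP_ad5d82_an.h24.Rad.Defs

set_option autoImplicit false

namespace Pool.Agent.MPad5d82

open MeasureTheory Set Filter Topology

/-- The energy `E = ½ Σ w'_a G_ab w'_b + lam Σ d_a exp(w_a)`. -/
noncomputable def energy {ι : Type} [Fintype ι] (G : Matrix ι ι ℝ) (d : ι → ℝ) (lam : ℝ) (w w' : ι → ℝ) : ℝ :=
  (∑ b, ∑ c, w' b * G b c * w' c) / 2 + lam * ∑ a, d a * Real.exp (w a)

/-- Derivative of the energy at a time `t` where the true equation holds.
`E' = Σ w'_a (G w'')_a + lam Σ d_a e^{w_a} w'_a` and `G w'' = lam (e^{-2t} D W M e^w - D e^w)` because `G M = D`. -/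
theorem energy_hasDerivAt {ι : Type} [Fintype ι] [DecidableEq ι] (M G : Matrix ι ι ℝ) (d : ι → ℝ) (lam : ℝ)
    (hG : ∀ a b, G a b = G b a) (hGM : G * M = Matrix.diagonal d)
    (w w' : ℝ → ι → ℝ) (t : ℝ)
    (h1 : ∀ a, HasDerivAt (fun s => w s a) (w' t a) t)
    (h2 : ∀ a, HasDerivAt (fun s => w' s a) (rhs lam M t (w t) a) t) :
    HasDerivAt (fun s => energy G d lam (w s) (w' s))
      (lam * Real.exp (-2 * t) * ∑ a, d a * w' t a * Real.exp (w t a) * ∑ c, M a c * Real.exp (w t c)) t := by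
  set R : ι → ℝ := fun a => rhs lam M t (w t) a with hR
  -- `G w'' = lam (e^{-2t} D W M e^w - D e^w)`
  have hGR : ∀ b, ∑ c, G b c * R c = lam * (Real.exp (-2 * t) *
      (d b * Real.exp (w t b) * ∑ c, M b c * Real.exp (w t c)) - d b * Real.exp (w t b)) := by
    intro b
    have hrow : ∀ v : ι → ℝ, ∑ c, G b c * ∑ k, M c k * v k = d b * v b := by
      intro v
      have h3 : (G * M).mulVec v b = (Matrix.diagonal d).mulVec v b := by rw [hGM]
      rw [← Matrix.mulVec_mulVec, Matrix.mulVec_diagonal] at h3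
      exact h3
    have h4 := hrow fun k => Real.exp (w t k) * ∑ c, M k c * Real.exp (w t c)
    have h5 := hrow fun k => Real.exp (w t k)
    calc ∑ c, G b c * R c
        = lam * (Real.exp (-2 * t) * (∑ c, G b c * ∑ k, M c k *
            (Real.exp (w t k) * ∑ c, M k c * Real.exp (w t c))) -
              ∑ c, G b c * ∑ k, M c k * Real.exp (w t k)) := by
          rw [Finset.mul_sum, ← Finset.sum_sub_distrib, Finset.mul_sum]
          refine Finset.sum_congr rfl fun c _ => ?_
          simp only [hR, rhs, rhsE, mul_assoc]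
          ring
      _ = _ := by
          rw [h4, h5]
          ring
  have hd1 : HasDerivAt (fun s => (∑ b, ∑ c, w' s b * G b c * w' s c) / 2)
      ((∑ b, ∑ c, (R b * G b c * w' t c + w' t b * G b c * R c)) / 2) t := by
    refine HasDerivAt.div_const ?_ 2
    refine HasDerivAt.fun_sum fun b _ => HasDerivAt.fun_sum fun c _ => ?_
    have h3 := ((h2 b).mul_const (G b c)).mul (h2 c)
    exact h3
  have hd2 : HasDerivAt (fun s => lam * ∑ a, d a * Real.exp (w s a))
      (lam * ∑ a, d a * (Real.exp (w t a) * w' t a)) t := by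
    refine HasDerivAt.const_mul lam ?_
    refine HasDerivAt.fun_sum fun a _ => ?_
    exact ((h1 a).exp).const_mul (d a)
  have hd := hd1.add hd2
  refine hd.congr_deriv ?_
  have hs1 : ∑ b, ∑ c, w' t b * G b c * R c = ∑ b, w' t b * ∑ c, G b c * R c := by
    refine Finset.sum_congr rfl fun b _ => ?_
    rw [Finset.mul_sum]
    exact Finset.sum_congr rfl fun c _ => by ring
  have hs2 : ∑ b, ∑ c, R b * G b c * w' t c = ∑ b, ∑ c, w' t b * G b c * R c := by
    rw [Finset.sum_comm]
    refine Finset.sum_congr rfl fun b _ => Finset.sum_congr rfl fun c _ => ?_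
    rw [hG c b]
    ring
  simp only [Finset.sum_add_distrib]
  rw [hs2, hs1]
  simp only [hGR]
  rw [add_self_div_two, Finset.mul_sum, Finset.mul_sum, ← Finset.sum_add_distrib]
  refine Finset.sum_congr rfl fun b _ => ?_
  ring

/-- Pointwise bounds from an energy bound. -/
theorem energy_bounds {ι : Type} [Fintype ι] (G : Matrix ι ι ℝ) (d : ι → ℝ) (hd : ∀ a, 0 < d a)
    (lam γ : ℝ) (hlam : 0 < lam) (hγ : 0 < γ)
    (hpos : ∀ (v : ι → ℝ) (a : ι), γ * v a ^ 2 ≤ ∑ b, ∑ c, v b * G b c * v c)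
    (w w' : ι → ℝ) (E₁ : ℝ) (hE : energy G d lam w w' ≤ E₁) (a : ι) :
    Real.exp (w a) ≤ E₁ / (lam * d a) ∧ |w' a| ≤ Real.sqrt (2 * E₁ / γ) := by
  unfold energy at hE
  have h1 := hpos w' a
  have h2 : 0 ≤ γ * w' a ^ 2 := by positivity
  have h3 : d a * Real.exp (w a) ≤ ∑ a, d a * Real.exp (w a) :=
    Finset.single_le_sum (f := fun a => d a * Real.exp (w a))
      (fun i _ => (mul_pos (hd i) (Real.exp_pos _)).le) (Finset.mem_univ a)
  have h4 : 0 ≤ d a * Real.exp (w a) := (mul_pos (hd a) (Real.exp_pos _)).le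
  have h5 : lam * (d a * Real.exp (w a)) ≤ lam * ∑ a, d a * Real.exp (w a) :=
    mul_le_mul_of_nonneg_left h3 hlam.le
  have h6 : 0 ≤ lam * (d a * Real.exp (w a)) := mul_nonneg hlam.le h4
  constructor
  · rw [le_div_iff₀ (mul_pos hlam (hd a))]
    linarith
  · apply Real.abs_le_sqrt
    rw [le_div_iff₀ hγ]
    linarith

/-- Bound for the derivative of the energy. -/
theorem energy_deriv_bound {ι : Type} [Fintype ι] (M : Matrix ι ι ℝ) (d : ι → ℝ) (hd : ∀ a, 0 < d a)
    (lam V P t : ℝ) (hlam : 0 < lam) (w w' : ι → ℝ) (hV : ∀ a, |w' a| ≤ V) (hP : ∀ a, Real.exp (w a) ≤ P) :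
    lam * Real.exp (-2 * t) * ∑ a, d a * w' a * Real.exp (w a) * ∑ c, M a c * Real.exp (w c) ≤
      lam * ((∑ a, d a) * V * P ^ 2 * absSum M) * Real.exp (-2 * t) := by
  have hrow : ∀ a, ∑ c, |M a c| ≤ absSum M := fun a => by
    unfold absSum
    exact Finset.single_le_sum (f := fun a => ∑ c, |M a c|)
      (fun i _ => Finset.sum_nonneg fun j _ => abs_nonneg _) (Finset.mem_univ a)
  have hμ : 0 ≤ absSum M :=
    Finset.sum_nonneg fun _ _ => Finset.sum_nonneg fun _ _ => abs_nonneg _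
  have hterm : ∀ a, d a * w' a * Real.exp (w a) * ∑ c, M a c * Real.exp (w c) ≤
      d a * (V * P ^ 2 * absSum M) := by
    intro a
    have hV0 : 0 ≤ V := (abs_nonneg _).trans (hV a)
    have hP0 : 0 ≤ P := (Real.exp_pos _).le.trans (hP a)
    have h1 : |∑ c, M a c * Real.exp (w c)| ≤ absSum M * P := by
      calc |∑ c, M a c * Real.exp (w c)| ≤ ∑ c, |M a c * Real.exp (w c)| :=
            Finset.abs_sum_le_sum_abs _ _
        _ ≤ ∑ c, |M a c| * P := Finset.sum_le_sum fun c _ => by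
            rw [abs_mul, abs_of_pos (Real.exp_pos _)]
            exact mul_le_mul_of_nonneg_left (hP c) (abs_nonneg _)
        _ = (∑ c, |M a c|) * P := by rw [Finset.sum_mul]
        _ ≤ absSum M * P := mul_le_mul_of_nonneg_right (hrow a) hP0
    have h2 : |w' a * Real.exp (w a) * ∑ c, M a c * Real.exp (w c)| ≤
        V * P * (absSum M * P) := by
      rw [abs_mul, abs_mul, abs_of_pos (Real.exp_pos _)]
      refine mul_le_mul (mul_le_mul (hV a) (hP a) (Real.exp_pos _).le hV0) h1 (abs_nonneg _)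
        (mul_nonneg hV0 hP0)
    calc d a * w' a * Real.exp (w a) * ∑ c, M a c * Real.exp (w c)
        = d a * (w' a * Real.exp (w a) * ∑ c, M a c * Real.exp (w c)) := by ring
      _ ≤ d a * (V * P * (absSum M * P)) :=
          mul_le_mul_of_nonneg_left ((le_abs_self _).trans h2) (hd a).le
      _ = d a * (V * P ^ 2 * absSum M) := by ring
  have hsum : ∑ a, d a * w' a * Real.exp (w a) * ∑ c, M a c * Real.exp (w c) ≤
      (∑ a, d a) * (V * P ^ 2 * absSum M) := by
    rw [Finset.sum_mul]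
    exact Finset.sum_le_sum fun a _ => hterm a
  calc lam * Real.exp (-2 * t) * ∑ a, d a * w' a * Real.exp (w a) * ∑ c, M a c * Real.exp (w c)
      ≤ lam * Real.exp (-2 * t) * ((∑ a, d a) * (V * P ^ 2 * absSum M)) :=
        mul_le_mul_of_nonneg_left hsum (mul_pos hlam (Real.exp_pos _)).le
    _ = _ := by ring

end Pool.Agent.MPad5d82
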