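import Pool.Agent.Lib.MP_ad5d82_an.h24.Rad.Defs
import Pool.Agent.Lib.MP_ad5d82_an.h24.Rad.Energy

set_option autoImplicit false

namespace Pool.Agent.MPad5d82

open MeasureTheory Set Filter Topology

theorem continuation {ι : Type} [Fintype ι] [DecidableEq ι] (M G : Matrix ι ι ℝ) (d : ι → ℝ) (hd : ∀ a, 0 < d a)
    (lam γ : ℝ) (hlam : 0 < lam) (hγ : 0 < γ)
    (hG : ∀ a b, G a b = G b a) (hGM : G * M = Matrix.diagonal d)
    (hpos : ∀ (v : ι → ℝ) (a : ι), γ * v a ^ 2 ≤ ∑ b, ∑ c, v b * G b c * v c)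
    (n : ι → ℕ) (α : ι → ℝ) (m V T E₁ P₁ : ℝ) (hT : 0 ≤ T)
    (hV : V = Real.sqrt (2 * E₁ / γ)) (hP : ∀ a, E₁ / (lam * d a) ≤ P₁) (hm : P₁ ≤ Real.exp m)
    (hC : lam * ((∑ a, d a) * V * P₁ ^ 2 * absSum M) * Real.exp (-2 * T) ≤ 1)
    (w w' : ℝ → ι → ℝ)
    (h1 : ∀ t a, HasDerivAt (fun s => w s a) (w' t a) t)
    (h2 : ∀ t a, HasDerivAt (fun s => w' s a) (rhsE lam M t (capE n α m V T t (w t)) a) t)
    (hwT : ∀ a, w T a ≤ 2 * n a * T + α a + 1)
    (hET : energy G d lam (w T) (w' T) ≤ E₁ - 1) :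
    ∀ t, T ≤ t → energy G d lam (w t) (w' t) < E₁ ∧
      ∀ a, w t a ≤ kap n α m V T t a := by
  set E : ℝ → ℝ := fun t => energy G d lam (w t) (w' t) with hE
  have hwc : ∀ a, Continuous fun s => w s a := fun a =>
    continuous_iff_continuousAt.mpr fun t => (h1 t a).continuousAt
  have hw'c : ∀ a, Continuous fun s => w' s a := fun a =>
    continuous_iff_continuousAt.mpr fun t => (h2 t a).continuousAt
  have hEc : Continuous E := by
    rw [hE]
    unfold energy
    fun_prop
  -- caps are inactive as long as the energy stays below `E₁`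
  have hA : ∀ t, T ≤ t → (∀ s ∈ Icc T t, E s ≤ E₁) → ∀ a, w t a ≤ kap n α m V T t a := by
    intro t ht hs a
    have hb := fun s hs' => energy_bounds G d hd lam γ hlam hγ hpos (w s) (w' s) E₁ (hs s hs')
    have h3 : Real.exp (w t a) ≤ Real.exp m := ((hb t ⟨ht, le_rfl⟩ a).1.trans (hP a)).trans hm
    have h4 : w t a ≤ m := Real.exp_le_exp.mp h3
    have h5 : w t a - w T a ≤ V * (t - T) := by
      have := Convex.image_sub_le_mul_sub_of_deriv_le (convex_Icc T t) (f := fun s => w s a)
        (hwc a).continuousOn (fun s _ => (h1 s a).differentiableAt.differentiableWithinAt) (C := V)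
        (fun s hs' => by
          rw [(h1 s a).deriv]
          rw [interior_Icc] at hs'
          rw [hV]
          exact (le_abs_self _).trans (hb s ⟨hs'.1.le, hs'.2.le⟩ a).2)
        T ⟨le_rfl, ht⟩ t ⟨ht, le_rfl⟩ ht
      exact this
    unfold kap
    rw [max_eq_left (by linarith : 0 ≤ t - T)]
    refine le_min h4 ?_
    have h6 := hwT a
    have h7 : 2 * (n a : ℝ) * T ≤ 2 * n a * t := by
      have : (0 : ℝ) ≤ n a := Nat.cast_nonneg _
      have : 0 ≤ 2 * (n a : ℝ) := by positivity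
      exact mul_le_mul_of_nonneg_left ht this
    linarith
  -- derivative of the energy
  set C₂ : ℝ := lam * ((∑ a, d a) * V * P₁ ^ 2 * absSum M) with hC₂
  have hB : ∀ t, T ≤ t → (∀ s ∈ Icc T t, E s ≤ E₁) → E t < E₁ := by
    intro t ht hs
    have hder : ∀ s ∈ Icc T t, HasDerivAt E
        (lam * Real.exp (-2 * s) * ∑ a, d a * w' s a * Real.exp (w s a) * ∑ c, M a c * Real.exp (w s c)) s := by
      intro s hs'
      refine energy_hasDerivAt M G d lam hG hGM w w' s (h1 s) fun a => ?_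
      have hcap := hA s hs'.1 fun r hr => hs r ⟨hr.1, hr.2.trans hs'.2⟩
      have h4 : capE n α m V T s (w s) = fun b => Real.exp (w s b) := by
        funext b
        unfold capE
        rw [min_eq_left (hcap b)]
      have h5 := h2 s a
      rw [h4] at h5
      exact h5
    have hbd : ∀ s ∈ Icc T t, lam * Real.exp (-2 * s) *
        ∑ a, d a * w' s a * Real.exp (w s a) * ∑ c, M a c * Real.exp (w s c) ≤ C₂ * Real.exp (-2 * s) := by
      intro s hs'
      have hb := energy_bounds G d hd lam γ hlam hγ hpos (w s) (w' s) E₁ (hs s hs')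
      exact energy_deriv_bound M d hd lam V P₁ s hlam (w s) (w' s) (fun a => hV ▸ (hb a).2)
        (fun a => (hb a).1.trans (hP a))
    have hF : AntitoneOn (fun s => E s + C₂ * Real.exp (-2 * s) / 2) (Icc T t) := by
      have hd2 : ∀ s : ℝ, HasDerivAt (fun s => C₂ * Real.exp (-2 * s) / 2) (-(C₂ * Real.exp (-2 * s))) s := by
        intro s
        have h6 : HasDerivAt (fun s : ℝ => -2 * s) (-2 * 1) s := (hasDerivAt_id s).const_mul (-2)
        have h7 := (h6.exp.const_mul C₂).div_const 2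
        have h8 : C₂ * (Real.exp (-2 * s) * (-2 * 1)) / 2 = -(C₂ * Real.exp (-2 * s)) := by ring
        rw [h8] at h7
        exact h7
      refine antitoneOn_of_deriv_nonpos (convex_Icc T t) ?_ ?_ ?_
      · exact (hEc.add (by fun_prop)).continuousOn
      · intro s hs'
        rw [interior_Icc] at hs'
        exact ((hder s ⟨hs'.1.le, hs'.2.le⟩).add (hd2 s)).differentiableAt.differentiableWithinAt
      · intro s hs'
        rw [interior_Icc] at hs'
        have hs'' : s ∈ Icc T t := ⟨hs'.1.le, hs'.2.le⟩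
        have h9 := ((hder s hs'').add (hd2 s)).deriv
        have h10 : deriv (fun s => E s + C₂ * Real.exp (-2 * s) / 2) s = _ := h9
        rw [h10]
        linarith [hbd s hs'']
    have h11 := hF ⟨le_rfl, ht⟩ ⟨ht, le_rfl⟩ ht
    simp only at h11
    have hC0 : 0 ≤ C₂ := by
      have e1 : 0 ≤ ∑ a, d a := Finset.sum_nonneg fun a _ => (hd a).le
      have e2 : 0 ≤ V := hV ▸ Real.sqrt_nonneg _
      have e3 : 0 ≤ absSum M := Finset.sum_nonneg fun a _ => Finset.sum_nonneg fun b _ => abs_nonneg _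
      positivity
    have h12 : 0 ≤ C₂ * Real.exp (-2 * t) / 2 := by
      have := (Real.exp_pos (-2 * t)).le
      positivity
    have h13 : E T ≤ E₁ - 1 := hET
    linarith
  have hlt : ∀ t, T ≤ t → E t < E₁ := by
    by_contra hcon
    push Not at hcon
    obtain ⟨t₁, ht₁, hEt₁⟩ := hcon
    have hET' : E T < E₁ := by
      have : E T ≤ E₁ - 1 := hET
      linarith
    set S : Set ℝ := {t | T ≤ t ∧ E t = E₁} with hS
    have hScl : IsClosed S := (isClosed_le continuous_const continuous_id).inter (isClosed_eq hEc continuous_const)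
    have hIVT : ∀ t, T ≤ t → E₁ ≤ E t → ∃ s ∈ S, s ≤ t := by
      intro t ht hEt
      obtain ⟨s, hs, hEs⟩ := intermediate_value_Icc ht hEc.continuousOn (show E₁ ∈ Icc (E T) (E t) from ⟨hET'.le, hEt⟩)
      exact ⟨s, ⟨hs.1, hEs⟩, hs.2⟩
    have hSne : S.Nonempty := by
      obtain ⟨s, hs, -⟩ := hIVT t₁ ht₁ hEt₁
      exact ⟨s, hs⟩
    have hSbd : BddBelow S := ⟨T, fun s hs => hs.1⟩
    have hmem := hScl.csInf_mem hSne hSbd
    set ts := sInf S with hts
    have hlt : E ts < E₁ := by
      refine hB ts hmem.1 fun s hs => ?_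
      by_contra hcon
      push Not at hcon
      obtain ⟨r, hr, hrs⟩ := hIVT s hs.1 hcon.le
      have h14 : ts ≤ r := csInf_le hSbd hr
      have h15 : s = ts := le_antisymm hs.2 (h14.trans hrs)
      rw [h15, hmem.2] at hcon
      exact lt_irrefl _ hcon
    exact absurd hmem.2 hlt.ne
  intro t ht
  refine ⟨hlt t ht, hA t ht fun s hs => (hlt s hs.1).le⟩

end Pool.Agent.MPad5d82
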