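import Mathlib

/-!
# MP_ad5d82_an : radial non-topological solutions, basic definitions
-/

set_option autoImplicit false

namespace Pool.Agent.MPad5d82

open MeasureTheory Set Filter Topology

/-- the weight `min 1 (exp (2 (t - T)))`. -/
noncomputable def gw (T t : ℝ) : ℝ := min 1 (Real.exp (2 * (t - T)))

/-- Right-hand side of the ODE system, in terms of the vector `e` of exponentials:
`lam * (exp (-2t) * (M diag(e) M e)_a - (M e)_a)`. -/
noncomputable def rhsE {ι : Type} [Fintype ι] (lam : ℝ) (M : Matrix ι ι ℝ) (t : ℝ)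
    (e : ι → ℝ) (a : ι) : ℝ :=
  lam * (Real.exp (-2 * t) * (∑ b, M a b * e b * ∑ c, M b c * e c) - ∑ b, M a b * e b)

/-- Right-hand side of the (true) ODE system `w'' = lam (exp(-2t) M W M e^w - M e^w)`. -/
noncomputable def rhs {ι : Type} [Fintype ι] (lam : ℝ) (M : Matrix ι ι ℝ) (t : ℝ)
    (w : ι → ℝ) (a : ι) : ℝ :=
  rhsE lam M t (fun b => Real.exp (w b)) a

/-- The cap for the exponent of component `a` at time `t`. -/
noncomputable def kap {ι : Type} (n : ι → ℕ) (α : ι → ℝ) (m V T : ℝ) (t : ℝ) (a : ι) : ℝ :=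
  min m (2 * n a * t + α a + 1 + V * max (t - T) 0)

/-- The capped exponentials, as a function of `w`. -/
noncomputable def capE {ι : Type} (n : ι → ℕ) (α : ι → ℝ) (m V T : ℝ) (t : ℝ)
    (w : ι → ℝ) (a : ι) : ℝ :=
  Real.exp (min (w a) (kap n α m V T t a))

/-- sum of absolute values of all entries of `M`. -/
noncomputable def absSum {ι : Type} [Fintype ι] (M : Matrix ι ι ℝ) : ℝ := ∑ a, ∑ b, |M a b|

/-- squared Euclidean distance on `ℝ × ℝ`. -/
def r2 (q x : ℝ × ℝ) : ℝ := (x.1 - q.1) ^ 2 + (x.2 - q.2) ^ 2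

end Pool.Agent.MPad5d82
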