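import Pool.Agent.Lib.MP_ad5d82_an.h24.Rad.PDefs

set_option autoImplicit false

namespace Pool.Agent.MPad5d82

open MeasureTheory Set Filter Topology

/-- Derivative of the radial profile in the variable `ρ = r²`, when no vortices are present. -/
theorem F_deriv {ι : Type} [Fintype ι] (M : Matrix ι ι ℝ) (lam : ℝ) (α : ι → ℝ)
    (w w' : ℝ → ι → ℝ) (C : ℝ)
    (h1 : ∀ t a, HasDerivAt (fun s => w s a) (w' t a) t)
    (h2 : ∀ t a, HasDerivAt (fun s => w' s a) (rhs lam M t (w t) a) t)
    (hw : ∀ t ≤ 0, ∀ a, |w t a - (2 * (1 : ℕ) * t + α a)| ≤ C * Real.exp (2 * t) ∧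
          |w' t a - 2 * (1 : ℕ)| ≤ C * Real.exp (2 * t))
    (F : ℝ → ι → ℝ) (hF : ∀ ρ, F ρ = fun a => if ρ ≤ 0 then α a else w (Real.log ρ / 2) a - Real.log ρ) :
    ContinuousOn F (Ici 0) ∧
    ∀ ρ : ℝ, 0 < ρ → HasDerivAt F ((1 / (4 * ρ)) • ∫ s in (0:ℝ)..ρ,
      (fun y : ι → ℝ => fun a => lam * (∑ b, ∑ c, M a b * Real.exp (y b) * M b c * Real.exp (y c)
        - ∑ b, M a b * Real.exp (y b))) (F s)) ρ := by
  set f : (ι → ℝ) → (ι → ℝ) := fun y : ι → ℝ => fun a => lam * (∑ b, ∑ c, M a b * Real.exp (y b) * M b c * Real.exp (y c)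
        - ∑ b, M a b * Real.exp (y b)) with hf
  have hfc : Continuous f := by
    rw [hf]; fun_prop
  have hwc : ∀ a, Continuous (fun t => w t a) := fun a =>
    continuous_iff_continuousAt.mpr fun t => (h1 t a).continuousAt
  -- limit of F at 0
  have hexp : ∀ ρ : ℝ, 0 < ρ → Real.exp (2 * (Real.log ρ / 2)) = ρ := by
    intro ρ hρ
    rw [show 2 * (Real.log ρ / 2) = Real.log ρ by ring, Real.exp_log hρ]
  have hFpos : ∀ ρ : ℝ, 0 < ρ → F ρ = fun a => w (Real.log ρ / 2) a - Real.log ρ := by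
    intro ρ hρ
    rw [hF]
    funext a
    rw [if_neg (not_le.mpr hρ)]
  have hF0 : F 0 = α := by
    rw [hF]; funext a; rw [if_pos le_rfl]
  have hcont : ContinuousOn F (Ici 0) := by
    rw [continuousOn_pi]
    intro a x hx
    rcases eq_or_lt_of_le (show (0:ℝ) ≤ x from hx) with h0 | h0
    · subst h0
      have e1 : Tendsto (fun ρ : ℝ => |C| * ρ) (𝓝[Ici 0] 0) (𝓝 0) := by
        have : Tendsto (fun ρ : ℝ => |C| * ρ) (𝓝 0) (𝓝 (|C| * 0)) := (continuous_const.mul continuous_id).tendsto 0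
        rw [mul_zero] at this
        exact this.mono_left nhdsWithin_le_nhds
      have e2 : Tendsto (fun ρ : ℝ => F ρ a - α a) (𝓝[Ici 0] 0) (𝓝 0) := by
        refine squeeze_zero_norm' ?_ e1
        have hlt : ∀ᶠ ρ : ℝ in 𝓝[Ici 0] (0:ℝ), ρ < 1 := nhdsWithin_le_nhds (Iio_mem_nhds (by norm_num))
        filter_upwards [hlt, self_mem_nhdsWithin] with ρ h1' h2'
        rcases eq_or_lt_of_le (show (0:ℝ) ≤ ρ from h2') with h3 | h3
        · subst h3
          rw [hF0]; simp
        · rw [hFpos ρ h3]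
          have hlog : Real.log ρ / 2 ≤ 0 := by
            have := Real.log_nonpos h3.le h1'.le
            linarith
          have h4 := (hw _ hlog a).1
          rw [hexp ρ h3] at h4
          rw [Real.norm_eq_abs]
          have h5 : w (Real.log ρ / 2) a - Real.log ρ - α a =
              w (Real.log ρ / 2) a - (2 * ((1 : ℕ) : ℝ) * (Real.log ρ / 2) + α a) := by
            push_cast; ring
          rw [h5]
          refine h4.trans ?_
          have := le_abs_self C
          have := h3.le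
          gcongr
      have e3 : Tendsto (fun ρ : ℝ => (F ρ a - α a) + α a) (𝓝[Ici 0] 0) (𝓝 (0 + α a)) := e2.add_const _
      simp only [sub_add_cancel, zero_add] at e3
      show Tendsto (fun ρ => F ρ a) (𝓝[Ici 0] 0) (𝓝 (F 0 a))
      rw [hF0]
      exact e3
    · have e1 : ContinuousAt (fun ρ => w (Real.log ρ / 2) a - Real.log ρ) x := by
        have hl : ContinuousAt Real.log x := Real.continuousAt_log h0.ne'
        exact ((hwc a).continuousAt.comp (hl.div_const 2)).sub hl
      have e2 : (fun ρ => F ρ a) =ᶠ[𝓝 x] (fun ρ => w (Real.log ρ / 2) a - Real.log ρ) := by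
        filter_upwards [lt_mem_nhds h0] with ρ hρ
        rw [hFpos ρ hρ]
      exact (e1.congr e2.symm).continuousWithinAt
  refine ⟨hcont, ?_⟩
  -- the integrand is continuous on Ici 0
  have hgc : ContinuousOn (fun s => f (F s)) (Ici 0) := hfc.comp_continuousOn hcont
  have hval : ∀ s : ℝ, 0 < s → ∀ a, rhs lam M (Real.log s / 2) (w (Real.log s / 2)) a = s * f (F s) a := by
    intro s hs a
    have hE : Real.exp (-2 * (Real.log s / 2)) = s⁻¹ := by
      rw [show -2 * (Real.log s / 2) = -Real.log s by ring, Real.exp_neg, Real.exp_log hs]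
    have hE2 : ∀ b, Real.exp (F s b) = Real.exp (w (Real.log s / 2) b) / s := by
      intro b
      rw [hFpos s hs, Real.exp_sub, Real.exp_log hs]
    simp only [hf, rhs, rhsE, hE, hE2]
    have e1 : ∀ b, ∑ c, M a b * (Real.exp (w (Real.log s / 2) b) / s) * M b c *
        (Real.exp (w (Real.log s / 2) c) / s) =
        (M a b * Real.exp (w (Real.log s / 2) b) *
          ∑ c, M b c * Real.exp (w (Real.log s / 2) c)) * s⁻¹ * s⁻¹ := by
      intro b
      rw [Finset.mul_sum, Finset.sum_mul, Finset.sum_mul]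
      refine Finset.sum_congr rfl fun c _ => ?_
      field_simp
    simp only [e1]
    have e2 : ∑ b, M a b * (Real.exp (w (Real.log s / 2) b) / s) =
        (∑ b, M a b * Real.exp (w (Real.log s / 2) b)) * s⁻¹ := by
      rw [Finset.sum_mul]
      refine Finset.sum_congr rfl fun b _ => ?_
      field_simp
    rw [e2, ← Finset.sum_mul, ← Finset.sum_mul]
    field_simp
  -- derivative of w' (log s / 2)
  have hd : ∀ a, ∀ s : ℝ, 0 < s → HasDerivAt (fun s => w' (Real.log s / 2) a) ((1/2) * f (F s) a) s := by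
    intro a s hs
    have e1 : HasDerivAt (fun s => Real.log s / 2) (s⁻¹ / 2) s := (Real.hasDerivAt_log hs.ne').div_const 2
    have e2 := (h2 (Real.log s / 2) a).comp s e1
    rw [hval s hs a] at e2
    have e3 : s * f (F s) a * (s⁻¹ / 2) = (1/2) * f (F s) a := by field_simp
    rw [e3] at e2
    exact e2
  have hga : ∀ a, ContinuousOn (fun s => f (F s) a) (Ici 0) := fun a =>
    (continuous_apply a).comp_continuousOn hgc
  have hint : ∀ a, ∀ x y : ℝ, 0 ≤ x → 0 ≤ y → IntervalIntegrable (fun s => f (F s) a) volume x y := by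
    intro a x y hx hy
    refine ((hga a).mono ?_).intervalIntegrable
    intro s hs
    have := hs.1
    exact le_trans (le_min hx hy) this
  have hkey : ∀ a, ∀ ρ : ℝ, 0 < ρ → w' (Real.log ρ / 2) a - 2 = (1/2) * ∫ s in (0:ℝ)..ρ, f (F s) a := by
    intro a ρ hρ
    have e1 : ∀ ε : ℝ, 0 < ε → ε ≤ ρ → w' (Real.log ρ / 2) a - w' (Real.log ε / 2) a =
        (1/2) * (∫ s in (0:ℝ)..ρ, f (F s) a) - (1/2) * ∫ s in (0:ℝ)..ε, f (F s) a := by
      intro ε hε hερ
      have e2 := intervalIntegral.integral_eq_sub_of_hasDerivAt (a := ε) (b := ρ)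
        (f := fun s => w' (Real.log s / 2) a) (f' := fun s => (1/2) * f (F s) a)
        (fun s hs => by
          rw [uIcc_of_le hερ] at hs
          exact hd a s (lt_of_lt_of_le hε hs.1))
        ((hint a ε ρ hε.le hρ.le).const_mul _)
      rw [← e2, intervalIntegral.integral_const_mul, ← mul_sub,
        intervalIntegral.integral_interval_sub_left (hint a 0 ρ le_rfl hρ.le) (hint a 0 ε le_rfl hε.le)]
    have l1 : Tendsto (fun ε : ℝ => w' (Real.log ρ / 2) a - w' (Real.log ε / 2) a) (𝓝[>] 0)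
        (𝓝 (w' (Real.log ρ / 2) a - 2)) := by
      refine Tendsto.const_sub _ ?_
      have e3 : Tendsto (fun ε : ℝ => w' (Real.log ε / 2) a - 2) (𝓝[>] 0) (𝓝 0) := by
        have e4 : Tendsto (fun ρ : ℝ => |C| * ρ) (𝓝[>] 0) (𝓝 0) := by
          have : Tendsto (fun ρ : ℝ => |C| * ρ) (𝓝 0) (𝓝 (|C| * 0)) := (continuous_const.mul continuous_id).tendsto 0
          rw [mul_zero] at this
          exact this.mono_left nhdsWithin_le_nhds
        refine squeeze_zero_norm' ?_ e4
        have hlt : ∀ᶠ ρ : ℝ in 𝓝[>] (0:ℝ), ρ < 1 := nhdsWithin_le_nhds (Iio_mem_nhds (by norm_num))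
        filter_upwards [hlt, self_mem_nhdsWithin] with ε h1' h2'
        have h2'' : 0 < ε := h2'
        have hlog : Real.log ε / 2 ≤ 0 := by
          have := Real.log_nonpos h2''.le h1'.le
          linarith
        have h4 := (hw _ hlog a).2
        rw [hexp ε h2''] at h4
        rw [Real.norm_eq_abs]
        have h5 : (2 * ((1 : ℕ) : ℝ)) = 2 := by norm_num
        rw [h5] at h4
        refine h4.trans ?_
        have := le_abs_self C
        have := h2''.le
        gcongr
      have e5 := e3.add_const 2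
      simpa using e5
    have l2 : Tendsto (fun ε : ℝ => (1/2) * (∫ s in (0:ℝ)..ρ, f (F s) a) - (1/2) * ∫ s in (0:ℝ)..ε, f (F s) a) (𝓝[>] 0)
        (𝓝 ((1/2) * (∫ s in (0:ℝ)..ρ, f (F s) a) - (1/2) * 0)) := by
      refine Tendsto.const_sub _ (Tendsto.const_mul _ ?_)
      have e6 : ContinuousOn (fun ε : ℝ => ∫ s in (0:ℝ)..ε, f (F s) a) (Icc 0 ρ) := by
        have := intervalIntegral.continuousOn_primitive_interval (μ := volume) (a := 0) (b := ρ)
          (f := fun s => f (F s) a) (by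
            have := hint a 0 ρ le_rfl hρ.le
            rw [uIcc_of_le hρ.le]
            exact (intervalIntegrable_iff_integrableOn_Icc_of_le hρ.le).mp this)
        rwa [uIcc_of_le hρ.le] at this
      have e7 := (e6 0 (left_mem_Icc.mpr hρ.le)).tendsto
      simp only [intervalIntegral.integral_same] at e7
      have e8 : 𝓝[>] (0:ℝ) ≤ 𝓝[Icc 0 ρ] 0 := by
        have : 𝓝[Ioc 0 ρ] (0:ℝ) = 𝓝[>] 0 := nhdsWithin_Ioc_eq_nhdsGT hρ
        rw [← this]
        exact nhdsWithin_mono _ Ioc_subset_Icc_self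
      exact e7.mono_left e8
    rw [mul_zero, sub_zero] at l2
    refine tendsto_nhds_unique l1 (l2.congr' ?_)
    have hle : ∀ᶠ ε : ℝ in 𝓝[>] (0:ℝ), ε < ρ := nhdsWithin_le_nhds (Iio_mem_nhds hρ)
    filter_upwards [hle, self_mem_nhdsWithin] with ε h1' h2'
    exact (e1 ε h2' h1'.le).symm
  intro ρ hρ
  rw [hasDerivAt_pi]
  intro a
  have e1 : HasDerivAt (fun s => Real.log s / 2) (ρ⁻¹ / 2) ρ := (Real.hasDerivAt_log hρ.ne').div_const 2
  have e2 := ((h1 (Real.log ρ / 2) a).comp ρ e1).sub (Real.hasDerivAt_log hρ.ne')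
  have e3 : (fun s => F s a) =ᶠ[𝓝 ρ] (fun s => w (Real.log s / 2) a - Real.log s) := by
    filter_upwards [lt_mem_nhds hρ] with s hs
    rw [hFpos s hs]
  have e4 : HasDerivAt (fun s => F s a) (w' (Real.log ρ / 2) a * (ρ⁻¹ / 2) - ρ⁻¹) ρ :=
    e2.congr_of_eventuallyEq e3
  have e5 : ((1 / (4 * ρ)) • ∫ s in (0:ℝ)..ρ, f (F s)) a = (1 / (4 * ρ)) * ∫ s in (0:ℝ)..ρ, f (F s) a := by
    rw [Pi.smul_apply, smul_eq_mul]
    congr 1
    have hi : IntervalIntegrable (fun s => f (F s)) volume 0 ρ := by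
      refine (hgc.mono ?_).intervalIntegrable
      intro s hs
      rw [uIcc_of_le hρ.le] at hs
      exact hs.1
    rw [intervalIntegral.integral_of_le hρ.le, intervalIntegral.integral_of_le hρ.le]
    have hi' := (intervalIntegrable_iff_integrableOn_Ioc_of_le hρ.le).mp hi
    exact (ContinuousLinearMap.integral_comp_comm (ContinuousLinearMap.proj (R := ℝ) (φ := fun _ : ι => ℝ) a) hi').symm
  show HasDerivAt (fun s => F s a) (((1 / (4 * ρ)) • ∫ s in (0:ℝ)..ρ, f (F s)) a) ρ
  rw [e5]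
  have e6 := hkey a ρ hρ
  have e7 : w' (Real.log ρ / 2) a * (ρ⁻¹ / 2) - ρ⁻¹ = (1 / (4 * ρ)) * ∫ s in (0:ℝ)..ρ, f (F s) a := by
    have e8 : w' (Real.log ρ / 2) a = 2 + (1/2) * ∫ s in (0:ℝ)..ρ, f (F s) a := by linarith
    rw [e8]
    field_simp
    ring
  rw [← e7]
  exact e4

end Pool.Agent.MPad5d82
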