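import Pool.Agent.Lib.MP_ad5d82_an.h24.Rad.Defs

set_option autoImplicit false

namespace Pool.Agent.MPad5d82

open MeasureTheory Set Filter Topology

/-- The energy matrix `G = D M⁻¹ = D S⁻¹ D` (`S = D M` positive definite): symmetric, positive definite (uniformly),
`G M = D`; in particular `M` is invertible. -/
theorem exists_G {ι : Type} [Fintype ι] [DecidableEq ι] (M : Matrix ι ι ℝ) (d : ι → ℝ) (hd : ∀ a, 0 < d a)
    (hS : (Matrix.of fun a b => d a * M a b).PosDef) :
    ∃ (G : Matrix ι ι ℝ) (γ : ℝ), 0 < γ ∧ (∀ a b, G a b = G b a) ∧ G * M = Matrix.diagonal d ∧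
      (∀ (v : ι → ℝ) (a : ι), γ * v a ^ 2 ≤ ∑ b, ∑ c, v b * G b c * v c) ∧ IsUnit M.det := by
  set D : Matrix ι ι ℝ := Matrix.diagonal d with hD
  set S : Matrix ι ι ℝ := Matrix.of fun a b => d a * M a b with hSdef
  have hSM : S = D * M := by
    ext a b
    rw [hD, Matrix.diagonal_mul]
    rfl
  have hDdet : D.det ≠ 0 := by
    rw [hD, Matrix.det_diagonal]
    exact Finset.prod_ne_zero_iff.2 fun a _ => (hd a).ne'
  have hMdet : IsUnit M.det := by
    have h1 : S.det ≠ 0 := hS.det_pos.ne'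
    rw [hSM, Matrix.det_mul] at h1
    exact isUnit_iff_ne_zero.2 (right_ne_zero_of_mul h1)
  have hDu : IsUnit D.det := isUnit_iff_ne_zero.2 hDdet
  have hSu : IsUnit S.det := isUnit_iff_ne_zero.2 hS.det_pos.ne'
  -- the matrix `G`
  set G : Matrix ι ι ℝ := D * S⁻¹ * D with hG
  have hGM : G * M = D := by
    rw [hG, mul_assoc, ← hSM, mul_assoc, Matrix.nonsing_inv_mul S hSu, mul_one]
  have hinv : S⁻¹.PosDef := hS.inv
  have hDt : D.transpose = D := by rw [hD, Matrix.diagonal_transpose]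
  have hGpos : G.PosDef := by
    have h1 : D.conjTranspose = D := by
      rw [hD, Matrix.diagonal_conjTranspose]
      congr 1
    have hinj : Function.Injective D.mulVec := by
      rw [Matrix.mulVec_injective_iff_isUnit]
      exact (Matrix.isUnit_iff_isUnit_det D).2 hDu
    have h2 := hinv.conjTranspose_mul_mul_same hinj
    rw [h1] at h2
    exact h2
  have hsymm : ∀ a b, G a b = G b a := by
    intro a b
    have h1 := hGpos.isHermitian.apply a b
    simpa using h1.symm
  -- lower bounds for the quadratic form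
  have hquad : ∀ v : ι → ℝ, ∑ b, ∑ c, v b * G b c * v c = v ⬝ᵥ G.mulVec v := by
    intro v
    simp only [dotProduct, Matrix.mulVec, Finset.mul_sum, mul_assoc]
  have hGu : IsUnit G.det := isUnit_iff_ne_zero.2 hGpos.det_pos.ne'
  have hHpos : G⁻¹.PosDef := hGpos.inv
  have hGt : G.transpose = G := by
    ext a b
    exact hsymm b a
  have key : ∀ (v : ι → ℝ) (a : ι), v a ^ 2 ≤ G⁻¹ a a * ∑ b, ∑ c, v b * G b c * v c := by
    intro v a
    have hHa : 0 < G⁻¹ a a := hHpos.diag_pos
    set x : ι → ℝ := G⁻¹.mulVec (Pi.single a 1) with hx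
    have hGx : G.mulVec x = Pi.single a 1 := by
      rw [hx, Matrix.mulVec_mulVec, Matrix.mul_nonsing_inv G hGu, Matrix.one_mulVec]
    have hxa : x a = G⁻¹ a a := by
      rw [hx, Matrix.mulVec_single_one]
      rfl
    have hxv : x ⬝ᵥ G.mulVec v = v a := by
      rw [Matrix.dotProduct_mulVec, ← Matrix.mulVec_transpose, hGt, hGx, single_one_dotProduct]
    set t : ℝ := v a / G⁻¹ a a with ht
    have h0 : 0 ≤ (v - t • x) ⬝ᵥ G.mulVec (v - t • x) := by
      have := hGpos.posSemidef.dotProduct_mulVec_nonneg (v - t • x)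
      simpa using this
    rw [Matrix.mulVec_sub, Matrix.mulVec_smul, hGx, sub_dotProduct, dotProduct_sub,
      dotProduct_sub, smul_dotProduct, smul_dotProduct, dotProduct_smul, dotProduct_smul,
      dotProduct_single_one, dotProduct_single_one, hxv, hxa] at h0
    simp only [smul_eq_mul] at h0
    rw [hquad]
    have h1 : t * G⁻¹ a a = v a := by
      rw [ht]
      field_simp
    have h2 : 0 ≤ v ⬝ᵥ G.mulVec v - t * v a := by
      have : t * (t * G⁻¹ a a) = t * v a := by rw [h1]
      linarith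
    have h3 : G⁻¹ a a * (t * v a) = v a ^ 2 := by
      rw [← mul_assoc, mul_comm (G⁻¹ a a) t, h1]
      ring
    nlinarith
  have hdiag : ∀ a, 0 < G⁻¹ a a := fun a => hHpos.diag_pos
  have htr : ∀ a, G⁻¹ a a ≤ ∑ b, G⁻¹ b b + 1 := fun a => by
    have := Finset.single_le_sum (f := fun b => G⁻¹ b b) (fun i _ => (hdiag i).le)
      (Finset.mem_univ a)
    exact this.trans (by linarith)
  have hsum : 0 ≤ ∑ b, G⁻¹ b b := Finset.sum_nonneg fun i _ => (hdiag i).le
  have hpos : 0 < ∑ b, G⁻¹ b b + 1 := by linarith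
  refine ⟨G, 1 / (∑ b, G⁻¹ b b + 1), by positivity, hsymm, hGM, fun v a => ?_, hMdet⟩
  have hq0 : 0 ≤ ∑ b, ∑ c, v b * G b c * v c := by
    rw [hquad]
    have := hGpos.posSemidef.dotProduct_mulVec_nonneg v
    simpa using this
  rw [div_mul_eq_mul_div, one_mul, div_le_iff₀ hpos]
  calc v a ^ 2 ≤ G⁻¹ a a * ∑ b, ∑ c, v b * G b c * v c := key v a
    _ ≤ (∑ b, G⁻¹ b b + 1) * ∑ b, ∑ c, v b * G b c * v c :=
        mul_le_mul_of_nonneg_right (htr a) hq0
    _ = _ := by ring

end Pool.Agent.MPad5d82
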