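import Pool.Agent.Lib.MP_ad5d82_an.h24.Rad.PDefs

set_option autoImplicit false

namespace Pool.Agent.MPad5d82

open MeasureTheory Set Filter Topology

/-- first directional derivative of a test function. -/
theorem ibp_first (φ : ℝ × ℝ → ℝ) (e : ℝ × ℝ) (hφ : ContDiff ℝ ((⊤ : ℕ∞) : WithTop ℕ∞) φ)
    (hc : HasCompactSupport φ) :
    ContDiff ℝ ((⊤ : ℕ∞) : WithTop ℕ∞) (fun y => fderiv ℝ φ y e) ∧
      HasCompactSupport (fun y => fderiv ℝ φ y e) ∧
      ∀ x, HasLineDerivAt ℝ φ (fderiv ℝ φ x e) x e := by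
  refine ⟨?_, ?_, ?_⟩
  · have h : ContDiff ℝ ((⊤ : ℕ∞) : WithTop ℕ∞) (fderiv ℝ φ) :=
      hφ.fderiv_right (m := ((⊤ : ℕ∞) : WithTop ℕ∞)) (by simp)
    exact h.clm_apply contDiff_const
  · exact hc.fderiv_apply ℝ e
  · intro x
    have hd : DifferentiableAt ℝ φ x := (hφ.differentiable (by simp)) x
    exact hd.hasFDerivAt.hasLineDerivAt e

/-- the second derivative in direction `e` is the iterated directional derivative. -/
theorem ibp_second (φ : ℝ × ℝ → ℝ) (e : ℝ × ℝ) (hφ : ContDiff ℝ ((⊤ : ℕ∞) : WithTop ℕ∞) φ) (x : ℝ × ℝ) :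
    iteratedFDeriv ℝ 2 φ x (![e, e] : Fin 2 → ℝ × ℝ) = fderiv ℝ (fun y => fderiv ℝ φ y e) x e := by
  have h : ContDiff ℝ ((⊤ : ℕ∞) : WithTop ℕ∞) (fderiv ℝ φ) :=
    hφ.fderiv_right (m := ((⊤ : ℕ∞) : WithTop ℕ∞)) (by simp)
  have hd : DifferentiableAt ℝ (fderiv ℝ φ) x := (h.differentiable (by simp)) x
  rw [iteratedFDeriv_two_apply, fderiv_clm_apply hd (differentiableAt_const e)]
  simp

/-- Two integrations by parts in the direction `e`.
Proof: `iteratedFDeriv ℝ 2 φ x ![e,e] = fderiv (fun y => fderiv φ y e) x e`; apply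
`integral_bilinear_hasLineDerivAt_right_eq_neg_left_of_integrable` (or the scalar `mul` version) twice;
all integrands are integrable since `φ` and its derivatives are continuous with compact support,
`v, v1` continuous, `v11` locally integrable. -/
theorem ibp2 (v v1 v11 : ℝ × ℝ → ℝ) (e : ℝ × ℝ) (hv : Continuous v) (hv1 : Continuous v1)
    (hv11 : LocallyIntegrable v11 volume)
    (h1 : ∀ x, HasLineDerivAt ℝ v (v1 x) x e) (h2 : ∀ x, HasLineDerivAt ℝ v1 (v11 x) x e)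
    (φ : ℝ × ℝ → ℝ) (hφ : ContDiff ℝ ((⊤ : ℕ∞) : WithTop ℕ∞) φ) (hc : HasCompactSupport φ) :
    ∫ x, v x * iteratedFDeriv ℝ 2 φ x (![e, e] : Fin 2 → ℝ × ℝ) = ∫ x, v11 x * φ x := by
  obtain ⟨hg1, hg1c, hd1⟩ := ibp_first φ e hφ hc
  obtain ⟨hg2, hg2c, hd2⟩ := ibp_first (fun y => fderiv ℝ φ y e) e hg1 hg1c
  have e1 : ∫ x, v x * iteratedFDeriv ℝ 2 φ x (![e, e] : Fin 2 → ℝ × ℝ) =
      ∫ x, v x * fderiv ℝ (fun y => fderiv ℝ φ y e) x e := by
    congr 1
    ext x
    rw [ibp_second φ e hφ x]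
  have e2 : ∫ x, v x * fderiv ℝ (fun y => fderiv ℝ φ y e) x e =
      - ∫ x, v1 x * fderiv ℝ φ x e := by
    refine integral_bilinear_hasLineDerivAt_right_eq_neg_left_of_integrable
      (μ := (volume : Measure (ℝ × ℝ))) (B := ContinuousLinearMap.mul ℝ ℝ) (v := e)
      (f := v) (f' := v1) (g := fun y => fderiv ℝ φ y e)
      (g' := fun x => fderiv ℝ (fun y => fderiv ℝ φ y e) x e) ?_ ?_ ?_ ?_ ?_
    · exact (hv1.mul hg1.continuous).integrable_of_hasCompactSupport hg1c.mul_left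
    · exact (hv.mul hg2.continuous).integrable_of_hasCompactSupport hg2c.mul_left
    · exact (hv.mul hg1.continuous).integrable_of_hasCompactSupport hg1c.mul_left
    · exact fun x _ => h1 x
    · exact fun x _ => hd2 x
  have e3 : ∫ x, v1 x * fderiv ℝ φ x e = - ∫ x, v11 x * φ x := by
    refine integral_bilinear_hasLineDerivAt_right_eq_neg_left_of_integrable
      (μ := (volume : Measure (ℝ × ℝ))) (B := ContinuousLinearMap.mul ℝ ℝ) (v := e)
      (f := v1) (f' := v11) (g := φ) (g' := fun x => fderiv ℝ φ x e) ?_ ?_ ?_ ?_ ?_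
    · have := hv11.integrable_smul_left_of_hasCompactSupport hφ.continuous hc
      refine this.congr (ae_of_all _ (fun x => ?_))
      simp [mul_comm]
    · exact (hv1.mul hg1.continuous).integrable_of_hasCompactSupport hg1c.mul_left
    · exact (hv1.mul hφ.continuous).integrable_of_hasCompactSupport hc.mul_left
    · exact fun x _ => h2 x
    · exact fun x _ => hd1 x
  rw [e1, e2, e3, neg_neg]

/-- `Lap φ` is continuous with compact support. -/
theorem lap_cont (φ : ℝ × ℝ → ℝ) (hφ : ContDiff ℝ ((⊤ : ℕ∞) : WithTop ℕ∞) φ) (hc : HasCompactSupport φ) :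
    Continuous (Lap φ) ∧ HasCompactSupport (Lap φ) := by
  have key : ∀ e : ℝ × ℝ, Continuous (fun x => iteratedFDeriv ℝ 2 φ x (![e, e] : Fin 2 → ℝ × ℝ)) ∧
      HasCompactSupport (fun x => iteratedFDeriv ℝ 2 φ x (![e, e] : Fin 2 → ℝ × ℝ)) := by
    intro e
    obtain ⟨hg1, hg1c, _⟩ := ibp_first φ e hφ hc
    obtain ⟨hg2, hg2c, _⟩ := ibp_first (fun y => fderiv ℝ φ y e) e hg1 hg1c
    have he : (fun x => iteratedFDeriv ℝ 2 φ x (![e, e] : Fin 2 → ℝ × ℝ)) =
        fun x => fderiv ℝ (fun y => fderiv ℝ φ y e) x e := by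
      ext x
      exact ibp_second φ e hφ x
    rw [he]
    exact ⟨hg2.continuous, hg2c⟩
  exact ⟨(key (1, 0)).1.add (key (0, 1)).1, (key (1, 0)).2.add (key (0, 1)).2⟩

/-- Constants are harmonic: `∫ Lap φ = 0`. -/
theorem integral_lap_eq_zero (φ : ℝ × ℝ → ℝ) (hφ : ContDiff ℝ ((⊤ : ℕ∞) : WithTop ℕ∞) φ)
    (hc : HasCompactSupport φ) : ∫ x, Lap φ x = 0 := by
  have key : ∀ e : ℝ × ℝ, Integrable (fun x => iteratedFDeriv ℝ 2 φ x (![e, e] : Fin 2 → ℝ × ℝ)) ∧
      ∫ x, iteratedFDeriv ℝ 2 φ x (![e, e] : Fin 2 → ℝ × ℝ) = 0 := by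
    intro e
    obtain ⟨hg1, hg1c, _⟩ := ibp_first φ e hφ hc
    obtain ⟨hg2, hg2c, _⟩ := ibp_first (fun y => fderiv ℝ φ y e) e hg1 hg1c
    have he : (fun x => iteratedFDeriv ℝ 2 φ x (![e, e] : Fin 2 → ℝ × ℝ)) =
        fun x => fderiv ℝ (fun y => fderiv ℝ φ y e) x e := by
      ext x
      exact ibp_second φ e hφ x
    constructor
    · rw [he]
      exact hg2.continuous.integrable_of_hasCompactSupport hg2c
    · have h := ibp2 (fun _ => 1) (fun _ => 0) (fun _ => 0) e continuous_const continuous_const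
        (continuous_const.locallyIntegrable)
        (fun x => by
          have := (hasFDerivAt_const (1 : ℝ) x).hasLineDerivAt (𝕜 := ℝ) e
          simpa using this)
        (fun x => by
          have := (hasFDerivAt_const (0 : ℝ) x).hasLineDerivAt (𝕜 := ℝ) e
          simpa using this) φ hφ hc
      simpa using h
  unfold Lap
  rw [integral_add (key (1, 0)).1 (key (0, 1)).1, (key (1, 0)).2, (key (0, 1)).2, add_zero]

end Pool.Agent.MPad5d82
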