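import Pool.Agent.Lib.MP_ad5d82_an.h24.Rad.PDefs

set_option autoImplicit false

namespace Pool.Agent.MPad5d82

open MeasureTheory Set Filter Topology

/-- If `g ≥ 0` is continuous and integrable on `ℝ`, then `x ↦ g(log|x-q|)/|x-q|²` is integrable on the plane
(polar coordinates: the integral is `2π ∫ g(log r) dr/r = 2π ∫ g(t) dt`). -/
theorem integrable_plane (q : ℝ × ℝ) (g : ℝ → ℝ) (hg : Continuous g) (hg0 : ∀ t, 0 ≤ g t) (hi : Integrable g volume) :
    Integrable (fun x : ℝ × ℝ => g (Real.log (r2 q x) / 2) / r2 q x) volume := by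
  -- reduce to `q = 0`
  set H : ℝ × ℝ → ℝ := fun x => g (Real.log (x.1 ^ 2 + x.2 ^ 2) / 2) / (x.1 ^ 2 + x.2 ^ 2) with hH
  have hHm : Measurable H := by
    have h1 : Measurable (fun x : ℝ × ℝ => x.1 ^ 2 + x.2 ^ 2) :=
      (measurable_fst.pow_const 2).add (measurable_snd.pow_const 2)
    exact (hg.measurable.comp ((Real.measurable_log.comp h1).div_const 2)).div h1
  have hH0 : ∀ x, 0 ≤ H x := fun x => div_nonneg (hg0 _) (by positivity)
  suffices hmain : Integrable H volume by
    have h2 := hmain.comp_sub_right q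
    refine h2.congr (Filter.Eventually.of_forall fun x => ?_)
    simp [hH, r2]
  refine ⟨hHm.aestronglyMeasurable, ?_⟩
  rw [hasFiniteIntegral_iff_ofReal (Filter.Eventually.of_forall hH0)]
  rw [← lintegral_comp_polarCoord_symm]
  -- rewrite the integrand on the target
  have hcongr : ∫⁻ p in polarCoord.target, ENNReal.ofReal p.1 • ENNReal.ofReal (H (polarCoord.symm p))
      = ∫⁻ p in (Ioi (0 : ℝ)) ×ˢ (Ioo (-Real.pi) Real.pi),
          (fun r : ℝ => ENNReal.ofReal (g (Real.log r) / r)) p.1 := by
    rw [polarCoord_target]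
    refine setLIntegral_congr_fun (measurableSet_Ioi.prod measurableSet_Ioo) ?_
    rintro ⟨r, θ⟩ ⟨hr, -⟩
    have hr : 0 < r := hr
    simp only [smul_eq_mul, polarCoord_symm_apply, hH]
    have e1 : (r * Real.cos θ) ^ 2 + (r * Real.sin θ) ^ 2 = r ^ 2 := by
      have := Real.sin_sq_add_cos_sq θ
      nlinarith [this]
    rw [e1, ← ENNReal.ofReal_mul hr.le]
    congr 1
    rw [Real.log_pow]
    push_cast
    rw [show (2 * Real.log r / 2) = Real.log r by ring]
    field_simp
  rw [hcongr]
  have hm : Measurable (fun r : ℝ => ENNReal.ofReal (g (Real.log r) / r)) :=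
    ((hg.measurable.comp Real.measurable_log).div measurable_id).ennreal_ofReal
  rw [Measure.volume_eq_prod, ← Measure.prod_restrict]
  have hm2 : AEMeasurable (fun p : ℝ × ℝ => (fun r : ℝ => ENNReal.ofReal (g (Real.log r) / r)) p.1)
      ((volume.restrict (Ioi (0 : ℝ))).prod (volume.restrict (Ioo (-Real.pi) Real.pi))) :=
    (hm.comp measurable_fst).aemeasurable
  rw [lintegral_prod _ hm2]
  simp only [lintegral_const, Measure.restrict_apply MeasurableSet.univ, univ_inter]
  rw [lintegral_mul_const _ hm]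
  refine ENNReal.mul_lt_top ?_ (by simp [Real.volume_Ioo])
  -- substitution r = e^t
  have hsub := lintegral_image_eq_lintegral_abs_deriv_mul (s := (univ : Set ℝ)) (f := Real.exp) (f' := Real.exp)
    MeasurableSet.univ (fun x _ => (Real.hasDerivAt_exp x).hasDerivWithinAt)
    (Real.exp_injective.injOn) (fun r : ℝ => ENNReal.ofReal (g (Real.log r) / r))
  rw [image_univ, Real.range_exp] at hsub
  rw [hsub]
  have : ∫⁻ x in (univ : Set ℝ), ENNReal.ofReal |Real.exp x| * ENNReal.ofReal (g (Real.log (Real.exp x)) / Real.exp x)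
      = ∫⁻ x, ENNReal.ofReal (g x) := by
    rw [Measure.restrict_univ]
    refine lintegral_congr fun x => ?_
    rw [← ENNReal.ofReal_mul (abs_nonneg _), Real.log_exp, abs_of_pos (Real.exp_pos x)]
    congr 1
    field_simp
  rw [this]
  have h3 := hi.hasFiniteIntegral
  rwa [hasFiniteIntegral_iff_ofReal (Filter.Eventually.of_forall hg0)] at h3

end Pool.Agent.MPad5d82
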