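import Pool.Agent.Lib.MP_ad5d82_an.h24.Rad.PDefs

set_option autoImplicit false

namespace Pool.Agent.MPad5d82

open MeasureTheory Set Filter Topology

/-- `x ↦ log |x - q|²` is locally integrable on the plane (`Real.log 0 = 0`).
Hint: `|log s| ≤ 2 s^{-1/4} + s` type bound and `|x-q|² ≥ |x₁-q₁| |x₂-q₂|`, so near `q`
`|log r2| ≤ |log |x₁-q₁|| + |log |x₂-q₂|| + C` (for `0 < |x_i - q_i| ≤ 1`: `r2 ≥ |x₁-q₁|²` and `r2 ≤ 2`, so
`-log r2 ≤ -2 log |x₁-q₁|`), and `log |s|` is locally integrable on `ℝ`
(`intervalIntegrable_log'`); products with a bounded interval via Fubini / `Integrable.comp_fst` or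
`MeasureTheory.IntegrableOn ... prod`. -/
theorem locallyIntegrable_log_r2 (q : ℝ × ℝ) :
    LocallyIntegrable (fun x => Real.log (r2 q x)) volume := by
  rw [locallyIntegrable_iff]
  intro k hk
  obtain ⟨R, hR1, hkR⟩ : ∃ R : ℝ, 1 ≤ R ∧ k ⊆ Metric.closedBall q R := by
    obtain ⟨R, hR⟩ := hk.isBounded.subset_closedBall q
    exact ⟨max R 1, le_max_right _ _, hR.trans (Metric.closedBall_subset_closedBall
      (le_max_left _ _))⟩
  refine IntegrableOn.mono_set ?_ hkR
  rw [show q = (q.1, q.2) from rfl, ← closedBall_prod_same]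
  have hfin : ∀ a : ℝ, IsFiniteMeasure ((volume : Measure ℝ).restrict (Metric.closedBall a R)) :=
    fun a => ⟨by
      rw [Measure.restrict_apply_univ]
      exact (isCompact_closedBall a R).measure_lt_top⟩
  have hlog : IntegrableOn (fun s : ℝ => Real.log (s - q.1)) (Metric.closedBall q.1 R) := by
    rw [Real.closedBall_eq_Icc, integrableOn_Icc_iff_integrableOn_Ioc,
      ← intervalIntegrable_iff_integrableOn_Ioc_of_le (by linarith)]
    have h := (intervalIntegral.intervalIntegrable_log' (a := -R) (b := R)).comp_sub_right q.1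
    have e1 : -R + q.1 = q.1 - R := by ring
    have e2 : R + q.1 = q.1 + R := by ring
    rwa [e1, e2] at h
  have hdom : IntegrableOn (fun x : ℝ × ℝ => 2 * |Real.log (x.1 - q.1)| + Real.log (2 * R ^ 2))
      (Metric.closedBall q.1 R ×ˢ Metric.closedBall q.2 R) := by
    have := hfin q.1
    have := hfin q.2
    have e : (volume : Measure (ℝ × ℝ)).restrict
        (Metric.closedBall q.1 R ×ˢ Metric.closedBall q.2 R) =
        ((volume : Measure ℝ).restrict (Metric.closedBall q.1 R)).prod
          ((volume : Measure ℝ).restrict (Metric.closedBall q.2 R)) := by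
      rw [Measure.prod_restrict]
      rfl
    unfold IntegrableOn
    rw [e]
    refine Integrable.add ?_ (integrable_const _)
    have h1 : Integrable (fun s : ℝ => 2 * |Real.log (s - q.1)|)
        ((volume : Measure ℝ).restrict (Metric.closedBall q.1 R)) := hlog.abs.const_mul 2
    exact h1.comp_fst _
  have hne : ∀ᵐ x ∂(volume : Measure (ℝ × ℝ)), x.1 ≠ q.1 := by
    have h1 : (volume : Measure (ℝ × ℝ)) {x | x.1 = q.1} = 0 := by
      have e : {x : ℝ × ℝ | x.1 = q.1} = {q.1} ×ˢ univ := by
        ext x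
        simp
      rw [e, Measure.volume_eq_prod, Measure.prod_prod]
      simp
    rw [ae_iff]
    simpa using h1
  refine Integrable.mono' hdom ?_ ?_
  · refine Measurable.aestronglyMeasurable ?_
    unfold r2
    fun_prop
  · filter_upwards [ae_restrict_of_ae hne, ae_restrict_mem
      (measurableSet_closedBall.prod measurableSet_closedBall)] with x hx hxm
    have hx1 : |x.1 - q.1| ≤ R := by
      have := hxm.1
      rwa [Metric.mem_closedBall, Real.dist_eq] at this
    have hx2 : |x.2 - q.2| ≤ R := by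
      have := hxm.2
      rwa [Metric.mem_closedBall, Real.dist_eq] at this
    have h0 : 0 < |x.1 - q.1| := abs_pos.2 (sub_ne_zero.2 hx)
    have hr : r2 q x = |x.1 - q.1| ^ 2 + |x.2 - q.2| ^ 2 := by
      unfold r2
      rw [sq_abs, sq_abs]
    have hlow : |x.1 - q.1| ^ 2 ≤ r2 q x := by
      rw [hr]
      have := sq_nonneg |x.2 - q.2|
      linarith
    have hup : r2 q x ≤ 2 * R ^ 2 := by
      rw [hr]
      have h1 : |x.1 - q.1| ^ 2 ≤ R ^ 2 := by gcongr
      have h2 : |x.2 - q.2| ^ 2 ≤ R ^ 2 := by gcongr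
      linarith
    have hpos : 0 < r2 q x := lt_of_lt_of_le (by positivity) hlow
    have hl1 := Real.log_le_log (by positivity) hlow
    have hl2 := Real.log_le_log hpos hup
    rw [Real.log_pow, Real.log_abs] at hl1
    have hC : 0 ≤ Real.log (2 * R ^ 2) := Real.log_nonneg (by nlinarith)
    rw [Real.norm_eq_abs, abs_le]
    constructor
    · have h3 := neg_abs_le (Real.log (x.1 - q.1))
      push_cast at hl1
      linarith
    · have h3 := abs_nonneg (Real.log (x.1 - q.1))
      linarith

end Pool.Agent.MPad5d82
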