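import Pool.Agent.Lib.MP_ad5d82_an.h24.Rad.PDefs
import Pool.Agent.Lib.MP_ad5d82_an.h24.Rad.IBP
import Pool.Agent.Lib.MP_ad5d82_an.h24.Rad.LogLoc

set_option autoImplicit false

namespace Pool.Agent.MPad5d82

open MeasureTheory Set Filter Topology

private theorem lf1_integrable :
    Integrable (fun y : ℝ × ℝ => 4 / (y.1 ^ 2 + y.2 ^ 2 + 1) ^ 2) volume := by
  have h0 : Integrable (fun x : ℝ × ℝ => ((1 : ℝ) + ‖x‖ ^ 2) ^ (-(4 : ℝ) / 2)) volume := by
    apply integrable_rpow_neg_one_add_norm_sq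
    rw [Module.finrank_prod]
    simp
    norm_num
  have h1 := h0.const_mul 4
  refine h1.mono' ?_ ?_
  · apply Continuous.aestronglyMeasurable
    refine Continuous.div continuous_const (by fun_prop) fun y => ?_
    positivity
  · refine Eventually.of_forall fun y => ?_
    have hn : ‖y‖ ^ 2 ≤ y.1 ^ 2 + y.2 ^ 2 := by
      rw [Prod.norm_def]
      rcases max_choice ‖y.1‖ ‖y.2‖ with h | h
      · rw [h, Real.norm_eq_abs, sq_abs]
        nlinarith [sq_nonneg y.2]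
      · rw [h, Real.norm_eq_abs, sq_abs]
        nlinarith [sq_nonneg y.1]
    have h2 : ((1 : ℝ) + ‖y‖ ^ 2) ^ (-(4 : ℝ) / 2) = 1 / (1 + ‖y‖ ^ 2) ^ 2 := by
      rw [show -(4 : ℝ) / 2 = -((2 : ℕ) : ℝ) by norm_num, Real.rpow_neg (by positivity),
        Real.rpow_natCast, one_div]
    rw [h2, Real.norm_eq_abs, abs_of_nonneg (by positivity)]
    rw [show (4 : ℝ) * (1 / (1 + ‖y‖ ^ 2) ^ 2) = 4 / (1 + ‖y‖ ^ 2) ^ 2 by ring]
    apply div_le_div_of_nonneg_left (by norm_num) (by positivity)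
    apply pow_le_pow_left₀ (by positivity)
    linarith

private theorem lf1_radial : ∫ r in Ioi (0 : ℝ), 4 * r / (r ^ 2 + 1) ^ 2 = 2 := by
  have h := integral_Ioi_of_hasDerivAt_of_nonneg' (a := (0 : ℝ)) (l := 0)
    (g := fun r : ℝ => -2 / (r ^ 2 + 1)) (g' := fun r : ℝ => 4 * r / (r ^ 2 + 1) ^ 2) ?_ ?_ ?_
  · rw [h]
    norm_num
  · intro x _
    have h1 : HasDerivAt (fun r : ℝ => r ^ 2 + 1) (2 * x) x := by
      have := (hasDerivAt_pow 2 x).add_const (1 : ℝ)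
      simpa using this
    have h2 := (hasDerivAt_const x (-2 : ℝ)).div h1 (by positivity)
    refine h2.congr_deriv ?_
    ring
  · intro x hx
    have : (0 : ℝ) < x := hx
    positivity
  · have h1 : Tendsto (fun r : ℝ => r ^ 2 + 1) atTop atTop :=
      tendsto_atTop_add_const_right _ _ (tendsto_pow_atTop (by norm_num))
    exact h1.const_div_atTop (-2)

/-- `∫_{ℝ²} dy / (1 + |y|²)² = π` (and integrability). Polar coordinates
(`integral_comp_polarCoord_symm`), or iterated integrals. -/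
theorem integral_peak : Integrable (fun y : ℝ × ℝ => 4 / (y.1 ^ 2 + y.2 ^ 2 + 1) ^ 2) volume ∧
    ∫ y : ℝ × ℝ, 4 / (y.1 ^ 2 + y.2 ^ 2 + 1) ^ 2 = 4 * Real.pi := by
  refine ⟨lf1_integrable, ?_⟩
  rw [← integral_comp_polarCoord_symm]
  have h1 : ∀ p : ℝ × ℝ, p.1 • (4 / ((polarCoord.symm p).1 ^ 2 + (polarCoord.symm p).2 ^ 2 + 1) ^ 2)
      = (4 * p.1 / (p.1 ^ 2 + 1) ^ 2) * (1 : ℝ) := by
    intro p
    have h2 : (polarCoord.symm p).1 ^ 2 + (polarCoord.symm p).2 ^ 2 = p.1 ^ 2 := by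
      rw [polarCoord_symm_apply]
      simp only
      have := Real.cos_sq_add_sin_sq p.2
      calc (p.1 * Real.cos p.2) ^ 2 + (p.1 * Real.sin p.2) ^ 2
          = p.1 ^ 2 * (Real.cos p.2 ^ 2 + Real.sin p.2 ^ 2) := by ring
        _ = p.1 ^ 2 := by rw [this, mul_one]
    rw [h2, smul_eq_mul, mul_one]
    ring
  simp_rw [h1]
  rw [polarCoord_target, Measure.volume_eq_prod, setIntegral_prod_mul
    (f := fun r : ℝ => 4 * r / (r ^ 2 + 1) ^ 2) (g := fun _ : ℝ => (1 : ℝ)), lf1_radial]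
  have h3 : ∫ _ in Ioo (-Real.pi) Real.pi, (1 : ℝ) = 2 * Real.pi := by
    rw [setIntegral_const, smul_eq_mul, mul_one, Real.volume_real_Ioo_of_le (by linarith [Real.pi_pos])]
    ring
  rw [h3]
  ring

/-- `∫ 4 ε²/(|x-q|²+ε²)² φ → 4 π φ(q)` as `ε → 0+`.
Substitute `x = q + ε y`: the integral is `∫ 4/(1+|y|²)² φ(q + ε y) dy`; dominated convergence. -/
theorem peak_limit (q : ℝ × ℝ) (φ : ℝ × ℝ → ℝ)
    (hφ : Continuous φ) (hc : HasCompactSupport φ) :
    Tendsto (fun ε : ℝ => ∫ x, (4 * ε ^ 2 / (r2 q x + ε ^ 2) ^ 2) * φ x) (𝓝[>] 0) (𝓝 (4 * Real.pi * φ q)) := by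
  obtain ⟨hI, hV⟩ := integral_peak
  obtain ⟨Cb, hCb⟩ := hφ.bounded_above_of_compact_support hc
  have key : ∀ ε : ℝ, 0 < ε → ∫ x, (4 * ε ^ 2 / (r2 q x + ε ^ 2) ^ 2) * φ x =
      ∫ y : ℝ × ℝ, (4 / (y.1 ^ 2 + y.2 ^ 2 + 1) ^ 2) * φ (q + ε • y) := by
    intro ε hε
    have h1 := integral_add_left_eq_self (μ := (volume : Measure (ℝ × ℝ)))
      (fun x => (4 * ε ^ 2 / (r2 q x + ε ^ 2) ^ 2) * φ x) q
    rw [← h1]
    have h2 := Measure.integral_comp_smul_of_nonneg (volume : Measure (ℝ × ℝ))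
      (fun x => (4 * ε ^ 2 / (r2 q (q + x) + ε ^ 2) ^ 2) * φ (q + x)) ε (hR := hε.le)
    rw [Module.finrank_prod] at h2
    simp only [Module.finrank_self] at h2
    rw [show (1 + 1 : ℕ) = 2 from rfl] at h2
    have h3 : ∫ x, (4 * ε ^ 2 / (r2 q (q + x) + ε ^ 2) ^ 2) * φ (q + x) =
        ε ^ 2 * ∫ x : ℝ × ℝ, (4 * ε ^ 2 / (r2 q (q + ε • x) + ε ^ 2) ^ 2) * φ (q + ε • x) := by
      rw [h2, smul_eq_mul, ← mul_assoc, mul_inv_cancel₀ (by positivity), one_mul]
    rw [h3, ← integral_const_mul]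
    congr 1
    funext y
    have h4 : r2 q (q + ε • y) = ε ^ 2 * (y.1 ^ 2 + y.2 ^ 2) := by
      unfold r2
      simp only [Prod.fst_add, Prod.snd_add, Prod.smul_fst, Prod.smul_snd, smul_eq_mul]
      ring
    rw [h4]
    have h5 : ε ^ 2 * (y.1 ^ 2 + y.2 ^ 2) + ε ^ 2 = ε ^ 2 * (y.1 ^ 2 + y.2 ^ 2 + 1) := by ring
    rw [h5]
    have h6 : (y.1 ^ 2 + y.2 ^ 2 + 1) ≠ 0 := by positivity
    field_simp
  have h0 : Tendsto (fun ε : ℝ => ∫ y : ℝ × ℝ, (4 / (y.1 ^ 2 + y.2 ^ 2 + 1) ^ 2) * φ (q + ε • y))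
      (𝓝[>] 0) (𝓝 (∫ y : ℝ × ℝ, (4 / (y.1 ^ 2 + y.2 ^ 2 + 1) ^ 2) * φ q)) := by
    refine tendsto_integral_filter_of_dominated_convergence
      (fun y : ℝ × ℝ => (4 / (y.1 ^ 2 + y.2 ^ 2 + 1) ^ 2) * Cb) ?_ ?_ ?_ ?_
    · refine Eventually.of_forall fun ε => ?_
      apply Continuous.aestronglyMeasurable
      refine Continuous.mul ?_ ?_
      · refine Continuous.div continuous_const (by fun_prop) fun y => ?_
        positivity
      · exact hφ.comp (by fun_prop)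
    · refine Eventually.of_forall fun ε => Eventually.of_forall fun y => ?_
      rw [norm_mul, Real.norm_eq_abs, abs_of_nonneg (by positivity)]
      exact mul_le_mul_of_nonneg_left (hCb _) (by positivity)
    · exact hI.mul_const Cb
    · refine Eventually.of_forall fun y => ?_
      apply Tendsto.const_mul
      have h7 : Tendsto (fun ε : ℝ => φ (q + ε • y)) (𝓝 0) (𝓝 (φ (q + (0 : ℝ) • y))) := by
        apply Continuous.tendsto
        exact hφ.comp (by fun_prop)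
      rw [zero_smul, add_zero] at h7
      exact h7.mono_left nhdsWithin_le_nhds
  rw [integral_mul_const, hV] at h0
  refine h0.congr' ?_
  filter_upwards [self_mem_nhdsWithin] with ε hε
  exact (key ε hε).symm


theorem r2_nonneg' (q x : ℝ × ℝ) : 0 ≤ r2 q x := by unfold r2; positivity

theorem continuous_r2' (q : ℝ × ℝ) : Continuous (r2 q) := by
  unfold r2; fun_prop

/-- For `ε > 0`: `∫ log(|x-q|²+ε) Δφ = ∫ 4 ε/(|x-q|²+ε)² φ` (`ibp2` in both directions). -/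
theorem log_reg (q : ℝ × ℝ) (ε : ℝ) (hε : 0 < ε) (φ : ℝ × ℝ → ℝ)
    (hφ : ContDiff ℝ ((⊤ : ℕ∞) : WithTop ℕ∞) φ) (hc : HasCompactSupport φ) :
    ∫ x, Real.log (r2 q x + ε) * Lap φ x = ∫ x, (4 * ε / (r2 q x + ε) ^ 2) * φ x := by
  have hpos : ∀ x, 0 < r2 q x + ε := fun x => add_pos_of_nonneg_of_pos (r2_nonneg' q x) hε
  have hne : ∀ x, r2 q x + ε ≠ 0 := fun x => (hpos x).ne'
  have hrc : Continuous (fun x => r2 q x + ε) := (continuous_r2' q).add continuous_const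
  have hv : Continuous (fun x => Real.log (r2 q x + ε)) := hrc.log hne
  have hA : Continuous (fun x : ℝ × ℝ => 2 * (x.1 - q.1) / (r2 q x + ε)) :=
    Continuous.div (by fun_prop) hrc hne
  have hB : Continuous (fun x : ℝ × ℝ => 2 * (x.2 - q.2) / (r2 q x + ε)) :=
    Continuous.div (by fun_prop) hrc hne
  have hAA : Continuous (fun x : ℝ × ℝ => 2 / (r2 q x + ε) - 4 * (x.1 - q.1) ^ 2 / (r2 q x + ε) ^ 2) :=
    Continuous.sub (Continuous.div (by fun_prop) hrc hne)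
      (Continuous.div (by fun_prop) (hrc.pow 2) (fun x => pow_ne_zero 2 (hne x)))
  have hBB : Continuous (fun x : ℝ × ℝ => 2 / (r2 q x + ε) - 4 * (x.2 - q.2) ^ 2 / (r2 q x + ε) ^ 2) :=
    Continuous.sub (Continuous.div (by fun_prop) hrc hne)
      (Continuous.div (by fun_prop) (hrc.pow 2) (fun x => pow_ne_zero 2 (hne x)))
  -- derivative facts
  have hr1 : ∀ x : ℝ × ℝ, HasDerivAt (fun t : ℝ => r2 q (x + t • ((1 : ℝ), (0 : ℝ))) + ε)
      (2 * (x.1 - q.1)) 0 := by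
    intro x
    have : (fun t : ℝ => r2 q (x + t • ((1 : ℝ), (0 : ℝ))) + ε) =
        fun t : ℝ => (x.1 + t - q.1) ^ 2 + (x.2 - q.2) ^ 2 + ε := by
      funext t; simp [r2]
    rw [this]
    have h1 : HasDerivAt (fun t : ℝ => x.1 + t - q.1) 1 0 := by
      simpa using ((hasDerivAt_id (0:ℝ)).const_add x.1).sub_const q.1
    have h2 := ((h1.pow 2).add_const ((x.2 - q.2) ^ 2)).add_const ε
    exact h2.congr_deriv (by norm_num)
  have hr2 : ∀ x : ℝ × ℝ, HasDerivAt (fun t : ℝ => r2 q (x + t • ((0 : ℝ), (1 : ℝ))) + ε)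
      (2 * (x.2 - q.2)) 0 := by
    intro x
    have : (fun t : ℝ => r2 q (x + t • ((0 : ℝ), (1 : ℝ))) + ε) =
        fun t : ℝ => (x.1 - q.1) ^ 2 + (x.2 + t - q.2) ^ 2 + ε := by
      funext t; simp [r2]
    rw [this]
    have h1 : HasDerivAt (fun t : ℝ => x.2 + t - q.2) 1 0 := by
      simpa using ((hasDerivAt_id (0:ℝ)).const_add x.2).sub_const q.2
    have h2 := ((h1.pow 2).const_add ((x.1 - q.1) ^ 2)).add_const ε
    exact h2.congr_deriv (by norm_num)
  have h10 : ∀ x : ℝ × ℝ, x + (0:ℝ) • ((1 : ℝ), (0 : ℝ)) = x := fun x => by simp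
  have h20 : ∀ x : ℝ × ℝ, x + (0:ℝ) • ((0 : ℝ), (1 : ℝ)) = x := fun x => by simp
  have d1 : ∀ x, HasLineDerivAt ℝ (fun x => Real.log (r2 q x + ε)) (2 * (x.1 - q.1) / (r2 q x + ε)) x ((1:ℝ), (0:ℝ)) := by
    intro x
    have h := (hr1 x).log (by rw [h10]; exact hne x)
    rw [h10] at h
    exact h
  have d2 : ∀ x, HasLineDerivAt ℝ (fun x => Real.log (r2 q x + ε)) (2 * (x.2 - q.2) / (r2 q x + ε)) x ((0:ℝ), (1:ℝ)) := by
    intro x
    have h := (hr2 x).log (by rw [h20]; exact hne x)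
    rw [h20] at h
    exact h
  have d11 : ∀ x, HasLineDerivAt ℝ (fun x : ℝ × ℝ => 2 * (x.1 - q.1) / (r2 q x + ε))
      (2 / (r2 q x + ε) - 4 * (x.1 - q.1) ^ 2 / (r2 q x + ε) ^ 2) x ((1:ℝ), (0:ℝ)) := by
    intro x
    have h1 : HasDerivAt (fun t : ℝ => 2 * ((x + t • ((1 : ℝ), (0 : ℝ))).1 - q.1)) 2 0 := by
      have : (fun t : ℝ => 2 * ((x + t • ((1 : ℝ), (0 : ℝ))).1 - q.1)) = fun t : ℝ => 2 * (x.1 + t - q.1) := by
        funext t; simp
      rw [this]
      have h1 : HasDerivAt (fun t : ℝ => x.1 + t - q.1) 1 0 := by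
        simpa using ((hasDerivAt_id (0:ℝ)).const_add x.1).sub_const q.1
      simpa using h1.const_mul 2
    have h := h1.div (hr1 x) (by rw [h10]; exact hne x)
    rw [h10] at h
    have e : 2 / (r2 q x + ε) - 4 * (x.1 - q.1) ^ 2 / (r2 q x + ε) ^ 2 =
        (2 * (r2 q x + ε) - 2 * (x.1 - q.1) * (2 * (x.1 - q.1))) / (r2 q x + ε) ^ 2 := by
      have := hne x
      field_simp
      ring
    rw [e]
    exact h
  have d22 : ∀ x, HasLineDerivAt ℝ (fun x : ℝ × ℝ => 2 * (x.2 - q.2) / (r2 q x + ε))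
      (2 / (r2 q x + ε) - 4 * (x.2 - q.2) ^ 2 / (r2 q x + ε) ^ 2) x ((0:ℝ), (1:ℝ)) := by
    intro x
    have h1 : HasDerivAt (fun t : ℝ => 2 * ((x + t • ((0 : ℝ), (1 : ℝ))).2 - q.2)) 2 0 := by
      have : (fun t : ℝ => 2 * ((x + t • ((0 : ℝ), (1 : ℝ))).2 - q.2)) = fun t : ℝ => 2 * (x.2 + t - q.2) := by
        funext t; simp
      rw [this]
      have h1 : HasDerivAt (fun t : ℝ => x.2 + t - q.2) 1 0 := by
        simpa using ((hasDerivAt_id (0:ℝ)).const_add x.2).sub_const q.2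
      simpa using h1.const_mul 2
    have h := h1.div (hr2 x) (by rw [h20]; exact hne x)
    rw [h20] at h
    have e : 2 / (r2 q x + ε) - 4 * (x.2 - q.2) ^ 2 / (r2 q x + ε) ^ 2 =
        (2 * (r2 q x + ε) - 2 * (x.2 - q.2) * (2 * (x.2 - q.2))) / (r2 q x + ε) ^ 2 := by
      have := hne x
      field_simp
      ring
    rw [e]
    exact h
  have I1 := ibp2 _ _ _ _ hv hA hAA.locallyIntegrable d1 d11 φ hφ hc
  have I2 := ibp2 _ _ _ _ hv hB hBB.locallyIntegrable d2 d22 φ hφ hc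
  have hit : Continuous (iteratedFDeriv ℝ 2 φ) :=
    hφ.continuous_iteratedFDeriv (by
      show ((2 : ℕ∞) : WithTop ℕ∞) ≤ _
      exact WithTop.coe_le_coe.2 le_top)
  have hcs : HasCompactSupport (iteratedFDeriv ℝ 2 φ) := hc.iteratedFDeriv 2
  have hint : ∀ e : ℝ × ℝ, Integrable (fun x => Real.log (r2 q x + ε) *
      iteratedFDeriv ℝ 2 φ x (![e, e] : Fin 2 → ℝ × ℝ)) volume := by
    intro e
    refine Continuous.integrable_of_hasCompactSupport ?_ ?_
    · refine hv.mul ?_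
      exact ContinuousEval.continuous_eval.comp (hit.prodMk continuous_const) |>.congr (fun x => rfl)
    · refine HasCompactSupport.mul_left ?_
      refine hcs.comp_left (g := fun A : ContinuousMultilinearMap ℝ (fun _ : Fin 2 => ℝ × ℝ) ℝ => A ![e, e]) ?_
      simp
  have hL : ∀ x, Real.log (r2 q x + ε) * Lap φ x =
      Real.log (r2 q x + ε) * iteratedFDeriv ℝ 2 φ x (![((1 : ℝ), (0 : ℝ)), ((1 : ℝ), (0 : ℝ))] : Fin 2 → ℝ × ℝ)
      + Real.log (r2 q x + ε) * iteratedFDeriv ℝ 2 φ x (![((0 : ℝ), (1 : ℝ)), ((0 : ℝ), (1 : ℝ))] : Fin 2 → ℝ × ℝ) := by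
    intro x; unfold Lap; ring
  simp_rw [hL]
  rw [integral_add (hint _) (hint _), I1, I2, ← integral_add]
  · congr 1
    funext x
    have h := hne x
    have e : r2 q x = (x.1 - q.1) ^ 2 + (x.2 - q.2) ^ 2 := rfl
    field_simp
    rw [e]
    ring
  · exact (hAA.mul hφ.continuous).integrable_of_hasCompactSupport hc.mul_left
  · exact (hBB.mul hφ.continuous).integrable_of_hasCompactSupport hc.mul_left

/-- `∫ log(|x-q|²+ε²) ψ → ∫ log(|x-q|²) ψ` for continuous compactly supported `ψ` (dominated convergence: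
for `0<ε≤1`, `|log(s+ε²)| ≤ |log s| + log(1+s)`-type bound, and `locallyIntegrable_log_r2`). -/
theorem log_limit (q : ℝ × ℝ) (ψ : ℝ × ℝ → ℝ) (hψ : Continuous ψ) (hc : HasCompactSupport ψ) :
    Tendsto (fun ε : ℝ => ∫ x, Real.log (r2 q x + ε ^ 2) * ψ x) (𝓝[>] 0)
      (𝓝 (∫ x, Real.log (r2 q x) * ψ x)) := by
  have hr := continuous_r2' q
  have hae : ∀ᵐ x ∂(volume : Measure (ℝ × ℝ)), 0 < r2 q x := by
    have : ∀ᵐ x ∂(volume : Measure (ℝ × ℝ)), x ≠ q := by
      rw [ae_iff]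
      simp
    filter_upwards [this] with x hx
    refine lt_of_le_of_ne (r2_nonneg' q x) (fun h => hx ?_)
    unfold r2 at h
    have h1 : x.1 - q.1 = 0 := by nlinarith [sq_nonneg (x.1 - q.1), sq_nonneg (x.2 - q.2)]
    have h2 : x.2 - q.2 = 0 := by nlinarith [sq_nonneg (x.1 - q.1), sq_nonneg (x.2 - q.2)]
    exact Prod.ext (sub_eq_zero.1 h1) (sub_eq_zero.1 h2)
  refine tendsto_integral_filter_of_dominated_convergence
    (fun x => (|Real.log (r2 q x)| + Real.log (r2 q x + 1)) * |ψ x|) ?_ ?_ ?_ ?_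
  · refine Eventually.of_forall (fun ε => Measurable.aestronglyMeasurable ?_)
    exact ((hr.measurable.add_const _).log).mul hψ.measurable
  · have hmem : Ioo (0:ℝ) 1 ∈ 𝓝[>] (0:ℝ) := Ioo_mem_nhdsGT one_pos
    filter_upwards [hmem] with ε hε
    filter_upwards [hae] with x hx
    rw [norm_mul, Real.norm_eq_abs, Real.norm_eq_abs]
    refine mul_le_mul_of_nonneg_right ?_ (abs_nonneg _)
    have he2 : ε ^ 2 ≤ 1 := by nlinarith [hε.1, hε.2]
    have he0 : 0 < ε ^ 2 := pow_pos hε.1 2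
    have h1 : Real.log (r2 q x) ≤ Real.log (r2 q x + ε ^ 2) := Real.log_le_log hx (by linarith)
    have h2 : Real.log (r2 q x + ε ^ 2) ≤ Real.log (r2 q x + 1) := Real.log_le_log (by linarith) (by linarith)
    have h3 : 0 ≤ Real.log (r2 q x + 1) := Real.log_nonneg (by linarith)
    rw [abs_le]
    constructor
    · have := neg_abs_le (Real.log (r2 q x))
      linarith
    · have := abs_nonneg (Real.log (r2 q x))
      linarith
  · have e : (fun x => (|Real.log (r2 q x)| + Real.log (r2 q x + 1)) * |ψ x|) =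
        (fun x => |ψ x| • |Real.log (r2 q x)| + Real.log (r2 q x + 1) * |ψ x|) := by
      funext x; simp only [smul_eq_mul]; ring
    rw [e]
    refine Integrable.add ?_ ?_
    · have hl : LocallyIntegrable (fun x => |Real.log (r2 q x)|) volume := by
        intro x
        obtain ⟨U, hU, h⟩ := locallyIntegrable_log_r2 q x
        exact ⟨U, hU, h.abs⟩
      exact hl.integrable_smul_left_of_hasCompactSupport hψ.abs hc.norm
    · refine Continuous.integrable_of_hasCompactSupport ?_ ?_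
      · exact ((hr.add continuous_const).log (fun x => (add_pos_of_nonneg_of_pos (r2_nonneg' q x) one_pos).ne')).mul hψ.abs
      · exact HasCompactSupport.mul_left (hc.norm)
  · filter_upwards [hae] with x hx
    have h1 : Tendsto (fun ε : ℝ => r2 q x + ε ^ 2) (𝓝[>] 0) (𝓝 (r2 q x)) := by
      have : Tendsto (fun ε : ℝ => r2 q x + ε ^ 2) (𝓝 0) (𝓝 (r2 q x + 0 ^ 2)) :=
        (continuous_const.add (continuous_id.pow 2)).tendsto 0
      simp only [ne_eq, OfNat.ofNat_ne_zero, not_false_eq_true, zero_pow, add_zero] at this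
      exact this.mono_left nhdsWithin_le_nhds
    exact (h1.log hx.ne').mul_const _


/-- `Δ log|x-q|² = 4π δ_q`. -/
theorem log_fund (q : ℝ × ℝ) (φ : ℝ × ℝ → ℝ)
    (hφ : ContDiff ℝ ((⊤ : ℕ∞) : WithTop ℕ∞) φ) (hc : HasCompactSupport φ) :
    ∫ x, Real.log (r2 q x) * Lap φ x = 4 * Real.pi * φ q := by
  have hl := lap_cont φ hφ hc
  have h1 := log_limit q (Lap φ) hl.1 hl.2
  have h2 := peak_limit q φ hφ.continuous hc
  refine tendsto_nhds_unique h1 (h2.congr' ?_)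
  filter_upwards [self_mem_nhdsWithin] with ε hε
  exact (log_reg q (ε ^ 2) (by have : (0:ℝ) < ε := hε; positivity) φ hφ hc).symm

end Pool.Agent.MPad5d82
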