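import Pool.Agent.Lib.MP_ad5d82_an.h24.Rad.Defs
import Pool.Agent.Lib.MP_ad5d82_an.h24.Rad.Capped
import Pool.Agent.Lib.MP_ad5d82_an.h24.Rad.Gmat
import Pool.Agent.Lib.MP_ad5d82_an.h24.Rad.Energy
import Pool.Agent.Lib.MP_ad5d82_an.h24.Rad.Cont

set_option autoImplicit false

namespace Pool.Agent.MPad5d82

open MeasureTheory Set Filter Topology

/-- Bound for the energy at time `T`. -/
theorem energy_start {ι : Type} [Fintype ι] (G : Matrix ι ι ℝ) (d : ι → ℝ) (hd : ∀ a, 0 < d a)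
    (lam : ℝ) (hlam : 0 < lam) (n : ι → ℕ) (w w' : ι → ℝ)
    (h1 : ∀ a, w a ≤ 1) (h2 : ∀ a, |w' a - 2 * n a| ≤ 1) :
    energy G d lam w w' ≤ absSum G * (2 * (∑ a, (n a : ℝ)) + 1) ^ 2 + lam * (Real.exp 1 * ∑ a, d a) := by
  have hn : ∀ a, |w' a| ≤ 2 * (∑ a, (n a : ℝ)) + 1 := by
    intro a
    have h3 : (n a : ℝ) ≤ ∑ a, (n a : ℝ) :=
      Finset.single_le_sum (f := fun a => (n a : ℝ)) (fun i _ => Nat.cast_nonneg _) (Finset.mem_univ a)
    have h4 := abs_le.mp (h2 a)
    have h5 : (0 : ℝ) ≤ n a := Nat.cast_nonneg _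
    rw [abs_le]
    constructor <;> linarith
  have hX : 0 ≤ 2 * (∑ a, (n a : ℝ)) + 1 := by
    have : 0 ≤ ∑ a, (n a : ℝ) := Finset.sum_nonneg (fun i _ => Nat.cast_nonneg _)
    linarith
  set X := 2 * (∑ a, (n a : ℝ)) + 1 with hXdef
  have e1 : ∑ b, ∑ c, w' b * G b c * w' c ≤ absSum G * X ^ 2 := by
    unfold absSum
    rw [Finset.sum_mul]
    refine Finset.sum_le_sum fun b _ => ?_
    rw [Finset.sum_mul]
    refine Finset.sum_le_sum fun c _ => ?_
    calc w' b * G b c * w' c ≤ |w' b * G b c * w' c| := le_abs_self _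
      _ = |w' b| * |G b c| * |w' c| := by rw [abs_mul, abs_mul]
      _ ≤ X * |G b c| * X := by
          have := hn b
          have := hn c
          gcongr
      _ = |G b c| * X ^ 2 := by ring
  have e2 : ∑ a, d a * Real.exp (w a) ≤ Real.exp 1 * ∑ a, d a := by
    rw [Finset.mul_sum]
    refine Finset.sum_le_sum fun a _ => ?_
    have : Real.exp (w a) ≤ Real.exp 1 := Real.exp_le_exp.mpr (h1 a)
    calc d a * Real.exp (w a) ≤ d a * Real.exp 1 := by
          have := (hd a).le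
          gcongr
      _ = Real.exp 1 * d a := by ring
  have e3 : 0 ≤ absSum G * X ^ 2 := by
    unfold absSum
    have : 0 ≤ ∑ a, ∑ b, |G a b| := Finset.sum_nonneg fun a _ => Finset.sum_nonneg fun b _ => abs_nonneg _
    positivity
  unfold energy
  have e4 : lam * ∑ a, d a * Real.exp (w a) ≤ lam * (Real.exp 1 * ∑ a, d a) :=
    mul_le_mul_of_nonneg_left e2 hlam.le
  linarith

/-- **Main ODE theorem.** -/
theorem ode_main {ι : Type} [Fintype ι] [DecidableEq ι] (M : Matrix ι ι ℝ) (d : ι → ℝ) (hd : ∀ a, 0 < d a)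
    (hS : (Matrix.of fun a b => d a * M a b).PosDef)
    (lam : ℝ) (hlam : 0 < lam) (n : ι → ℕ) (hn : ∀ a, 1 ≤ n a) :
    ∃ A : ℝ, ∀ α : ι → ℝ, (∀ a, α a ≤ -A) →
      ∃ (w w' : ℝ → ι → ℝ) (C : ℝ),
        (∀ t a, HasDerivAt (fun s => w s a) (w' t a) t) ∧
        (∀ t a, HasDerivAt (fun s => w' s a) (rhs lam M t (w t) a) t) ∧
        (∀ t ≤ 0, ∀ a, |w t a - (2 * n a * t + α a)| ≤ C * Real.exp (2 * t) ∧
          |w' t a - 2 * n a| ≤ C * Real.exp (2 * t)) ∧
        (∀ t a, |w' t a| ≤ C) ∧ (∀ t a, Real.exp (w t a) ≤ C) := by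
  obtain ⟨G, γ, hγ, hG, hGM, hpos, -⟩ := exists_G M d hd hS
  set μ := absSum M with hμ
  have hμ0 : 0 ≤ μ := Finset.sum_nonneg fun a _ => Finset.sum_nonneg fun b _ => abs_nonneg _
  -- constants
  set E₁ : ℝ := absSum G * (2 * (∑ a, (n a : ℝ)) + 1) ^ 2 + lam * (Real.exp 1 * ∑ a, d a) + 1 with hE₁
  have hdsum : 0 ≤ ∑ a, d a := Finset.sum_nonneg fun a _ => (hd a).le
  have hG0 : 0 ≤ absSum G := Finset.sum_nonneg fun a _ => Finset.sum_nonneg fun b _ => abs_nonneg _
  have hE₁pos : 0 < E₁ := by positivity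
  set V := Real.sqrt (2 * E₁ / γ) with hV
  have hV0 : 0 ≤ V := Real.sqrt_nonneg _
  set P₁ : ℝ := 1 + ∑ a, E₁ / (lam * d a) with hP₁
  have hPa : ∀ a, E₁ / (lam * d a) ≤ P₁ := by
    intro a
    have h1 : E₁ / (lam * d a) ≤ ∑ a, E₁ / (lam * d a) :=
      Finset.single_le_sum (f := fun a => E₁ / (lam * d a))
        (fun i _ => div_nonneg hE₁pos.le (mul_pos hlam (hd i)).le) (Finset.mem_univ a)
    linarith
  have hP₁pos : 1 ≤ P₁ := by
    have : 0 ≤ ∑ a, E₁ / (lam * d a) :=
      Finset.sum_nonneg fun i _ => div_nonneg hE₁pos.le (mul_pos hlam (hd i)).le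
    linarith
  set m : ℝ := 1 + Real.log P₁ with hm
  have hm1 : 1 ≤ m := by
    have := Real.log_nonneg hP₁pos
    linarith
  have hPm : P₁ ≤ Real.exp m := by
    have h1 : Real.exp (Real.log P₁) = P₁ := Real.exp_log (by linarith)
    calc P₁ = Real.exp (Real.log P₁) := h1.symm
      _ ≤ Real.exp m := Real.exp_le_exp.mpr (by linarith)
  set C₂ : ℝ := lam * ((∑ a, d a) * V * P₁ ^ 2 * μ) with hC₂
  have hC₂0 : 0 ≤ C₂ := by positivity
  obtain ⟨T, hT0, hCT⟩ : ∃ T : ℝ, 0 ≤ T ∧ C₂ * Real.exp (-2 * T) ≤ 1 := by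
    refine ⟨C₂, hC₂0, ?_⟩
    have h1 : C₂ + 1 ≤ Real.exp C₂ := Real.add_one_le_exp C₂
    have h2 : Real.exp (-2 * C₂) ≤ Real.exp (-C₂) := Real.exp_le_exp.mpr (by linarith)
    have h3 : Real.exp (-C₂) * Real.exp C₂ = 1 := by rw [← Real.exp_add]; simp
    calc C₂ * Real.exp (-2 * C₂) ≤ C₂ * Real.exp (-C₂) := by gcongr
      _ ≤ Real.exp C₂ * Real.exp (-C₂) := by
          have := (Real.exp_pos (-C₂)).le
          have : C₂ ≤ Real.exp C₂ := by linarith
          gcongr
      _ = 1 := by rw [mul_comm]; exact h3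
  -- η
  set Q : ℝ := lam * (μ ^ 2 * Real.exp 1 ^ 2 + μ * Real.exp 1) with hQ
  have hQ0 : 0 ≤ Q := by positivity
  set η : ℝ := 1 / (1 + Q) with hη
  have hη0 : 0 < η := by positivity
  have hη1 : η ≤ 1 := by
    rw [hη, div_le_one (by positivity)]
    linarith
  have hQη : Q * η ≤ 1 := by
    rw [hη, mul_one_div, div_le_one (by positivity)]
    linarith
  refine ⟨∑ a, 2 * (n a : ℝ) * T - Real.log η, fun α hα => ?_⟩
  have hα' : ∀ a, 2 * n a * T + α a ≤ Real.log η := by
    intro a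
    have h1 : 2 * (n a : ℝ) * T ≤ ∑ a, 2 * (n a : ℝ) * T :=
      Finset.single_le_sum (f := fun a => 2 * (n a : ℝ) * T)
        (fun i _ => by positivity) (Finset.mem_univ a)
    have h2 := hα a
    linarith
  obtain ⟨w, w', h1, h2, h3⟩ := capped M lam hlam n hn α m V T η hT0 hη0 hη1 hm1 hα' hQη
  have hlogη : Real.log η ≤ 0 := Real.log_nonpos hη0.le hη1
  have hexp1 : ∀ t, t ≤ T → Real.exp (2 * (t - T)) ≤ 1 := by
    intro t ht
    rw [Real.exp_le_one_iff]
    linarith
  have hwT : ∀ a, w T a ≤ 2 * n a * T + α a + 1 := by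
    intro a
    have h4 := (h3 T le_rfl a).1
    have h5 := hexp1 T le_rfl
    have h6 := (abs_le.mp h4).2
    linarith
  have hET : energy G d lam (w T) (w' T) ≤ E₁ - 1 := by
    have := energy_start G d hd lam hlam n (w T) (w' T)
      (fun a => by
        have h4 := (h3 T le_rfl a).1
        have h5 := hexp1 T le_rfl
        have h6 := (abs_le.mp h4).2
        have h7 := hα' a
        linarith)
      (fun a => by
        have h4 := (h3 T le_rfl a).2
        have h5 := hexp1 T le_rfl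
        linarith)
    linarith
  have hcont := continuation M G d hd lam γ hlam hγ hG hGM hpos n α m V T E₁ P₁ hT0 hV hPa hPm
    (by simpa [hC₂] using hCT) w w' h1 h2 hwT hET
  -- caps are inactive for all times
  have hcap : ∀ t a, w t a ≤ kap n α m V T t a := by
    intro t a
    rcases le_total T t with ht | ht
    · exact (hcont t ht).2 a
    · have h4 := (h3 t ht a).1
      have h5 := hexp1 t ht
      have h6 := (abs_le.mp h4).2
      have h7 := hα' a
      have h8 : 2 * (n a : ℝ) * t ≤ 2 * (n a : ℝ) * T := by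
        have : (0 : ℝ) ≤ n a := Nat.cast_nonneg _
        have : 0 ≤ 2 * (n a : ℝ) := by positivity
        exact mul_le_mul_of_nonneg_left ht this
      unfold kap
      rw [max_eq_right (by linarith : t - T ≤ 0)]
      refine le_min ?_ ?_ <;> linarith
  have h2' : ∀ t a, HasDerivAt (fun s => w' s a) (rhs lam M t (w t) a) t := by
    intro t a
    have h4 : capE n α m V T t (w t) = fun b => Real.exp (w t b) := by
      funext b
      unfold capE
      rw [min_eq_left (hcap t b)]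
    have h5 := h2 t a
    rw [h4] at h5
    exact h5
  refine ⟨w, w', Real.exp (2 * T) + (2 * (∑ a, (n a : ℝ)) + 1) + V + P₁ + Real.exp 1, h1, h2', ?_, ?_, ?_⟩
  · intro t ht a
    have ht' : t ≤ T := by linarith
    have h4 := h3 t ht' a
    have hnn : 0 ≤ ∑ a, (n a : ℝ) := Finset.sum_nonneg (fun i _ => Nat.cast_nonneg _)
    have h5 : Real.exp (2 * (t - T)) ≤ Real.exp (2 * t) := Real.exp_le_exp.mpr (by linarith)
    have h6 : Real.exp (2 * t) ≤ (Real.exp (2 * T) + (2 * (∑ a, (n a : ℝ)) + 1) + V + P₁ + Real.exp 1) *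
        Real.exp (2 * t) := by
      have h7 : (1 : ℝ) ≤ Real.exp (2 * T) + (2 * (∑ a, (n a : ℝ)) + 1) + V + P₁ + Real.exp 1 := by
        have := (Real.exp_pos (2 * T)).le
        have := (Real.exp_pos 1).le
        linarith
      have h8 := (Real.exp_pos (2 * t)).le
      nlinarith
    have h9 := (Real.exp_pos (2 * (t - T))).le
    exact ⟨by linarith [h4.1], by linarith [h4.2]⟩
  · intro t a
    have hnn : 0 ≤ ∑ a, (n a : ℝ) := Finset.sum_nonneg (fun i _ => Nat.cast_nonneg _)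
    have p1 := (Real.exp_pos (2 * T)).le
    have p2 := (Real.exp_pos 1).le
    rcases le_total T t with ht | ht
    · have h4 := (energy_bounds G d hd lam γ hlam hγ hpos (w t) (w' t) E₁ (hcont t ht).1.le a).2
      rw [← hV] at h4
      linarith
    · have h4 := (h3 t ht a).2
      have h5 := hexp1 t ht
      have h6 := abs_le.mp h4
      have h7 : (n a : ℝ) ≤ ∑ a, (n a : ℝ) :=
        Finset.single_le_sum (f := fun a => (n a : ℝ)) (fun i _ => Nat.cast_nonneg _) (Finset.mem_univ a)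
      have h8 : (0 : ℝ) ≤ n a := Nat.cast_nonneg _
      rw [abs_le]
      constructor <;> linarith
  · intro t a
    have hnn : 0 ≤ ∑ a, (n a : ℝ) := Finset.sum_nonneg (fun i _ => Nat.cast_nonneg _)
    have p1 := (Real.exp_pos (2 * T)).le
    have p2 := (Real.exp_pos 1).le
    rcases le_total T t with ht | ht
    · have h4 := (energy_bounds G d hd lam γ hlam hγ hpos (w t) (w' t) E₁ (hcont t ht).1.le a).1
      have h5 := hPa a
      linarith
    · have h4 := (h3 t ht a).1
      have h5 := hexp1 t ht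
      have h6 := (abs_le.mp h4).2
      have h7 := hα' a
      have h8 : 2 * (n a : ℝ) * t ≤ 2 * (n a : ℝ) * T := by
        have : (0 : ℝ) ≤ n a := Nat.cast_nonneg _
        have : 0 ≤ 2 * (n a : ℝ) := by positivity
        exact mul_le_mul_of_nonneg_left ht this
      have h9 : w t a ≤ 1 := by linarith
      have h10 : Real.exp (w t a) ≤ Real.exp 1 := Real.exp_le_exp.mpr h9
      linarith

end Pool.Agent.MPad5d82
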