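import Pool.Agent.Lib.MP_ad5d82_an.h24.Rad.Defs

/-!
# Plane definitions
-/

set_option autoImplicit false

namespace Pool.Agent.MPad5d82

open MeasureTheory Set Filter Topology

/-- The Laplacian, written exactly as in the frozen statement. -/
noncomputable def Lap (φ : ℝ × ℝ → ℝ) (x : ℝ × ℝ) : ℝ :=
  iteratedFDeriv ℝ 2 φ x (![((1 : ℝ), (0 : ℝ)), ((1 : ℝ), (0 : ℝ))] : Fin 2 → ℝ × ℝ)
    + iteratedFDeriv ℝ 2 φ x (![((0 : ℝ), (1 : ℝ)), ((0 : ℝ), (1 : ℝ))] : Fin 2 → ℝ × ℝ)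

/-- The nonlinear term, written exactly as in the frozen statement (for a real matrix). -/
noncomputable def NL {ι : Type} [Fintype ι] (M : Matrix ι ι ℝ) (u : ι → ℝ × ℝ → ℝ) (a : ι) (x : ℝ × ℝ) : ℝ :=
  ∑ b, ∑ c, M a b * Real.exp (u b x) * M b c * Real.exp (u c x) - ∑ b, M a b * Real.exp (u b x)

end Pool.Agent.MPad5d82
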