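import Pool.Agent.Lib.MP_ad5d82_an.h24.Rad.PDefs
import Pool.Agent.Lib.MP_ad5d82_an.h24.Rad.IBP

set_option autoImplicit false

namespace Pool.Agent.MPad5d82

open MeasureTheory Set Filter Topology

/-- The radial function `x ↦ Z (log |x-q|)`, with value `0` at `q`. -/
noncomputable def radF (q : ℝ × ℝ) (Z : ℝ → ℝ) (x : ℝ × ℝ) : ℝ :=
  if r2 q x = 0 then 0 else Z (Real.log (r2 q x) / 2)

theorem continuous_r2_rd (q : ℝ × ℝ) : Continuous (r2 q) := by
  unfold r2
  fun_prop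

theorem r2_nonneg_rd (q x : ℝ × ℝ) : 0 ≤ r2 q x := by
  unfold r2
  positivity

theorem r2_eq_zero_iff_rd (q x : ℝ × ℝ) : r2 q x = 0 ↔ x = q := by
  constructor
  · intro h
    unfold r2 at h
    have h1 : (x.1 - q.1) ^ 2 = 0 := by nlinarith [sq_nonneg (x.1 - q.1), sq_nonneg (x.2 - q.2)]
    have h2 : (x.2 - q.2) ^ 2 = 0 := by nlinarith [sq_nonneg (x.1 - q.1), sq_nonneg (x.2 - q.2)]
    have h3 : x.1 - q.1 = 0 := by simpa using h1
    have h4 : x.2 - q.2 = 0 := by simpa using h2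
    ext
    · linarith
    · linarith
  · rintro rfl
    simp [r2]

theorem tendsto_half_log_rd : Tendsto (fun s : ℝ => Real.log s / 2) (𝓝[≠] 0) atBot := by
  have h := Real.tendsto_log_nhdsNE_zero
  exact h.atBot_div_const (by norm_num)

/-- One variable: extension by the limit at `0` is continuous. -/
theorem continuous_ext1_rd (g : ℝ → ℝ) (l : ℝ) (hg : ∀ s, s ≠ 0 → ContinuousAt g s)
    (hl : Tendsto g (𝓝[≠] 0) (𝓝 l)) : Continuous (fun s => if s = 0 then l else g s) := by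
  rw [continuous_iff_continuousAt]
  intro s
  by_cases hs : s = 0
  · subst hs
    rw [continuousAt_iff_punctured_nhds]
    simp only [if_true]
    refine hl.congr' ?_
    filter_upwards [self_mem_nhdsWithin] with t ht
    have ht' : t ≠ 0 := ht
    rw [if_neg ht']
  · have : (fun s => if s = 0 then l else g s) =ᶠ[𝓝 s] g := by
      filter_upwards [isOpen_ne.mem_nhds hs] with t ht
      rw [if_neg ht]
    exact (hg s hs).congr this.symm

theorem continuousAt_comp_log_rd (Z : ℝ → ℝ) (hZ : Continuous Z) (s : ℝ) (hs : s ≠ 0) :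
    ContinuousAt (fun s : ℝ => Z (Real.log s / 2)) s := by
  have h1 : ContinuousAt (fun s : ℝ => Real.log s / 2) s :=
    (Real.continuousAt_log hs).div_const 2
  exact ContinuousAt.comp (g := Z) hZ.continuousAt h1

/-- `radF` is continuous if `Z` is continuous and `Z → 0` at `-∞`. -/
theorem continuous_radF (q : ℝ × ℝ) (Z : ℝ → ℝ) (hZ : Continuous Z) (h0 : Tendsto Z atBot (𝓝 0)) :
    Continuous (radF q Z) := by
  have h := continuous_ext1_rd (fun s : ℝ => Z (Real.log s / 2)) 0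
    (fun s hs => continuousAt_comp_log_rd Z hZ s hs) (h0.comp tendsto_half_log_rd)
  exact h.comp (continuous_r2_rd q)

/-- local integrability from measurability, continuity off `q`, boundedness near `q`. -/
theorem locInt_of_bdd_rd (q : ℝ × ℝ) (f : ℝ × ℝ → ℝ) (hm : Measurable f)
    (hc : ∀ x, r2 q x ≠ 0 → ContinuousAt f x) (K : ℝ) (hb : ∀ x, r2 q x < 1 → |f x| ≤ K) :
    LocallyIntegrable f volume := by
  intro x
  refine Measure.FiniteAtFilter.integrableAtFilter
    (hm.aestronglyMeasurable.stronglyMeasurableAtFilter) (volume.finiteAt_nhds x) ?_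
  by_cases hx : r2 q x = 0
  · refine isBoundedUnder_of_eventually_le (a := K) ?_
    have : ∀ᶠ y in 𝓝 x, r2 q y < 1 := by
      refine (continuous_r2_rd q).continuousAt.eventually (gt_mem_nhds ?_)
      rw [hx]; exact one_pos
    filter_upwards [this] with y hy
    simpa [Real.norm_eq_abs] using hb y hy
  · exact (hc x hx).norm.isBoundedUnder_le

theorem measurable_comp_log_rd (q : ℝ × ℝ) (W : ℝ → ℝ) (hW : Continuous W) :
    Measurable (fun x => W (Real.log (r2 q x) / 2)) := by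
  have h1 : Measurable (fun x => Real.log (r2 q x) / 2) :=
    ((Real.measurable_log.comp (continuous_r2_rd q).measurable).div_const 2)
  exact hW.measurable.comp h1

theorem comp_log_bound_rd (W : ℝ → ℝ) (C : ℝ) (hb : ∀ t ≤ 0, |W t| ≤ C * Real.exp (2 * t))
    (s : ℝ) (hs : 0 < s) (hs1 : s ≤ 1) : |W (Real.log s / 2)| ≤ C * s := by
  have h1 : Real.log s / 2 ≤ 0 := by
    have := Real.log_nonpos hs.le hs1
    linarith
  have h2 := hb _ h1
  have h3 : 2 * (Real.log s / 2) = Real.log s := by ring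
  rw [h3, Real.exp_log hs] at h2
  exact h2

theorem bound_nonneg_rd (W : ℝ → ℝ) (C : ℝ) (hb : ∀ t ≤ 0, |W t| ≤ C * Real.exp (2 * t)) : 0 ≤ C := by
  have h := hb 0 le_rfl
  have h2 := abs_nonneg (W 0)
  simp at h
  linarith

/-- `x ↦ Z''(log|x-q|)/|x-q|²` is locally integrable if `Z''` is continuous and `|Z'' t| ≤ C exp(2t)` for `t ≤ 0`
(it is locally bounded, and continuous off `q`). -/
theorem locInt_rad (q : ℝ × ℝ) (W : ℝ → ℝ) (hW : Continuous W) (C : ℝ)
    (hb : ∀ t ≤ 0, |W t| ≤ C * Real.exp (2 * t)) :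
    LocallyIntegrable (fun x => W (Real.log (r2 q x) / 2) / r2 q x) volume := by
  refine locInt_of_bdd_rd q _ ((measurable_comp_log_rd q W hW).div (continuous_r2_rd q).measurable) ?_ C ?_
  · intro x hx
    refine ContinuousAt.div ?_ (continuous_r2_rd q).continuousAt hx
    exact ContinuousAt.comp (f := r2 q) (g := fun s : ℝ => W (Real.log s / 2))
      (continuousAt_comp_log_rd W hW _ hx) (continuous_r2_rd q).continuousAt
  · intro x hx
    have hC := bound_nonneg_rd W C hb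
    by_cases h0 : r2 q x = 0
    · simp [h0, hC]
    · have hp : 0 < r2 q x := lt_of_le_of_ne (r2_nonneg_rd q x) (Ne.symm h0)
      rw [abs_div, abs_of_pos hp, div_le_iff₀ hp]
      exact comp_log_bound_rd W C hb _ hp hx.le

/-- the linear form `x ↦ ⟨x - q, e⟩`. -/
def dd_rd (q e x : ℝ × ℝ) : ℝ := (x.1 - q.1) * e.1 + (x.2 - q.2) * e.2

theorem continuous_dd_rd (q e : ℝ × ℝ) : Continuous (dd_rd q e) := by
  unfold dd_rd
  fun_prop

/-- the function `h`. -/
noncomputable def hh_rd (q : ℝ × ℝ) (l : ℝ) (Z' : ℝ → ℝ) (x : ℝ × ℝ) : ℝ :=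
  if r2 q x = 0 then l else Z' (Real.log (r2 q x) / 2) / r2 q x

theorem continuous_hh_rd (q : ℝ × ℝ) (l : ℝ) (Z' : ℝ → ℝ) (hZ : Continuous Z')
    (hl : Tendsto (fun t => Z' t * Real.exp (-2 * t)) atBot (𝓝 l)) : Continuous (hh_rd q l Z') := by
  have h := continuous_ext1_rd (fun s : ℝ => Z' (Real.log s / 2) / |s|) l
    (fun s hs => ContinuousAt.div (continuousAt_comp_log_rd Z' hZ s hs) continuous_abs.continuousAt
      (abs_ne_zero.mpr hs)) (by
      refine (hl.comp tendsto_half_log_rd).congr' ?_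
      filter_upwards [self_mem_nhdsWithin] with t ht
      have ht' : t ≠ 0 := ht
      have : Real.exp (-2 * (Real.log t / 2)) = |t|⁻¹ := by
        rw [show -2 * (Real.log t / 2) = - Real.log t by ring, Real.exp_neg, Real.exp_log_eq_abs ht']
      simp only [Function.comp]
      rw [this]
      exact (div_eq_mul_inv _ _).symm)
  have h2 := h.comp (continuous_r2_rd q)
  refine h2.congr ?_
  intro x
  simp only [Function.comp, hh_rd]
  rw [abs_of_nonneg (r2_nonneg_rd q x)]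

theorem r2_line_rd (q x e : ℝ × ℝ) (t : ℝ) :
    r2 q (x + t • e) = r2 q x + 2 * t * dd_rd q e x + t ^ 2 * (e.1 ^ 2 + e.2 ^ 2) := by
  simp only [r2, dd_rd, Prod.fst_add, Prod.snd_add, Prod.smul_fst, Prod.smul_snd, smul_eq_mul]
  ring

theorem dd_line_rd (q x e : ℝ × ℝ) (t : ℝ) :
    dd_rd q e (x + t • e) = dd_rd q e x + t * (e.1 ^ 2 + e.2 ^ 2) := by
  simp only [dd_rd, Prod.fst_add, Prod.snd_add, Prod.smul_fst, Prod.smul_snd, smul_eq_mul]
  ring

theorem hasDeriv_r2_rd (q x e : ℝ × ℝ) :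
    HasDerivAt (fun t : ℝ => r2 q (x + t • e)) (2 * dd_rd q e x) 0 := by
  have h : (fun t : ℝ => r2 q (x + t • e))
      = fun t => r2 q x + 2 * t * dd_rd q e x + t ^ 2 * (e.1 ^ 2 + e.2 ^ 2) := by
    funext t; exact r2_line_rd q x e t
  rw [h]
  have h1 : HasDerivAt (fun t : ℝ => r2 q x + 2 * t * dd_rd q e x) (2 * 1 * dd_rd q e x) 0 := by
    have := ((hasDerivAt_id (0 : ℝ)).const_mul 2).mul_const (dd_rd q e x)
    simpa using this.const_add (r2 q x)
  have h2 : HasDerivAt (fun t : ℝ => t ^ 2 * (e.1 ^ 2 + e.2 ^ 2))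
      ((2 : ℕ) * (0 : ℝ) ^ (2 - 1) * 1 * (e.1 ^ 2 + e.2 ^ 2)) 0 := by
    have := (((hasDerivAt_id (0 : ℝ)).pow 2).mul_const (e.1 ^ 2 + e.2 ^ 2))
    simpa using this
  have h3 := h1.add h2
  refine h3.congr_deriv ?_
  norm_num

theorem hasDeriv_comp_log_rd (q x e : ℝ × ℝ) (Z Z' : ℝ → ℝ) (h1 : ∀ t, HasDerivAt Z (Z' t) t)
    (hx : r2 q x ≠ 0) :
    HasDerivAt (fun t : ℝ => Z (Real.log (r2 q (x + t • e)) / 2))
      (Z' (Real.log (r2 q x) / 2) * (dd_rd q e x / r2 q x)) 0 := by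
  have hr := hasDeriv_r2_rd q x e
  have hr0 : r2 q (x + (0 : ℝ) • e) = r2 q x := by simp
  have hl := (hr.log (by rw [hr0]; exact hx)).div_const 2
  rw [hr0] at hl
  have hZ : HasDerivAt Z (Z' (Real.log (r2 q x) / 2)) (Real.log (r2 q (x + (0 : ℝ) • e)) / 2) := by
    rw [hr0]; exact h1 _
  have hc := HasDerivAt.comp (0 : ℝ) hZ hl
  refine hc.congr_deriv ?_
  field_simp

theorem eventually_r2_ne_rd (q x e : ℝ × ℝ) (hx : r2 q x ≠ 0) :
    ∀ᶠ t : ℝ in 𝓝 0, r2 q (x + t • e) ≠ 0 := by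
  have hc : ContinuousAt (fun t : ℝ => r2 q (x + t • e)) 0 := (hasDeriv_r2_rd q x e).continuousAt
  have : (fun t : ℝ => r2 q (x + t • e)) 0 ≠ 0 := by simpa using hx
  exact hc.eventually_ne this

theorem line1_rd (q e : ℝ × ℝ) (he : e.1 ^ 2 + e.2 ^ 2 = 1) (Z Z' : ℝ → ℝ) (l : ℝ)
    (h1 : ∀ t, HasDerivAt Z (Z' t) t) (C : ℝ)
    (b0 : ∀ t ≤ 0, |Z t| ≤ C * Real.exp (2 * t)) (x : ℝ × ℝ) :
    HasLineDerivAt ℝ (radF q Z) (hh_rd q l Z' x * dd_rd q e x) x e := by
  by_cases hx : r2 q x = 0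
  · have hxq := (r2_eq_zero_iff_rd q x).mp hx
    subst hxq
    have hd : dd_rd x e x = 0 := by simp [dd_rd]
    rw [hd, mul_zero]
    unfold HasLineDerivAt
    have hO : (fun t : ℝ => radF x Z (x + t • e)) =O[𝓝 0] fun t : ℝ => ‖t - 0‖ ^ 2 := by
      refine Asymptotics.IsBigO.of_bound C ?_
      have : ∀ᶠ t : ℝ in 𝓝 0, |t| < 1 := by
        have := Metric.ball_mem_nhds (0 : ℝ) one_pos
        filter_upwards [this] with t ht
        simpa [Real.dist_eq] using ht
      filter_upwards [this] with t ht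
      have hr : r2 x (x + t • e) = t ^ 2 := by
        rw [r2_line_rd, hx, hd, he]; ring
      simp only [radF, hr, sub_zero, Real.norm_eq_abs]
      by_cases ht0 : t = 0
      · simp [ht0]
      · have ht2 : t ^ 2 ≠ 0 := pow_ne_zero 2 ht0
        rw [if_neg ht2]
        have hp : 0 < t ^ 2 := by positivity
        have hle : t ^ 2 ≤ 1 := by
          rw [← sq_abs]
          exact pow_le_one₀ (abs_nonneg t) ht.le
        have := comp_log_bound_rd Z C b0 (t ^ 2) hp hle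
        calc |Z (Real.log (t ^ 2) / 2)| ≤ C * t ^ 2 := this
          _ = C * |(|t| ^ 2)| := by rw [sq_abs, abs_of_pos hp]
    have hF := Asymptotics.IsBigO.hasFDerivAt (𝕜 := ℝ) hO (by norm_num)
    have := hF.hasDerivAt
    simpa using this
  · unfold HasLineDerivAt
    have h := hasDeriv_comp_log_rd q x e Z Z' h1 hx
    have heq : (fun t : ℝ => radF q Z (x + t • e)) =ᶠ[𝓝 0]
        fun t : ℝ => Z (Real.log (r2 q (x + t • e)) / 2) := by
      filter_upwards [eventually_r2_ne_rd q x e hx] with t ht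
      simp only [radF]
      rw [if_neg ht]
    refine (h.congr_of_eventuallyEq heq).congr_deriv ?_
    simp only [hh_rd]
    rw [if_neg hx]
    ring

theorem line2_rd (q e : ℝ × ℝ) (he : e.1 ^ 2 + e.2 ^ 2 = 1) (Z' Z'' : ℝ → ℝ) (l : ℝ)
    (h2 : ∀ t, HasDerivAt Z' (Z'' t) t)
    (hl : Tendsto (fun t => Z' t * Real.exp (-2 * t)) atBot (𝓝 l)) (x : ℝ × ℝ) :
    HasLineDerivAt ℝ (fun x => hh_rd q l Z' x * dd_rd q e x)
      (hh_rd q l Z' x + dd_rd q e x ^ 2 * (Z'' (Real.log (r2 q x) / 2) - 2 * Z' (Real.log (r2 q x) / 2))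
        / r2 q x ^ 2) x e := by
  have hZc : Continuous Z' := by
    rw [continuous_iff_continuousAt]
    exact fun t => (h2 t).continuousAt
  by_cases hx : r2 q x = 0
  · have hxq := (r2_eq_zero_iff_rd q x).mp hx
    subst hxq
    have hd : dd_rd x e x = 0 := by simp [dd_rd]
    rw [hd]
    unfold HasLineDerivAt
    have hcont : Continuous (fun t : ℝ => hh_rd x l Z' (x + t • e)) :=
      (continuous_hh_rd x l Z' hZc hl).comp (by fun_prop)
    have hfe : (fun t : ℝ => hh_rd x l Z' (x + t • e) * dd_rd x e (x + t • e))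
        = fun t : ℝ => hh_rd x l Z' (x + t • e) * t := by
      funext t
      rw [dd_line_rd, hd, he]; ring
    rw [hfe, hasDerivAt_iff_tendsto_slope_zero]
    have hlim : Tendsto (fun t : ℝ => hh_rd x l Z' (x + t • e)) (𝓝[≠] 0) (𝓝 (hh_rd x l Z' x)) := by
      have := (hcont.tendsto 0).mono_left (nhdsWithin_le_nhds (s := {0}ᶜ))
      simpa using this
    have e0 : hh_rd x l Z' x + 0 ^ 2 * (Z'' (Real.log (r2 x x) / 2) - 2 * Z' (Real.log (r2 x x) / 2))
        / r2 x x ^ 2 = hh_rd x l Z' x := by ring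
    rw [e0]
    refine hlim.congr' ?_
    filter_upwards [self_mem_nhdsWithin] with t ht
    have ht' : t ≠ 0 := ht
    simp only [zero_add, mul_zero, sub_zero, smul_eq_mul]
    field_simp
  · unfold HasLineDerivAt
    have h := hasDeriv_comp_log_rd q x e Z' Z'' h2 hx
    have hr := hasDeriv_r2_rd q x e
    have hr0 : r2 q (x + (0 : ℝ) • e) = r2 q x := by simp
    have hdd : HasDerivAt (fun t : ℝ => dd_rd q e (x + t • e)) 1 0 := by
      have hfe : (fun t : ℝ => dd_rd q e (x + t • e)) = fun t : ℝ => dd_rd q e x + t := by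
        funext t
        rw [dd_line_rd, he]; ring
      rw [hfe]
      exact (hasDerivAt_id (0 : ℝ)).const_add _
    have hq := (h.div hr (by rw [hr0]; exact hx)).mul hdd
    have heq : (fun t : ℝ => hh_rd q l Z' (x + t • e) * dd_rd q e (x + t • e)) =ᶠ[𝓝 0]
        ((fun t : ℝ => Z' (Real.log (r2 q (x + t • e)) / 2)) / (fun t : ℝ => r2 q (x + t • e)))
          * (fun t : ℝ => dd_rd q e (x + t • e)) := by
      filter_upwards [eventually_r2_ne_rd q x e hx] with t ht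
      simp only [hh_rd, Pi.mul_apply, Pi.div_apply]
      rw [if_neg ht]
    refine (hq.congr_of_eventuallyEq heq).congr_deriv ?_
    simp only [Pi.div_apply, zero_smul, add_zero]
    simp only [hh_rd]
    rw [if_neg hx]
    field_simp
    ring

theorem dd_sq_le_rd (q e x : ℝ × ℝ) (he : e.1 ^ 2 + e.2 ^ 2 = 1) : dd_rd q e x ^ 2 ≤ r2 q x := by
  have h : r2 q x = r2 q x * (e.1 ^ 2 + e.2 ^ 2) := by rw [he, mul_one]
  rw [h]
  unfold dd_rd r2
  nlinarith [sq_nonneg ((x.1 - q.1) * e.2 - (x.2 - q.2) * e.1)]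

theorem locInt_v11_rd (q e : ℝ × ℝ) (he : e.1 ^ 2 + e.2 ^ 2 = 1) (Z' Z'' : ℝ → ℝ) (C l : ℝ)
    (hZ : Continuous Z') (hZ2 : Continuous Z'')
    (b1 : ∀ t ≤ 0, |Z' t| ≤ C * Real.exp (2 * t))
    (b2 : ∀ t ≤ 0, |Z'' t| ≤ C * Real.exp (2 * t))
    (hl : Tendsto (fun t => Z' t * Real.exp (-2 * t)) atBot (𝓝 l)) :
    LocallyIntegrable (fun x => hh_rd q l Z' x + dd_rd q e x ^ 2 *
      (Z'' (Real.log (r2 q x) / 2) - 2 * Z' (Real.log (r2 q x) / 2)) / r2 q x ^ 2) volume := by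
  refine LocallyIntegrable.add (continuous_hh_rd q l Z' hZ hl).locallyIntegrable ?_
  refine locInt_of_bdd_rd q _ ?_ ?_ (3 * C) ?_
  · exact (((continuous_dd_rd q e).measurable.pow_const 2).mul
      ((measurable_comp_log_rd q Z'' hZ2).sub ((measurable_comp_log_rd q Z' hZ).const_mul 2))).div
      ((continuous_r2_rd q).measurable.pow_const 2)
  · intro x hx
    refine ContinuousAt.div ?_ ((continuous_r2_rd q).continuousAt.pow 2) (pow_ne_zero 2 hx)
    refine ContinuousAt.mul ((continuous_dd_rd q e).continuousAt.pow 2) ?_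
    refine ContinuousAt.sub ?_ ?_
    · exact ContinuousAt.comp (f := r2 q) (g := fun s : ℝ => Z'' (Real.log s / 2))
        (continuousAt_comp_log_rd Z'' hZ2 _ hx) (continuous_r2_rd q).continuousAt
    · refine ContinuousAt.mul continuousAt_const ?_
      exact ContinuousAt.comp (f := r2 q) (g := fun s : ℝ => Z' (Real.log s / 2))
        (continuousAt_comp_log_rd Z' hZ _ hx) (continuous_r2_rd q).continuousAt
  · intro x hx
    have hC := bound_nonneg_rd Z' C b1
    by_cases h0 : r2 q x = 0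
    · simp [h0, hC]
    · have hp : 0 < r2 q x := lt_of_le_of_ne (r2_nonneg_rd q x) (Ne.symm h0)
      have hp2 : 0 < r2 q x ^ 2 := by positivity
      rw [abs_div, abs_of_pos hp2, div_le_iff₀ hp2, abs_mul, abs_of_nonneg (sq_nonneg _)]
      have e1 := comp_log_bound_rd Z' C b1 _ hp hx.le
      have e2 := comp_log_bound_rd Z'' C b2 _ hp hx.le
      have e3 : |Z'' (Real.log (r2 q x) / 2) - 2 * Z' (Real.log (r2 q x) / 2)| ≤ 3 * C * r2 q x := by
        calc |Z'' (Real.log (r2 q x) / 2) - 2 * Z' (Real.log (r2 q x) / 2)|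
            ≤ |Z'' (Real.log (r2 q x) / 2)| + |2 * Z' (Real.log (r2 q x) / 2)| := abs_sub _ _
          _ = |Z'' (Real.log (r2 q x) / 2)| + 2 * |Z' (Real.log (r2 q x) / 2)| := by
              rw [abs_mul]; norm_num
          _ ≤ 3 * C * r2 q x := by linarith
      calc dd_rd q e x ^ 2 * |Z'' (Real.log (r2 q x) / 2) - 2 * Z' (Real.log (r2 q x) / 2)|
          ≤ r2 q x * (3 * C * r2 q x) :=
            mul_le_mul (dd_sq_le_rd q e x he) e3 (abs_nonneg _) hp.le
        _ = 3 * C * r2 q x ^ 2 := by ring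

theorem second_cont_rd (φ : ℝ × ℝ → ℝ) (hφ : ContDiff ℝ ((⊤ : ℕ∞) : WithTop ℕ∞) φ) (hc : HasCompactSupport φ)
    (e : ℝ × ℝ) : Continuous (fun x => iteratedFDeriv ℝ 2 φ x (![e, e] : Fin 2 → ℝ × ℝ)) ∧
      HasCompactSupport (fun x => iteratedFDeriv ℝ 2 φ x (![e, e] : Fin 2 → ℝ × ℝ)) := by
  constructor
  · have h1 : Continuous (iteratedFDeriv ℝ 2 φ) := hφ.continuous_iteratedFDeriv (m := 2)
      (WithTop.coe_le_coe.mpr (le_top : ((2 : ℕ) : ℕ∞) ≤ ⊤))
    exact (ContinuousMultilinearMap.apply ℝ (fun _ : Fin 2 => ℝ × ℝ) ℝ ![e, e]).continuous.comp h1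
  · have h1 : HasCompactSupport (iteratedFDeriv ℝ 2 φ) := hc.iteratedFDeriv 2
    exact h1.comp_left (g := fun m => m (![e, e] : Fin 2 → ℝ × ℝ)) rfl

/-- The Laplacian of a radial function in the sense of distributions, for `Z = O(e^{2t})` at `-∞`.

Proof.  Put `h x = if r2 = 0 then l else Z'(log r)/r²`, `v1 x = h x * (x.1-q.1)`,
`v11 x = if r2 = 0 then l else Z'(log r)/r² + (x.1-q.1)² (Z''(log r) - 2 Z'(log r))/r⁴`; then `HasLineDerivAt v (v1 x) x (1,0)`
and `HasLineDerivAt v1 (v11 x) x (1,0)` for EVERY `x` (at `x = q`: `v(q+s e₁)/s = Z(log|s|)/s → 0` since `|Z| ≤ C s²`, and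
`v1 (q + s e₁)/s = Z'(log|s|)/s² → l`); `v`, `v1` continuous, `v11` locally bounded and measurable.  Similarly for the
second coordinate; apply `ibp2` with `e = (1,0)` and `e = (0,1)` and add:
`v11 + v22 = 2 Z'/r² + (Z'' - 2 Z')/r² = Z''/r²` off `q` (a null set). -/
theorem radial_distrib (q : ℝ × ℝ) (Z Z' Z'' : ℝ → ℝ) (h1 : ∀ t, HasDerivAt Z (Z' t) t)
    (h2 : ∀ t, HasDerivAt Z' (Z'' t) t) (h3 : Continuous Z'') (C l : ℝ)
    (b0 : ∀ t ≤ 0, |Z t| ≤ C * Real.exp (2 * t)) (b1 : ∀ t ≤ 0, |Z' t| ≤ C * Real.exp (2 * t))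
    (b2 : ∀ t ≤ 0, |Z'' t| ≤ C * Real.exp (2 * t))
    (hl : Tendsto (fun t => Z' t * Real.exp (-2 * t)) atBot (𝓝 l))
    (φ : ℝ × ℝ → ℝ) (hφ : ContDiff ℝ ((⊤ : ℕ∞) : WithTop ℕ∞) φ) (hc : HasCompactSupport φ) :
    ∫ x, radF q Z x * Lap φ x = ∫ x, (Z'' (Real.log (r2 q x) / 2) / r2 q x) * φ x := by
  have hZc : Continuous Z := by
    rw [continuous_iff_continuousAt]
    exact fun t => (h1 t).continuousAt
  have hZc' : Continuous Z' := by
    rw [continuous_iff_continuousAt]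
    exact fun t => (h2 t).continuousAt
  have hZ0 : Tendsto Z atBot (𝓝 0) := by
    have hexp : Tendsto (fun t : ℝ => C * Real.exp (2 * t)) atBot (𝓝 0) := by
      have h2t : Tendsto (fun t : ℝ => 2 * t) atBot atBot :=
        tendsto_id.const_mul_atBot (by norm_num : (0 : ℝ) < 2)
      have := (Real.tendsto_exp_atBot.comp h2t).const_mul C
      simpa using this
    refine squeeze_zero_norm' ?_ hexp
    filter_upwards [eventually_le_atBot (0 : ℝ)] with t ht
    simpa [Real.norm_eq_abs] using b0 t ht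
  have hv := continuous_radF q Z hZc hZ0
  have key : ∀ e : ℝ × ℝ, e.1 ^ 2 + e.2 ^ 2 = 1 →
      ∫ x, radF q Z x * iteratedFDeriv ℝ 2 φ x (![e, e] : Fin 2 → ℝ × ℝ)
        = ∫ x, (hh_rd q l Z' x + dd_rd q e x ^ 2 *
          (Z'' (Real.log (r2 q x) / 2) - 2 * Z' (Real.log (r2 q x) / 2)) / r2 q x ^ 2) * φ x := by
    intro e he
    exact ibp2 (radF q Z) (fun x => hh_rd q l Z' x * dd_rd q e x) _ e hv
      ((continuous_hh_rd q l Z' hZc' hl).mul (continuous_dd_rd q e))
      (locInt_v11_rd q e he Z' Z'' C l hZc' h3 b1 b2 hl)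
      (line1_rd q e he Z Z' l h1 C b0) (line2_rd q e he Z' Z'' l h2 hl) φ hφ hc
  have hint : ∀ e : ℝ × ℝ,
      Integrable (fun x => radF q Z x * iteratedFDeriv ℝ 2 φ x (![e, e] : Fin 2 → ℝ × ℝ)) := by
    intro e
    obtain ⟨c1, c2⟩ := second_cont_rd φ hφ hc e
    exact (hv.mul c1).integrable_of_hasCompactSupport c2.mul_left
  have hint2 : ∀ e : ℝ × ℝ, e.1 ^ 2 + e.2 ^ 2 = 1 →
      Integrable (fun x => (hh_rd q l Z' x + dd_rd q e x ^ 2 *
          (Z'' (Real.log (r2 q x) / 2) - 2 * Z' (Real.log (r2 q x) / 2)) / r2 q x ^ 2) * φ x) := by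
    intro e he
    have hloc := locInt_v11_rd q e he Z' Z'' C l hZc' h3 b1 b2 hl
    have := hloc.integrable_smul_right_of_hasCompactSupport hφ.continuous hc
    simpa [smul_eq_mul] using this
  have hA : ∫ x, radF q Z x * Lap φ x
      = (∫ x, radF q Z x * iteratedFDeriv ℝ 2 φ x (![((1 : ℝ), (0 : ℝ)), ((1 : ℝ), (0 : ℝ))] : Fin 2 → ℝ × ℝ))
        + ∫ x, radF q Z x * iteratedFDeriv ℝ 2 φ x (![((0 : ℝ), (1 : ℝ)), ((0 : ℝ), (1 : ℝ))] : Fin 2 → ℝ × ℝ) := by
    rw [← integral_add (hint _) (hint _)]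
    refine integral_congr_ae (Eventually.of_forall fun x => ?_)
    simp only [Lap]
    ring
  rw [hA, key _ (by norm_num), key _ (by norm_num), ← integral_add (hint2 _ (by norm_num)) (hint2 _ (by norm_num))]
  refine integral_congr_ae ?_
  have hae : ∀ᵐ x : ℝ × ℝ, x ≠ q := by
    have : (volume : Measure (ℝ × ℝ)) {q} = 0 := measure_singleton q
    exact compl_mem_ae_iff.mpr this
  filter_upwards [hae] with x hx
  have hx0 : r2 q x ≠ 0 := fun h => hx ((r2_eq_zero_iff_rd q x).mp h)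
  simp only [hh_rd]
  rw [if_neg hx0]
  have hsum : dd_rd q ((1 : ℝ), (0 : ℝ)) x ^ 2 + dd_rd q ((0 : ℝ), (1 : ℝ)) x ^ 2 = r2 q x := by
    simp [dd_rd, r2]
  have hsum2 : dd_rd q ((0 : ℝ), (1 : ℝ)) x ^ 2 = r2 q x - dd_rd q ((1 : ℝ), (0 : ℝ)) x ^ 2 := by linarith
  rw [hsum2]
  field_simp
  ring

end Pool.Agent.MPad5d82
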