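import Pool.Agent.Lib.MP_ad5d82_an.h24.Rad.PDefs

set_option autoImplicit false

namespace Pool.Agent.MPad5d82

open MeasureTheory Set Filter Topology

theorem ode_smooth_aux {ι : Type} [Fintype ι] (M : Matrix ι ι ℝ) (lam : ℝ) (w w' : ℝ → ι → ℝ)
    (h1 : ∀ t a, HasDerivAt (fun s => w s a) (w' t a) t)
    (h2 : ∀ t a, HasDerivAt (fun s => w' s a) (rhs lam M t (w t) a) t) (n : ℕ) :
    (∀ a, ContDiff ℝ (n : WithTop ℕ∞) (fun t => w t a)) ∧
      (∀ a, ContDiff ℝ (n : WithTop ℕ∞) (fun t => w' t a)) := by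
  induction n with
  | zero =>
    refine ⟨fun a => ?_, fun a => ?_⟩
    · have : Continuous (fun t => w t a) :=
        continuous_iff_continuousAt.2 fun t => (h1 t a).continuousAt
      exact contDiff_zero.2 this
    · have : Continuous (fun t => w' t a) :=
        continuous_iff_continuousAt.2 fun t => (h2 t a).continuousAt
      exact contDiff_zero.2 this
  | succ n ih =>
    obtain ⟨ihw, ihw'⟩ := ih
    refine ⟨fun a => ?_, fun a => ?_⟩
    · have hd : deriv (fun t => w t a) = fun t => w' t a := by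
        funext t
        exact (h1 t a).deriv
      have := (contDiff_succ_iff_deriv (𝕜 := ℝ) (n := (n : WithTop ℕ∞))
        (f := fun t => w t a)).2
        ⟨fun t => (h1 t a).differentiableAt, by simp, by rw [hd]; exact ihw' a⟩
      simpa using this
    · have hd : deriv (fun t => w' t a) = fun t => rhs lam M t (w t) a := by
        funext t
        exact (h2 t a).deriv
      have hr : ContDiff ℝ (n : WithTop ℕ∞) (fun t => rhs lam M t (w t) a) := by
        have he : ∀ b, ContDiff ℝ (n : WithTop ℕ∞) (fun t => Real.exp (w t b)) := fun b =>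
          Real.contDiff_exp.comp (ihw b)
        unfold rhs rhsE
        refine ContDiff.mul contDiff_const (ContDiff.sub (ContDiff.mul ?_ ?_) ?_)
        · exact Real.contDiff_exp.comp (contDiff_const.mul contDiff_id)
        · refine ContDiff.sum fun b _ => ContDiff.mul (contDiff_const.mul (he b)) ?_
          exact ContDiff.sum fun c _ => contDiff_const.mul (he c)
        · exact ContDiff.sum fun b _ => contDiff_const.mul (he b)
      have := (contDiff_succ_iff_deriv (𝕜 := ℝ) (n := (n : WithTop ℕ∞))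
        (f := fun t => w' t a)).2
        ⟨fun t => (h2 t a).differentiableAt, by simp, by rw [hd]; exact hr⟩
      simpa using this

/-- Solutions of the ODE system are smooth (bootstrapping). -/
theorem ode_smooth {ι : Type} [Fintype ι] (M : Matrix ι ι ℝ) (lam : ℝ) (w w' : ℝ → ι → ℝ)
    (h1 : ∀ t a, HasDerivAt (fun s => w s a) (w' t a) t)
    (h2 : ∀ t a, HasDerivAt (fun s => w' s a) (rhs lam M t (w t) a) t) (a : ι) :
    ContDiff ℝ ((⊤ : ℕ∞) : WithTop ℕ∞) (fun t => w t a) := by
  rw [contDiff_infty]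
  intro n
  exact (ode_smooth_aux M lam w w' h1 h2 n).1 a


/-- weighted averages `∫_0^1 σ^j g(ρσ) dσ`. -/
private noncomputable def sm2A {E : Type} [NormedAddCommGroup E] [NormedSpace ℝ E] (j : ℕ)
    (g : ℝ → E) (ρ : ℝ) : E := ∫ σ in (0:ℝ)..1, σ ^ j • g (ρ * σ)

private theorem sm2_congr {E : Type} [NormedAddCommGroup E] [NormedSpace ℝ E] (j : ℕ)
    {g h : ℝ → E} (hgh : ∀ s, 0 ≤ s → g s = h s) {ρ : ℝ} (hρ : 0 ≤ ρ) :
    sm2A j g ρ = sm2A j h ρ := by
  unfold sm2A
  apply intervalIntegral.integral_congr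
  intro σ hσ
  rw [uIcc_of_le zero_le_one] at hσ
  simp only
  rw [hgh _ (mul_nonneg hρ hσ.1)]

private theorem sm2_cont {E : Type} [NormedAddCommGroup E] [NormedSpace ℝ E] (j : ℕ)
    {g : ℝ → E} (hg : Continuous g) : Continuous (sm2A j g) := by
  unfold sm2A
  apply intervalIntegral.continuous_parametric_intervalIntegral_of_continuous' 
  have : Continuous fun p : ℝ × ℝ => p.2 ^ j • g (p.1 * p.2) :=
    (continuous_snd.pow j).smul (hg.comp (continuous_fst.mul continuous_snd))
  exact this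

private theorem sm2_deriv {E : Type} [NormedAddCommGroup E] [NormedSpace ℝ E] [CompleteSpace E]
    (j : ℕ) {g g' : ℝ → E} (hg : ∀ s, HasDerivAt g (g' s) s) (hg' : Continuous g') (ρ : ℝ) :
    HasDerivAt (sm2A j g) (sm2A (j + 1) g' ρ) ρ := by
  have hgc : Continuous g := continuous_iff_continuousAt.2 fun s => (hg s).continuousAt
  obtain ⟨C, hC⟩ := (isCompact_Icc (a := -(|ρ| + 1)) (b := |ρ| + 1)).exists_bound_of_continuousOn
    hg'.continuousOn
  have key := intervalIntegral.hasDerivAt_integral_of_dominated_loc_of_deriv_le (μ := volume)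
    (a := 0) (b := 1) (F := fun x σ => σ ^ j • g (x * σ))
    (F' := fun x σ => σ ^ (j + 1) • g' (x * σ)) (x₀ := ρ) (s := Metric.ball ρ 1)
    (bound := fun _ => C) (Metric.ball_mem_nhds ρ one_pos) ?_ ?_ ?_ ?_ ?_ ?_
  · exact key.2
  · apply Filter.Eventually.of_forall
    intro x
    have : Continuous fun σ : ℝ => σ ^ j • g (x * σ) :=
      (continuous_id.pow j).smul (hgc.comp (continuous_const.mul continuous_id))
    exact this.aestronglyMeasurable
  · have : Continuous fun σ : ℝ => σ ^ j • g (ρ * σ) :=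
      (continuous_id.pow j).smul (hgc.comp (continuous_const.mul continuous_id))
    exact this.intervalIntegrable _ _
  · have : Continuous fun σ : ℝ => σ ^ (j + 1) • g' (ρ * σ) :=
      (continuous_id.pow (j + 1)).smul (hg'.comp (continuous_const.mul continuous_id))
    exact this.aestronglyMeasurable
  · apply Filter.Eventually.of_forall
    intro σ hσ x hx
    rw [uIoc_of_le zero_le_one] at hσ
    have h0 : 0 ≤ σ := hσ.1.le
    have hx1 : |x| ≤ |ρ| + 1 := by
      rw [Metric.mem_ball, Real.dist_eq] at hx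
      calc |x| = |ρ + (x - ρ)| := by ring_nf
        _ ≤ |ρ| + |x - ρ| := abs_add_le _ _
        _ ≤ |ρ| + 1 := by linarith
    have hx2 : |x * σ| ≤ |ρ| + 1 := by
      rw [abs_mul, abs_of_nonneg h0]
      calc |x| * σ ≤ |x| * 1 := mul_le_mul_of_nonneg_left hσ.2 (abs_nonneg x)
        _ ≤ |ρ| + 1 := by linarith
    have h3 := hC (x * σ) (abs_le.1 hx2)
    rw [norm_smul, norm_pow, Real.norm_eq_abs, abs_of_nonneg h0]
    have hC0 : 0 ≤ C := le_trans (norm_nonneg _) h3
    calc σ ^ (j + 1) * ‖g' (x * σ)‖ ≤ 1 * C :=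
          mul_le_mul (pow_le_one₀ h0 hσ.2) h3 (norm_nonneg _) zero_le_one
      _ = C := one_mul C
  · exact intervalIntegrable_const
  · apply Filter.Eventually.of_forall
    intro σ _ x _
    have h1 : HasDerivAt (fun x : ℝ => x * σ) σ x := by
      simpa using (hasDerivAt_id x).mul_const σ
    have h2 := (hg (x * σ)).scomp x h1
    have h3 : HasDerivAt (fun x : ℝ => σ ^ j • g (x * σ)) (σ ^ j • σ • g' (x * σ)) x :=
      h2.const_smul (σ ^ j)
    change HasDerivAt (fun x : ℝ => σ ^ j • g (x * σ)) (σ ^ (j + 1) • g' (x * σ)) x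
    rw [pow_succ, mul_smul]
    exact h3

/-- a `C^1` function on `[0,∞)`: weighted averages have the expected derivative. -/
private theorem sm2_within {E : Type} [NormedAddCommGroup E] [NormedSpace ℝ E] [CompleteSpace E]
    (j : ℕ) {g g' : ℝ → E} (hg : ∀ s, 0 ≤ s → HasDerivWithinAt g (g' s) (Ici 0) s)
    (hg' : ContinuousOn g' (Ici 0)) {ρ : ℝ} (hρ : 0 ≤ ρ) :
    HasDerivWithinAt (sm2A j g) (sm2A (j + 1) g' ρ) (Ici 0) ρ := by
  let G : ℝ → E := fun s => g (max s 0) + min s 0 • g' 0
  let G' : ℝ → E := fun s => g' (max s 0)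
  have hG' : Continuous G' := by
    apply hg'.comp_continuous (by fun_prop)
    intro s
    exact le_max_right s 0
  have e1 : ∀ s, 0 ≤ s → g s = G s := by
    intro s hs
    simp [G, max_eq_left hs, min_eq_right hs]
  have e2 : ∀ s, 0 ≤ s → g' s = G' s := by
    intro s hs
    simp [G', max_eq_left hs]
  have hGr : ∀ s, 0 ≤ s → HasDerivWithinAt G (G' s) (Ici 0) s := by
    intro s hs
    rw [← e2 s hs]
    apply (hg s hs).congr
    · intro x hx
      exact (e1 x hx).symm
    · exact (e1 s hs).symm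
  have hGl : ∀ s, s ≤ 0 → HasDerivWithinAt G (G' s) (Iic 0) s := by
    intro s hs
    have h1 : HasDerivWithinAt (fun x : ℝ => g 0 + x • g' 0) (g' 0) (Iic 0) s := by
      have := ((hasDerivAt_id s).smul_const (g' 0)).const_add (g 0)
      simpa using this.hasDerivWithinAt
    have h2 : G' s = g' 0 := by simp [G', max_eq_right hs]
    rw [h2]
    apply h1.congr
    · intro x hx
      simp only [G]
      rw [max_eq_right hx, min_eq_left hx]
    · simp only [G]
      rw [max_eq_right hs, min_eq_left hs]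
  have hG : ∀ s, HasDerivAt G (G' s) s := by
    intro s
    rcases lt_trichotomy s 0 with h | h | h
    · exact (hGl s h.le).hasDerivAt (Iic_mem_nhds h)
    · subst h
      have h3 := (hGl 0 le_rfl).union (hGr 0 le_rfl)
      rw [Iic_union_Ici] at h3
      exact hasDerivWithinAt_univ.1 h3
    · exact (hGr s h.le).hasDerivAt (Ici_mem_nhds h)
  have key := sm2_deriv j hG hG' ρ
  rw [sm2_congr (j + 1) e2 hρ]
  apply key.hasDerivWithinAt.congr
  · intro x hx
    exact sm2_congr j e1 hx
  · exact sm2_congr j e1 hρ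

private theorem sm2_contOn {E : Type} [NormedAddCommGroup E] [NormedSpace ℝ E] (j : ℕ)
    {g : ℝ → E} (hg : ContinuousOn g (Ici 0)) : ContinuousOn (sm2A j g) (Ici 0) := by
  have h1 : Continuous fun s : ℝ => g (max s 0) := by
    apply hg.comp_continuous (by fun_prop)
    intro s
    exact le_max_right s 0
  apply (sm2_cont j h1).continuousOn.congr
  intro x hx
  apply sm2_congr j _ hx
  intro s hs
  simp [max_eq_left hs]

private theorem sm2_contDiffOn {E : Type} [NormedAddCommGroup E] [NormedSpace ℝ E]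
    [CompleteSpace E] (n : ℕ) : ∀ (j : ℕ) (g : ℝ → E), ContDiffOn ℝ n g (Ici 0) →
      ContDiffOn ℝ n (sm2A j g) (Ici 0) := by
  induction n with
  | zero =>
    intro j g hg
    rw [Nat.cast_zero, contDiffOn_zero] at hg ⊢
    exact sm2_contOn j hg
  | succ n ih =>
    intro j g hg
    rw [Nat.cast_add, Nat.cast_one,
      contDiffOn_succ_iff_derivWithin (uniqueDiffOn_Ici (0 : ℝ))] at hg ⊢
    obtain ⟨h1, -, h3⟩ := hg
    have h4 : ∀ ρ, 0 ≤ ρ → HasDerivWithinAt (sm2A j g)
        (sm2A (j + 1) (derivWithin g (Ici 0)) ρ) (Ici 0) ρ := by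
      intro ρ hρ
      apply sm2_within j _ h3.continuousOn hρ
      intro s hs
      exact (h1 s hs).hasDerivWithinAt
    refine ⟨fun ρ hρ => (h4 ρ hρ).differentiableWithinAt, ?_, ?_⟩
    · intro h
      exact absurd h (by exact_mod_cast WithTop.natCast_ne_top n)
    · apply (ih (j + 1) _ h3).congr
      intro ρ hρ
      exact (h4 ρ hρ).derivWithin (uniqueDiffOn_Ici (0 : ℝ) ρ hρ)

/-- Smoothness at the origin for the regular radial equation `(ρ F')' = f(F)/4`.
Proof.  `F' ρ = (1/4) ∫_0^1 f (F (ρ σ)) dσ` for `ρ > 0`.  If `g` is `C^k` on `[0,∞)` then so is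
`ρ ↦ ∫_0^1 σ^j g(ρσ) dσ` (derivative `∫ σ^{j+1} g'(ρσ)dσ`); bootstrap.  (Or: all derivatives of `F` on `(0,∞)` have limits at
`0+`, and `hasDerivWithinAt_Ici_of_tendsto_deriv`.) -/
theorem smooth_origin {ι : Type} [Fintype ι] (F : ℝ → ι → ℝ) (f : (ι → ℝ) → (ι → ℝ))
    (hf : ContDiff ℝ ((⊤ : ℕ∞) : WithTop ℕ∞) f) (hF : ContinuousOn F (Ici 0))
    (hd : ∀ ρ : ℝ, 0 < ρ → HasDerivAt F ((1 / (4 * ρ)) • ∫ s in (0:ℝ)..ρ, f (F s)) ρ) :
    ContDiffOn ℝ ((⊤ : ℕ∞) : WithTop ℕ∞) F (Ici 0) := by
  have hfc : ContinuousOn (fun s => f (F s)) (Ici 0) := hf.continuous.comp_continuousOn hF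
  have hcA := sm2_contOn 0 hfc
  have e1 : ∀ ρ : ℝ, 0 < ρ → (1 / (4 * ρ)) • ∫ s in (0:ℝ)..ρ, f (F s) =
      (1 / 4 : ℝ) • sm2A 0 (fun s => f (F s)) ρ := by
    intro ρ hρ
    have h1 := intervalIntegral.smul_integral_comp_mul_left (a := 0) (b := 1)
      (fun s => f (F s)) ρ
    rw [mul_zero, mul_one] at h1
    rw [← h1, smul_smul]
    unfold sm2A
    simp only [pow_zero, one_smul]
    congr 1
    field_simp
  have hd' : ∀ ρ : ℝ, 0 < ρ → HasDerivAt F ((1 / 4 : ℝ) • sm2A 0 (fun s => f (F s)) ρ) ρ := by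
    intro ρ hρ
    rw [← e1 ρ hρ]
    exact hd ρ hρ
  have hw : ∀ ρ : ℝ, 0 ≤ ρ →
      HasDerivWithinAt F ((1 / 4 : ℝ) • sm2A 0 (fun s => f (F s)) ρ) (Ici 0) ρ := by
    intro ρ hρ
    rcases hρ.eq_or_lt with h | h
    · subst h
      apply hasDerivWithinAt_Ici_of_tendsto_deriv (s := Ioi 0)
      · intro x hx
        exact (hd' x hx).differentiableAt.differentiableWithinAt
      · exact (hF 0 (mem_Ici.2 le_rfl)).mono Ioi_subset_Ici_self
      · exact self_mem_nhdsWithin
      · have h2 : Tendsto (fun x => (1 / 4 : ℝ) • sm2A 0 (fun s => f (F s)) x) (𝓝[>] 0)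
            (𝓝 ((1 / 4 : ℝ) • sm2A 0 (fun s => f (F s)) 0)) := by
          apply Tendsto.const_smul
          exact (hcA 0 (mem_Ici.2 le_rfl)).mono_left (nhdsWithin_mono 0 Ioi_subset_Ici_self)
        apply h2.congr'
        filter_upwards [self_mem_nhdsWithin] with x hx
        exact (hd' x hx).deriv.symm
    · exact (hd' ρ h).hasDerivWithinAt
  rw [contDiffOn_infty]
  intro n
  induction n with
  | zero =>
    rw [Nat.cast_zero, contDiffOn_zero]
    exact hF
  | succ n ih =>
    rw [Nat.cast_add, Nat.cast_one,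
      contDiffOn_succ_iff_derivWithin (uniqueDiffOn_Ici (0 : ℝ))]
    refine ⟨fun ρ hρ => (hw ρ hρ).differentiableWithinAt, ?_, ?_⟩
    · intro h
      exact absurd h (by exact_mod_cast WithTop.natCast_ne_top n)
    · have h1 : ContDiffOn ℝ n (fun s => f (F s)) (Ici 0) :=
        (hf.of_le (by exact_mod_cast le_top)).comp_contDiffOn ih
      apply ((sm2_contDiffOn n 0 _ h1).const_smul (1 / 4 : ℝ)).congr
      intro ρ hρ
      exact (hw ρ hρ).derivWithin (uniqueDiffOn_Ici (0 : ℝ) ρ hρ)


end Pool.Agent.MPad5d82
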