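import Pool.Agent.Lib.MP_ad5d82_an.h24.Rad.PDefs
import Pool.Agent.Lib.MP_ad5d82_an.h24.Rad.OdeMain
import Pool.Agent.Lib.MP_ad5d82_an.h24.Rad.IBP
import Pool.Agent.Lib.MP_ad5d82_an.h24.Rad.LogLoc
import Pool.Agent.Lib.MP_ad5d82_an.h24.Rad.LogFund
import Pool.Agent.Lib.MP_ad5d82_an.h24.Rad.RadialDistrib
import Pool.Agent.Lib.MP_ad5d82_an.h24.Rad.Asymp
import Pool.Agent.Lib.MP_ad5d82_an.h24.Rad.Charge
import Pool.Agent.Lib.MP_ad5d82_an.h24.Rad.Smooth
import Pool.Agent.Lib.MP_ad5d82_an.h24.Rad.IntPlane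
import Pool.Agent.Lib.MP_ad5d82_an.h24.Rad.FDeriv

set_option autoImplicit false

namespace Pool.Agent.MPad5d82

open MeasureTheory Set Filter Topology

theorem r2_nonneg (q x : ℝ × ℝ) : 0 ≤ r2 q x := by unfold r2; positivity

theorem r2_eq_zero_iff (q x : ℝ × ℝ) : r2 q x = 0 ↔ x = q := by
  unfold r2
  constructor
  · intro h
    have h1 : (x.1 - q.1) ^ 2 = 0 := by nlinarith [sq_nonneg (x.1 - q.1), sq_nonneg (x.2 - q.2)]
    have h2 : (x.2 - q.2) ^ 2 = 0 := by nlinarith [sq_nonneg (x.1 - q.1), sq_nonneg (x.2 - q.2)]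
    have h3 := pow_eq_zero_iff (two_ne_zero) |>.mp h1
    have h4 := pow_eq_zero_iff (two_ne_zero) |>.mp h2
    ext <;> linarith
  · rintro rfl; simp

theorem r2_pos {q x : ℝ × ℝ} (h : x ≠ q) : 0 < r2 q x :=
  lt_of_le_of_ne (r2_nonneg q x) (fun h' => h ((r2_eq_zero_iff q x).mp h'.symm))

theorem contDiff_r2 (q : ℝ × ℝ) : ContDiff ℝ ((⊤ : ℕ∞) : WithTop ℕ∞) (r2 q) := by
  unfold r2; fun_prop

/-- The solution in the plane. -/
noncomputable def uSol {ι : Type} (q : ℝ × ℝ) (N : ι → ℕ) (α : ι → ℝ) (w : ℝ → ι → ℝ) (a : ι) (x : ℝ × ℝ) : ℝ :=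
  N a * Real.log (r2 q x) + α a + radF q (fun t => w t a - (2 * ((N a + 1 : ℕ) : ℝ) * t + α a)) x

theorem uSol_off {ι : Type} (q : ℝ × ℝ) (N : ι → ℕ) (α : ι → ℝ) (w : ℝ → ι → ℝ) (a : ι) (x : ℝ × ℝ) (h : x ≠ q) :
    uSol q N α w a x = w (Real.log (r2 q x) / 2) a - Real.log (r2 q x) := by
  unfold uSol radF
  rw [if_neg (r2_pos h).ne']
  push_cast
  ring

theorem exp_uSol_off {ι : Type} (q : ℝ × ℝ) (N : ι → ℕ) (α : ι → ℝ) (w : ℝ → ι → ℝ) (a : ι) (x : ℝ × ℝ)
    (h : x ≠ q) :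
    Real.exp (uSol q N α w a x) = Real.exp (w (Real.log (r2 q x) / 2) a) / r2 q x := by
  rw [uSol_off q N α w a x h, Real.exp_sub, Real.exp_log (r2_pos h)]

theorem rhs_eq_NL {ι : Type} [Fintype ι] (M : Matrix ι ι ℝ) (lam : ℝ) (q : ℝ × ℝ) (N : ι → ℕ) (α : ι → ℝ)
    (w : ℝ → ι → ℝ) (a : ι) (x : ℝ × ℝ) (h : x ≠ q) :
    rhs lam M (Real.log (r2 q x) / 2) (w (Real.log (r2 q x) / 2)) a / r2 q x =
      lam * NL M (uSol q N α w) a x := by
  have hr := r2_pos h
  have hE : Real.exp (-2 * (Real.log (r2 q x) / 2)) = (r2 q x)⁻¹ := by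
    rw [show -2 * (Real.log (r2 q x) / 2) = -Real.log (r2 q x) by ring, Real.exp_neg, Real.exp_log hr]
  unfold rhs rhsE NL
  simp only [exp_uSol_off q N α w _ x h, hE]
  have e1 : ∀ b, ∑ c, M a b * (Real.exp (w (Real.log (r2 q x) / 2) b) / r2 q x) * M b c *
      (Real.exp (w (Real.log (r2 q x) / 2) c) / r2 q x) =
      (M a b * Real.exp (w (Real.log (r2 q x) / 2) b) *
        ∑ c, M b c * Real.exp (w (Real.log (r2 q x) / 2) c)) * (r2 q x)⁻¹ * (r2 q x)⁻¹ := by
    intro b
    rw [Finset.mul_sum, Finset.sum_mul, Finset.sum_mul]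
    refine Finset.sum_congr rfl fun c _ => ?_
    field_simp
  simp only [e1]
  have e2 : ∑ b, M a b * (Real.exp (w (Real.log (r2 q x) / 2) b) / r2 q x) =
      (∑ b, M a b * Real.exp (w (Real.log (r2 q x) / 2) b)) * (r2 q x)⁻¹ := by
    rw [Finset.sum_mul]
    refine Finset.sum_congr rfl fun b _ => ?_
    field_simp
  rw [e2, ← Finset.sum_mul, ← Finset.sum_mul]
  field_simp

/-- a.e. equality off one point. -/
theorem ae_ne (q : ℝ × ℝ) : ∀ᵐ x : ℝ × ℝ ∂volume, x ≠ q := by
  have : volume ({q} : Set (ℝ × ℝ)) = 0 := measure_singleton q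
  exact measure_mono_null (fun x hx => by simpa using hx) this

theorem tendsto_r2_cocompact (q : ℝ × ℝ) : Tendsto (r2 q) (cocompact (ℝ × ℝ)) atTop := by
  have h1 : Tendsto (fun x : ℝ × ℝ => ‖x - q‖) (cocompact (ℝ × ℝ)) atTop := by
    have h2 : Tendsto (fun x : ℝ × ℝ => ‖x‖ - ‖q‖) (cocompact (ℝ × ℝ)) atTop :=
      tendsto_atTop_add_const_right _ _ tendsto_norm_cocompact_atTop
    exact tendsto_atTop_mono (fun x => norm_sub_norm_le x q) h2
  have h2 : Tendsto (fun x : ℝ × ℝ => ‖x - q‖ ^ 2) (cocompact (ℝ × ℝ)) atTop :=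
    (tendsto_pow_atTop two_ne_zero).comp h1
  refine tendsto_atTop_mono (fun x => ?_) h2
  unfold r2
  rw [Prod.norm_def]
  rcases le_total ‖(x - q).1‖ ‖(x - q).2‖ with h | h
  · rw [max_eq_right h]
    simp only [Prod.snd_sub, Real.norm_eq_abs, sq_abs]
    nlinarith [sq_nonneg (x.1 - q.1)]
  · rw [max_eq_left h]
    simp only [Prod.fst_sub, Real.norm_eq_abs, sq_abs]
    nlinarith [sq_nonneg (x.2 - q.2)]

/-- **Main theorem for one block** (all vortices at the point `q`). -/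
theorem block_main {ι : Type} [Fintype ι] [DecidableEq ι] (M : Matrix ι ι ℝ) (d : ι → ℝ) (hd : ∀ a, 0 < d a)
    (hS : (Matrix.of fun a b => d a * M a b).PosDef)
    (lam : ℝ) (hlam : 0 < lam) (N : ι → ℕ) (q : ℝ × ℝ) :
    ∃ A : ℝ, ∀ α : ι → ℝ, (∀ a, α a ≤ -A) → ∃ u : ι → ℝ × ℝ → ℝ,
      (∀ a, ContDiffOn ℝ ((⊤ : ℕ∞) : WithTop ℕ∞) (u a) {x | x ≠ q}) ∧
      ((∀ a, N a = 0) → ∀ a, ContDiff ℝ ((⊤ : ℕ∞) : WithTop ℕ∞) (u a)) ∧
      (∀ a, LocallyIntegrable (u a) volume) ∧
      (∀ a, LocallyIntegrable (fun x => NL M u a x) volume) ∧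
      (∀ a, ∀ φ : ℝ × ℝ → ℝ, ContDiff ℝ ((⊤ : ℕ∞) : WithTop ℕ∞) φ → HasCompactSupport φ →
        ∫ x, u a x * Lap φ x = (∫ x, lam * NL M u a x * φ x) + 4 * Real.pi * (N a * φ q)) ∧
      (∀ a, Tendsto (fun x => Real.exp (u a x)) (cocompact (ℝ × ℝ)) (𝓝 0)) ∧
      (∀ a, Integrable (fun x => Real.exp (u a x)) volume) ∧
      (∀ a, Tendsto (fun x => u a x - N a * Real.log (r2 q x)) (𝓝[≠] q) (𝓝 (α a))) ∧
      (∃ C : ℝ, ∀ a x, Real.exp (u a x) * r2 q x ≤ C) ∧
      (∃ f : ι → ℝ → ℝ, ∀ a x, u a x = f a (r2 q x)) := by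
  obtain ⟨-, -, -, -, -, -, hdet⟩ := exists_G M d hd hS
  obtain ⟨A, hA⟩ := ode_main M d hd hS lam hlam (fun a => N a + 1) (fun a => by omega)
  refine ⟨A, fun α hα => ?_⟩
  obtain ⟨w, w', C, h1, h2, h3, h4, h5⟩ := hA α hα
  have hw3 : ∀ t ≤ 0, ∀ a, |w t a - (2 * ((N a + 1 : ℕ) : ℝ) * t + α a)| ≤ C * Real.exp (2 * t) :=
    fun t ht a => (h3 t ht a).1
  set Z : ι → ℝ → ℝ := fun a t => w t a - (2 * ((N a + 1 : ℕ) : ℝ) * t + α a) with hZ
  have hZd : ∀ a t, HasDerivAt (Z a) (w' t a - 2 * ((N a + 1 : ℕ) : ℝ)) t := by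
    intro a t
    have h6 := (h1 t a).sub (((hasDerivAt_id t).const_mul (2 * ((N a + 1 : ℕ) : ℝ))).add_const (α a))
    rw [mul_one] at h6
    exact h6
  have hZ'd : ∀ a t, HasDerivAt (fun t => w' t a - 2 * ((N a + 1 : ℕ) : ℝ)) (rhs lam M t (w t) a) t := by
    intro a t
    exact (h2 t a).sub_const _
  have hZc : ∀ a, Continuous (Z a) := fun a =>
    continuous_iff_continuousAt.mpr fun t => (hZd a t).continuousAt
  have hwc : ∀ a, Continuous (fun t => w t a) := fun a =>
    continuous_iff_continuousAt.mpr fun t => (h1 t a).continuousAt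
  have hexp0 : Tendsto (fun t : ℝ => C * Real.exp (2 * t)) atBot (𝓝 0) := by
    have e1 : Tendsto (fun t : ℝ => 2 * t) atBot atBot := tendsto_id.const_mul_atBot (by norm_num)
    have e2 := (Real.tendsto_exp_atBot.comp e1).const_mul C
    simpa using e2
  have hZ0 : ∀ a, Tendsto (Z a) atBot (𝓝 0) := by
    intro a
    refine squeeze_zero_norm' ?_ hexp0
    filter_upwards [eventually_le_atBot (0:ℝ)] with t ht
    exact hw3 t ht a
  have hWc : ∀ a, Continuous (fun t => rhs lam M t (w t) a) := by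
    intro a
    unfold rhs rhsE
    have : ∀ b, Continuous (fun t => w t b) := hwc
    fun_prop
  have hrad : ∀ a, Continuous (radF q (Z a)) := fun a => continuous_radF q (Z a) (hZc a) (hZ0 a)
  set u : ι → ℝ × ℝ → ℝ := uSol q N α w with hu
  have hu' : ∀ a, u a = fun x => N a * Real.log (r2 q x) + α a + radF q (Z a) x := fun a => rfl
  have hNL : ∀ a x, x ≠ q → rhs lam M (Real.log (r2 q x) / 2) (w (Real.log (r2 q x) / 2)) a / r2 q x =
      lam * NL M u a x := fun a x hx => rhs_eq_NL M lam q N α w a x hx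
  have hlog := locallyIntegrable_log_r2 q
  have hLI : ∀ a, LocallyIntegrable (fun x => rhs lam M (Real.log (r2 q x) / 2) (w (Real.log (r2 q x) / 2)) a / r2 q x)
      volume := by
    intro a
    obtain ⟨C', hC'⟩ := rhs_bound M lam (fun a => N a + 1) (fun a => by omega) α w C hw3 a
    exact locInt_rad q (fun t => rhs lam M t (w t) a) (hWc a) C' hC'
  refine ⟨u, ?_, ?_, ?_, ?_, ?_, ?_, ?_, ?_, ?_, ?_⟩
  · -- smoothness off q
    intro a
    have hs := ode_smooth M lam w w' h1 h2 a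
    have hl : ContDiffOn ℝ ((⊤ : ℕ∞) : WithTop ℕ∞) (fun x => Real.log (r2 q x)) {x | x ≠ q} := by
      refine ContDiffOn.log (contDiff_r2 q).contDiffOn ?_
      intro x hx
      exact (r2_pos hx).ne'
    have e1 : ContDiffOn ℝ ((⊤ : ℕ∞) : WithTop ℕ∞)
        (fun x => w (Real.log (r2 q x) / 2) a - Real.log (r2 q x)) {x | x ≠ q} := by
      refine ContDiffOn.sub ?_ hl
      exact hs.comp_contDiffOn (hl.div_const 2)
    refine e1.congr ?_
    intro x hx
    exact uSol_off q N α w a x hx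
  · -- smoothness at q if no vortices
    intro hN a
    have hN1 : ∀ a, (N a + 1 : ℕ) = 1 := fun a => by simp [hN a]
    have h3' : ∀ t ≤ 0, ∀ a, |w t a - (2 * (1 : ℕ) * t + α a)| ≤ C * Real.exp (2 * t) ∧
          |w' t a - 2 * (1 : ℕ)| ≤ C * Real.exp (2 * t) := by
      intro t ht a
      have := h3 t ht a
      simpa [hN a] using this
    obtain ⟨hF1, hF2⟩ := F_deriv M lam α w w' C h1 h2 h3'
      (fun ρ => fun a => if ρ ≤ 0 then α a else w (Real.log ρ / 2) a - Real.log ρ) (fun ρ => rfl)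
    have hsm := smooth_origin _ (fun y : ι → ℝ => fun a => lam * (∑ b, ∑ c, M a b * Real.exp (y b) * M b c *
        Real.exp (y c) - ∑ b, M a b * Real.exp (y b))) ?_ hF1 hF2
    · have hsa : ContDiffOn ℝ ((⊤ : ℕ∞) : WithTop ℕ∞)
          (fun ρ : ℝ => if ρ ≤ 0 then α a else w (Real.log ρ / 2) a - Real.log ρ) (Ici 0) := by
        have := contDiffOn_pi.mp hsm a
        exact this
      have e2 : ContDiff ℝ ((⊤ : ℕ∞) : WithTop ℕ∞)
          (fun x : ℝ × ℝ => (fun ρ : ℝ => if ρ ≤ 0 then α a else w (Real.log ρ / 2) a - Real.log ρ) (r2 q x)) := by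
        rw [← contDiffOn_univ]
        exact hsa.comp (contDiff_r2 q).contDiffOn (fun x _ => r2_nonneg q x)
      have e3 : u a = fun x => (fun ρ : ℝ => if ρ ≤ 0 then α a else w (Real.log ρ / 2) a - Real.log ρ) (r2 q x) := by
        funext x
        by_cases hx : x = q
        · subst hx
          have h0 : r2 x x = 0 := (r2_eq_zero_iff x x).mpr rfl
          simp only [hu, uSol, radF, h0, if_true, Real.log_zero, mul_zero, zero_add, add_zero, le_refl]
        · have hp := r2_pos hx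
          simp only [not_le.mpr hp, if_false]
          exact uSol_off q N α w a x hx
      rw [e3]; exact e2
    · rw [contDiff_pi]
      intro a
      fun_prop
  · intro a
    rw [hu' a]
    have e1 : LocallyIntegrable (fun x => (N a : ℝ) * Real.log (r2 q x)) volume := hlog.smul (N a : ℝ)
    have e2 : LocallyIntegrable (fun x : ℝ × ℝ => α a + radF q (Z a) x) volume :=
      (continuous_const.add (hrad a)).locallyIntegrable
    have e3 := e1.add e2
    refine e3.congr ?_
    exact Eventually.of_forall fun x => by simp only [Pi.add_apply]; ring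
  · intro a
    have e1 : LocallyIntegrable (fun x => lam⁻¹ * (rhs lam M (Real.log (r2 q x) / 2)
      (w (Real.log (r2 q x) / 2)) a / r2 q x)) volume := (hLI a).smul lam⁻¹
    refine e1.congr ?_
    filter_upwards [ae_ne q] with x hx
    rw [hNL a x hx]
    field_simp
  · intro a φ hφ hc
    obtain ⟨l, hl⟩ := deriv_limit M lam (fun a => N a + 1) (fun a => by omega) α w w' C h2 h3 a
    obtain ⟨C', hC'⟩ := rhs_bound M lam (fun a => N a + 1) (fun a => by omega) α w C hw3 a
    have hrd := radial_distrib q (Z a) (fun t => w' t a - 2 * ((N a + 1 : ℕ) : ℝ)) (fun t => rhs lam M t (w t) a)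
      (hZd a) (hZ'd a) (hWc a) (max C C') l
      (fun t ht => (hw3 t ht a).trans (by gcongr; exact le_max_left _ _))
      (fun t ht => ((h3 t ht a).2).trans (by gcongr; exact le_max_left _ _))
      (fun t ht => (hC' t ht).trans (by gcongr; exact le_max_right _ _)) hl φ hφ hc
    have hLc := lap_cont φ hφ hc
    have i1 : Integrable (fun x => Real.log (r2 q x) * Lap φ x) volume := by
      have := hlog.integrable_smul_right_of_hasCompactSupport hLc.1 hLc.2
      simpa [smul_eq_mul] using this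
    have i2 : Integrable (Lap φ) volume := hLc.1.integrable_of_hasCompactSupport hLc.2
    have i3 : Integrable (fun x => radF q (Z a) x * Lap φ x) volume :=
      ((hrad a).mul hLc.1).integrable_of_hasCompactSupport (hLc.2.mul_left)
    have e1 : ∫ x, u a x * Lap φ x = N a * (∫ x, Real.log (r2 q x) * Lap φ x) + α a * (∫ x, Lap φ x) +
        ∫ x, radF q (Z a) x * Lap φ x := by
      rw [← integral_const_mul, ← integral_const_mul]
      have j1 : Integrable (fun x => (N a : ℝ) * (Real.log (r2 q x) * Lap φ x)) volume := i1.const_mul _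
      have j2 : Integrable (fun x => α a * Lap φ x) volume := i2.const_mul _
      have j3 : Integrable (fun x => (N a : ℝ) * (Real.log (r2 q x) * Lap φ x) + α a * Lap φ x) volume := j1.add j2
      rw [← integral_add j1 j2, ← integral_add j3 i3]
      refine integral_congr_ae (Eventually.of_forall fun x => ?_)
      simp only [hu' a]
      ring
    rw [e1, log_fund q φ hφ hc, integral_lap_eq_zero φ hφ hc, hrd]
    have e2 : ∫ x, rhs lam M (Real.log (r2 q x) / 2) (w (Real.log (r2 q x) / 2)) a / r2 q x * φ x =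
        ∫ x, lam * NL M u a x * φ x := by
      refine integral_congr_ae ?_
      filter_upwards [ae_ne q] with x hx
      rw [hNL a x hx]
    rw [e2]
    ring
  · intro a
    have e1 : Tendsto (fun x => C / r2 q x) (cocompact (ℝ × ℝ)) (𝓝 0) :=
      (tendsto_r2_cocompact q).const_div_atTop C
    refine squeeze_zero' (Eventually.of_forall fun x => (Real.exp_pos _).le) ?_ e1
    have e2 : ∀ᶠ x in cocompact (ℝ × ℝ), x ≠ q := by
      filter_upwards [(tendsto_r2_cocompact q).eventually (eventually_gt_atTop 0)] with x hx h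
      rw [(r2_eq_zero_iff q x).mpr h] at hx
      exact lt_irrefl _ hx
    filter_upwards [e2] with x hx
    rw [hu, exp_uSol_off q N α w a x hx]
    have := r2_pos hx
    gcongr
    exact h5 _ a
  · intro a
    have hi := exp_w_integrable M hdet lam hlam (fun a => N a + 1) (fun a => by omega) α w w' C h1 h2 hw3 h4 h5 a
    have hp := integrable_plane q (fun t => Real.exp (w t a)) (Real.continuous_exp.comp (hwc a))
      (fun t => (Real.exp_pos _).le) hi
    refine hp.congr ?_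
    filter_upwards [ae_ne q] with x hx
    rw [hu, exp_uSol_off q N α w a x hx]
  · intro a
    have e1 : Tendsto (fun x => α a + radF q (Z a) x) (𝓝[≠] q) (𝓝 (α a + radF q (Z a) q)) :=
      (((continuous_const.add (hrad a))).tendsto q).mono_left nhdsWithin_le_nhds
    have e2 : radF q (Z a) q = 0 := by
      unfold radF
      rw [if_pos ((r2_eq_zero_iff q q).mpr rfl)]
    rw [e2, add_zero] at e1
    refine e1.congr fun x => ?_
    rw [hu' a]
    ring
  · refine ⟨C, fun a x => ?_⟩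
    by_cases hx : x = q
    · rw [(r2_eq_zero_iff q x).mpr hx, mul_zero]
      exact (Real.exp_pos _).le.trans (h5 0 a)
    · have hr := r2_pos hx
      rw [hu, exp_uSol_off q N α w a x hx, div_mul_cancel₀ _ hr.ne']
      exact h5 _ a
  · refine ⟨fun a ρ => N a * Real.log ρ + α a + (if ρ = 0 then 0 else Z a (Real.log ρ / 2)), fun a x => ?_⟩
    rfl

end Pool.Agent.MPad5d82
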